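import Pool.Agent.K6.H67.SR.Defs

/-!
# Piece B of call67 (volunteer: helper35): balanced supersaturation

A maximal family of progressions with bounded degrees is large.
-/

set_option autoImplicit false

open Finset

namespace Pool.Agent.K6.H67.SR

section

variable {V : Type} [AddCommGroup V] [DecidableEq V]

/-- The points of the progression `q = (x, y)`. -/
def pts (k : ℕ) (q : V × V) : Finset V := (range k).image fun j => q.1 + j • q.2

theorem mem_pts {k : ℕ} {q : V × V} {v : V} : v ∈ pts k q ↔ ∃ j < k, q.1 + j • q.2 = v := by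
  simp [pts]

theorem smul_inj {p k : ℕ} [Fact p.Prime] [Module (ZMod p) V] (hkp : k ≤ p) {y : V} (hy : y ≠ 0)
    {i j : ℕ} (hi : i < k) (hj : j < k) (h : i • y = j • y) : i = j := by
  have h1 : ((i : ZMod p) - (j : ZMod p)) • y = 0 := by
    rw [sub_smul, Nat.cast_smul_eq_nsmul, Nat.cast_smul_eq_nsmul, h, sub_self]
  rcases smul_eq_zero.mp h1 with h2 | h2
  · have h3 : (i : ZMod p) = (j : ZMod p) := sub_eq_zero.mp h2
    rw [ZMod.natCast_eq_natCast_iff] at h3
    exact Nat.ModEq.eq_of_lt_of_lt h3 (by omega) (by omega)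
  · exact absurd h2 hy

theorem card_pts {p k : ℕ} [Fact p.Prime] [Module (ZMod p) V] (hkp : k ≤ p) {q : V × V}
    (hq : q.2 ≠ 0) : (pts k q).card = k := by
  unfold pts
  rw [card_image_of_injOn, card_range]
  intro i hi j hj h
  have hi' : i < k := by simpa using hi
  have hj' : j < k := by simpa using hj
  exact smul_inj (p := p) hkp hq hi' hj' (by simpa using h)

/-- The progressions in `S`, as sets. -/
def EE [Fintype V] (k : ℕ) (S : Finset V) : Finset (Finset V) := (aps k S).image (pts k)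

theorem mem_EE [Fintype V] {k : ℕ} {S e : Finset V} :
    e ∈ EE k S ↔ ∃ q : V × V, q.2 ≠ 0 ∧ (∀ j < k, q.1 + j • q.2 ∈ S) ∧ pts k q = e := by
  simp [EE, aps, and_assoc]

theorem EE_sub [Fintype V] {k : ℕ} {S e : Finset V} (h : e ∈ EE k S) : e ⊆ S := by
  obtain ⟨q, -, h2, rfl⟩ := mem_EE.mp h
  intro v hv
  obtain ⟨j, hj, rfl⟩ := mem_pts.mp hv
  exact h2 j hj

theorem EE_card [Fintype V] {p k : ℕ} [Fact p.Prime] [Module (ZMod p) V] (hkp : k ≤ p)
    {S e : Finset V} (h : e ∈ EE k S) : e.card = k := by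
  obtain ⟨q, h1, -, rfl⟩ := mem_EE.mp h
  exact card_pts (p := p) hkp h1

theorem EE_mono [Fintype V] {k : ℕ} {S S' : Finset V} (h : S ⊆ S') : EE k S ⊆ EE k S' := by
  intro e he
  obtain ⟨q, h1, h2, h3⟩ := mem_EE.mp he
  exact mem_EE.mpr ⟨q, h1, fun j hj => h (h2 j hj), h3⟩

/-- Every set is the set of the points of at most `k ^ 2` progressions. -/
theorem aps_le [Fintype V] {p k : ℕ} [Fact p.Prime] [Module (ZMod p) V] (hk : 3 ≤ k) (hkp : k ≤ p)
    (S : Finset V) : (aps k S).card ≤ k ^ 2 * (EE k S).card := by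
  refine card_le_mul_card_image (f := pts k) (aps k S) (k ^ 2) ?_
  intro e he
  have hec : e.card = k := EE_card (p := p) hkp he
  have h1 : ((aps k S).filter fun q => pts k q = e).card ≤ (e ×ˢ e).card := by
    refine card_le_card_of_injOn (fun q => (q.1, q.1 + q.2)) ?_ ?_
    · intro q hq
      have hq' : pts k q = e := (mem_filter.mp hq).2
      rw [← hq']
      simp only [coe_product, Set.mem_prod, mem_coe, mem_pts]
      exact ⟨⟨0, by omega, by simp⟩, ⟨1, by omega, by simp⟩⟩
    · intro q _ q' _ h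
      simp only [Prod.mk.injEq] at h
      obtain ⟨h2, h3⟩ := h
      rw [h2] at h3
      exact Prod.ext h2 (add_left_cancel h3)
  refine h1.trans ?_
  rw [card_product, hec, sq]

/-- At most `k ^ 2` progressions contain two given points. -/
theorem codeg2 [Fintype V] {p k : ℕ} [Fact p.Prime] [Module (ZMod p) V] (hkp : k ≤ p)
    (S : Finset V) {u v : V} (huv : u ≠ v) :
    ((EE k S).filter fun e => u ∈ e ∧ v ∈ e).card ≤ k ^ 2 := by
  have h1 : ((EE k S).filter fun e => u ∈ e ∧ v ∈ e) ⊆
      (range k ×ˢ range k).image fun t : ℕ × ℕ =>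
        pts k (u - (t.1 : ZMod p) • (((t.2 : ZMod p) - (t.1 : ZMod p))⁻¹ • (v - u)),
          ((t.2 : ZMod p) - (t.1 : ZMod p))⁻¹ • (v - u)) := by
    intro e he
    obtain ⟨he, hu, hv⟩ := mem_filter.mp he
    obtain ⟨⟨x, y⟩, h2, -, rfl⟩ := mem_EE.mp he
    obtain ⟨i, hi, rfl⟩ := mem_pts.mp hu
    obtain ⟨j, hj, rfl⟩ := mem_pts.mp hv
    rw [mem_image]
    refine ⟨(i, j), by simp [hi, hj], ?_⟩
    have hij : (j : ZMod p) - (i : ZMod p) ≠ 0 := by
      intro h
      have h3 : (j : ZMod p) = (i : ZMod p) := sub_eq_zero.mp h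
      rw [ZMod.natCast_eq_natCast_iff] at h3
      have h4 := Nat.ModEq.eq_of_lt_of_lt h3 (by omega) (by omega)
      exact huv (by rw [h4])
    have h5 : ((j : ZMod p) - (i : ZMod p))⁻¹ • (x + j • y - (x + i • y)) = y := by
      have h6 : x + j • y - (x + i • y) = ((j : ZMod p) - (i : ZMod p)) • y := by
        rw [sub_smul, Nat.cast_smul_eq_nsmul, Nat.cast_smul_eq_nsmul]
        abel
      rw [h6, smul_smul, inv_mul_cancel₀ hij, one_smul]
    simp only
    rw [h5, Nat.cast_smul_eq_nsmul, add_sub_cancel_right]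
  refine (card_le_card h1).trans (card_image_le.trans ?_)
  rw [card_product, card_range, sq]

/-- A maximal family of progressions with degrees at most `Δ`. -/
theorem exists_family [Fintype V] {p k : ℕ} [Fact p.Prime] [Module (ZMod p) V] (hk : 3 ≤ k)
    (hkp : k ≤ p) (U : Finset V) {a : ℝ} (hU : U.Nonempty) (ha : 4 * (k : ℝ) ^ 2 ≤ a)
    (hs : ∀ U' ⊆ U, U.card ≤ 2 * U'.card → a * U'.card ≤ ((aps k U').card : ℝ)) :
    ∃ F ⊆ EE k U, (U.card : ℝ) * (a / (4 * (k : ℝ) ^ 2)) ≤ F.card ∧
      ∀ v : V, ((F.filter fun e => v ∈ e).card : ℝ) ≤ (2 * k + 1) * (a / (4 * (k : ℝ) ^ 2)) := by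
  have hk0 : (0 : ℝ) < k := by
    have : 0 < k := by omega
    exact_mod_cast this
  set D : ℝ := a / (4 * (k : ℝ) ^ 2) with hD
  have hD1 : 1 ≤ D := by
    rw [hD, le_div_iff₀ (by positivity)]
    linarith
  have haD : a = 4 * (k : ℝ) ^ 2 * D := by
    rw [hD]
    field_simp
  set Δ : ℕ := ⌈2 * k * D⌉₊ with hΔ
  have hΔ1 : 2 * k * D ≤ Δ := Nat.le_ceil _
  have hΔ2 : (Δ : ℝ) ≤ (2 * k + 1) * D := by
    have h1 : (Δ : ℝ) < 2 * k * D + 1 := Nat.ceil_lt_add_one (by positivity)
    nlinarith
  let 𝓕 : Finset (Finset (Finset V)) := (EE k U).powerset.filter fun F =>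
    ∀ v : V, (F.filter fun e => v ∈ e).card ≤ Δ
  have h𝓕 : 𝓕.Nonempty := ⟨∅, by simp [𝓕]⟩
  obtain ⟨F, hF, hmax⟩ := exists_max_image 𝓕 card h𝓕
  obtain ⟨hFE, hFd⟩ := mem_filter.mp hF
  rw [mem_powerset] at hFE
  refine ⟨F, hFE, ?_, fun v => le_trans (by exact_mod_cast hFd v) hΔ2⟩
  by_contra hlt
  push Not at hlt
  let S : Finset V := U.filter fun v => Δ ≤ (F.filter fun e => v ∈ e).card
  have h1 : Δ * S.card ≤ k * F.card := by
    calc Δ * S.card = ∑ _v ∈ S, Δ := by rw [sum_const, smul_eq_mul, mul_comm]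
      _ ≤ ∑ v ∈ S, (F.filter fun e => v ∈ e).card := sum_le_sum fun v hv => (mem_filter.mp hv).2
      _ = ∑ v ∈ S, ∑ e ∈ F, if v ∈ e then 1 else 0 := by
          refine sum_congr rfl fun v _ => ?_
          rw [card_filter]
      _ = ∑ e ∈ F, ∑ v ∈ S, if v ∈ e then 1 else 0 := sum_comm
      _ ≤ ∑ _e ∈ F, k := by
          refine sum_le_sum fun e he => ?_
          rw [← card_filter, ← EE_card (p := p) hkp (hFE he)]
          exact card_le_card fun v hv => (mem_filter.mp hv).2
      _ = k * F.card := by rw [sum_const, smul_eq_mul, mul_comm]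
  have hUc : (0 : ℝ) < U.card := by exact_mod_cast hU.card_pos
  have h2 : 2 * S.card < U.card := by
    have h3 : (Δ : ℝ) * S.card ≤ k * F.card := by exact_mod_cast h1
    have h4 : 2 * k * D * S.card ≤ Δ * S.card := mul_le_mul_of_nonneg_right hΔ1 (Nat.cast_nonneg _)
    have h5 : (k : ℝ) * F.card < k * (U.card * D) := mul_lt_mul_of_pos_left hlt hk0
    have h6 : (k * D) * (2 * S.card : ℝ) < (k * D) * U.card := by nlinarith
    have h7 : (2 * S.card : ℝ) < U.card := lt_of_mul_lt_mul_left h6 (by positivity)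
    exact_mod_cast h7
  have hSU : S ⊆ U := filter_subset _ _
  have h3 : (U \ S).card = U.card - S.card := card_sdiff_of_subset hSU
  have h4 : U.card ≤ 2 * (U \ S).card := by omega
  have h5 := hs (U \ S) sdiff_subset h4
  have h6 : ((aps k (U \ S)).card : ℝ) ≤ (k : ℝ) ^ 2 * (EE k (U \ S)).card := by
    exact_mod_cast aps_le (p := p) hk hkp (U \ S)
  have h7 : (F.card : ℝ) < (EE k (U \ S)).card := by
    have h8 : (U.card : ℝ) ≤ 2 * (U \ S).card := by exact_mod_cast h4
    have h9 : 4 * (k : ℝ) ^ 2 * D * (U \ S).card ≤ (k : ℝ) ^ 2 * (EE k (U \ S)).card := by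
      rw [← haD]
      exact h5.trans h6
    have h10 : (k : ℝ) ^ 2 * (4 * D * (U \ S).card) ≤ (k : ℝ) ^ 2 * (EE k (U \ S)).card := by
      linarith
    have h11 : 4 * D * (U \ S).card ≤ ((EE k (U \ S)).card : ℝ) :=
      le_of_mul_le_mul_left h10 (by positivity)
    have h12 : D * (U.card : ℝ) ≤ D * (2 * (U \ S).card) :=
      mul_le_mul_of_nonneg_left h8 (by linarith)
    nlinarith
  have h8 : ∃ e ∈ EE k (U \ S), e ∉ F := by
    by_contra h9
    push Not at h9
    have : (EE k (U \ S)).card ≤ F.card := card_le_card h9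
    have : ((EE k (U \ S)).card : ℝ) ≤ F.card := by exact_mod_cast this
    linarith
  obtain ⟨e, he, heF⟩ := h8
  have h9 : insert e F ∈ 𝓕 := by
    refine mem_filter.mpr ⟨?_, ?_⟩
    · rw [mem_powerset]
      exact insert_subset (EE_mono sdiff_subset he) hFE
    · intro v
      rw [filter_insert]
      split_ifs with hve
      · have hv := EE_sub he hve
        rw [mem_sdiff] at hv
        have h10 : ¬ Δ ≤ (F.filter fun e => v ∈ e).card := by
          intro h11
          exact hv.2 (mem_filter.mpr ⟨hv.1, h11⟩)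
        refine (card_insert_le _ _).trans ?_
        omega
      · exact hFd v
  have h10 := hmax _ h9
  rw [card_insert_of_notMem heF] at h10
  omega

end

/-- Piece B. -/
theorem pieceB : PieceB := by
  intro p k _ hk hkp V _ _ _ _ f U a τ hU ha hs hτ hτ1 hkτ
  classical
  obtain ⟨F, hFE, hFc, hFd⟩ := exists_family (p := p) hk hkp U hU ha hs
  have hk0 : (0 : ℝ) < k := by
    have : 0 < k := by omega
    exact_mod_cast this
  set D : ℝ := a / (4 * (k : ℝ) ^ 2) with hD
  have hD1 : 1 ≤ D := by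
    rw [hD, le_div_iff₀ (by positivity)]
    linarith
  have haD : a = 4 * (k : ℝ) ^ 2 * D := by
    rw [hD]
    field_simp
  let W : Finset (Finset ℕ) := F.image fun e => e.map f
  let w : Finset ℕ → ℝ := fun e => if e ∈ W then 1 else 0
  have hWU : ∀ e ∈ W, e ⊆ U.map f ∧ e.card = k := by
    intro e' he'
    obtain ⟨e, he, rfl⟩ := mem_image.mp he'
    exact ⟨map_subset_map.mpr (EE_sub (hFE he)), by rw [card_map, EE_card (p := p) hkp (hFE he)]⟩
  have hWc : W.card = F.card := card_image_of_injective _ (map_injective f)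
  have hdeg : ∀ J, Pool.Agent.Y940.CT.deg (U.map f) w J = ((W.filter fun e => J ⊆ e).card : ℝ) := by
    intro J
    unfold Pool.Agent.Y940.CT.deg
    have h1 : ∀ e ∈ (U.map f).powerset, (if J ⊆ e then w e else 0) =
        if e ∈ W.filter (fun e => J ⊆ e) then (1 : ℝ) else 0 := by
      intro e _
      by_cases h2 : J ⊆ e
      · by_cases h3 : e ∈ W
        · rw [if_pos h2, if_pos (mem_filter.mpr ⟨h3, h2⟩)]
          exact if_pos h3
        · rw [if_pos h2, if_neg fun h => h3 (mem_filter.mp h).1]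
          exact if_neg h3
      · rw [if_neg h2, if_neg fun h => h2 (mem_filter.mp h).2]
    rw [sum_congr rfl h1, ← sum_filter, sum_const, nsmul_eq_mul, mul_one]
    congr 2
    ext e
    simp only [mem_filter, mem_powerset]
    constructor
    · exact fun h => h.2
    · exact fun h => ⟨(hWU e h.1).1, h⟩
  refine ⟨w, ⟨?_, ?_, ?_, ?_⟩, ?_⟩
  · intro e
    simp only [w]
    split_ifs <;> norm_num
  · intro e he
    have h1 : e ∈ W := by
      by_contra h
      exact he (if_neg h)
    exact hWU e h1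
  · have h1 := hdeg ∅
    unfold Pool.Agent.Y940.CT.deg at h1
    simp only [empty_subset, if_true, filter_true] at h1
    rw [h1, card_map, hWc]
    exact hFc
  · intro J hJ
    rw [hdeg J]
    rcases Nat.lt_or_ge k J.card with hJk | hJk
    · have h1 : W.filter (fun e => J ⊆ e) = ∅ := by
        refine filter_eq_empty_iff.mpr fun e he hJe => ?_
        have := card_le_card hJe
        have := (hWU e he).2
        omega
      rw [h1, card_empty, Nat.cast_zero, zero_mul]
      positivity
    rcases Nat.lt_or_ge J.card 2 with hJ2 | hJ2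
    · have hJ1 : J.card = 1 := by
        have := hJ.card_pos
        omega
      obtain ⟨m, rfl⟩ := card_eq_one.mp hJ1
      rw [hJ1, pow_one]
      refine mul_le_mul_of_nonneg_right ?_ hτ.le
      by_cases hm : ∃ v, f v = m
      · obtain ⟨v, rfl⟩ := hm
        have h1 : (W.filter fun e => {f v} ⊆ e).card ≤ (F.filter fun e => v ∈ e).card := by
          have h2 : (W.filter fun e => {f v} ⊆ e) ⊆ (F.filter fun e => v ∈ e).image
              fun e => e.map f := by
            intro e' he'
            obtain ⟨h3, h4⟩ := mem_filter.mp he'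
            obtain ⟨e, he, rfl⟩ := mem_image.mp h3
            rw [singleton_subset_iff] at h4
            exact mem_image.mpr ⟨e, mem_filter.mpr ⟨he, (mem_map' f).mp h4⟩, rfl⟩
          exact (card_le_card h2).trans card_image_le
        calc ((W.filter fun e => {f v} ⊆ e).card : ℝ) ≤ (F.filter fun e => v ∈ e).card := by
              exact_mod_cast h1
          _ ≤ _ := hFd v
      · have h1 : (W.filter fun e => {m} ⊆ e) = ∅ := by
          refine filter_eq_empty_iff.mpr fun e' he' hJe => ?_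
          obtain ⟨e, he, rfl⟩ := mem_image.mp he'
          rw [singleton_subset_iff, mem_map] at hJe
          obtain ⟨v, -, hv⟩ := hJe
          exact hm ⟨v, hv⟩
        rw [h1, card_empty, Nat.cast_zero]
        positivity
    · obtain ⟨m, hm, m', hm', hmm⟩ := one_lt_card.mp hJ2
      have h1 : (W.filter fun e => J ⊆ e).card ≤ k ^ 2 := by
        by_cases h : ∃ u v, f u = m ∧ f v = m'
        · obtain ⟨u, v, rfl, rfl⟩ := h
          have huv : u ≠ v := fun h => hmm (by rw [h])
          have h2 : (W.filter fun e => J ⊆ e) ⊆ ((EE k U).filter fun e => u ∈ e ∧ v ∈ e).image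
              fun e => e.map f := by
            intro e' he'
            obtain ⟨h3, h4⟩ := mem_filter.mp he'
            obtain ⟨e, he, rfl⟩ := mem_image.mp h3
            exact mem_image.mpr ⟨e, mem_filter.mpr ⟨hFE he, (mem_map' f).mp (h4 hm),
              (mem_map' f).mp (h4 hm')⟩, rfl⟩
          exact (card_le_card h2).trans (card_image_le.trans (codeg2 (p := p) hkp U huv))
        · have h2 : (W.filter fun e => J ⊆ e) = ∅ := by
            refine filter_eq_empty_iff.mpr fun e' he' hJe => ?_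
            obtain ⟨e, he, rfl⟩ := mem_image.mp he'
            have h3 := hJe hm
            have h4 := hJe hm'
            rw [mem_map] at h3 h4
            obtain ⟨u, -, hu⟩ := h3
            obtain ⟨v, -, hv⟩ := h4
            exact h ⟨u, v, hu, hv⟩
          rw [h2, card_empty]
          exact Nat.zero_le _
      have h2 : ((W.filter fun e => J ⊆ e).card : ℝ) ≤ (k : ℝ) ^ 2 := by exact_mod_cast h1
      have h3 : τ ^ k ≤ τ ^ J.card := pow_le_pow_of_le_one hτ.le hτ1 hJk
      have h4 : τ ^ k = τ ^ (k - 1) * τ := by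
        rw [← pow_succ]
        congr 1
        omega
      have h5 : (k : ℝ) ^ 2 ≤ D * τ ^ (k - 1) := by
        rw [haD] at hkτ
        have h6 : (4 * (k : ℝ) ^ 2) * (k : ℝ) ^ 2 ≤ (4 * (k : ℝ) ^ 2) * (D * τ ^ (k - 1)) := by
          nlinarith
        exact le_of_mul_le_mul_left h6 (by positivity)
      calc ((W.filter fun e => J ⊆ e).card : ℝ) * τ ≤ (k : ℝ) ^ 2 * τ :=
            mul_le_mul_of_nonneg_right h2 hτ.le
        _ ≤ D * τ ^ (k - 1) * τ := mul_le_mul_of_nonneg_right h5 hτ.le
        _ = D * τ ^ k := by rw [h4]; ring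
        _ ≤ D * τ ^ J.card := mul_le_mul_of_nonneg_left h3 (by linarith)
        _ ≤ (2 * k + 1) * (D * τ ^ J.card) := by
            have h7 : 0 ≤ D * τ ^ J.card := by positivity
            nlinarith
        _ = _ := by ring
  · intro I hI e heI
    by_contra h
    have h1 : e ∈ W := by
      by_contra h2
      exact h (if_neg h2)
    obtain ⟨e', he', rfl⟩ := mem_image.mp h1
    obtain ⟨q, hq1, hq2, rfl⟩ := mem_EE.mp (hFE he')
    refine hI q.1 q.2 hq1 fun j hj => ?_
    refine mem_filter.mpr ⟨mem_univ _, heI ?_⟩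
    exact (mem_map' f).mpr (mem_pts.mpr ⟨j, hj, rfl⟩)

end Pool.Agent.K6.H67.SR
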