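import Pool.Agent.K6.H67.SR.Defs

/-!
# Containers and random subsets (piece D)
-/

set_option autoImplicit false

open Finset

namespace Pool.Agent.K6.H67.SR

theorem pieceD_sum {V : Type} [Fintype V] [DecidableEq V] (ρ e : ℝ) (T C : Finset V)
    (hd : Disjoint T C) :
    ∑ R : Finset V, (if T ⊆ R then ρ ^ R.card * (1 - ρ) ^ (Fintype.card V - R.card) *
      e ^ (R ∩ C).card else 0) = ρ ^ T.card * (1 + ρ * (e - 1)) ^ C.card := by
  have h := Finset.prod_add (fun v : V => ρ * (if v ∈ C then e else 1))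
    (fun v => if v ∈ T then 0 else 1 - ρ) (univ : Finset V)
  rw [powerset_univ] at h
  have hl : ∏ v : V, (ρ * (if v ∈ C then e else 1) + (if v ∈ T then 0 else 1 - ρ)) =
      ρ ^ T.card * (1 + ρ * (e - 1)) ^ C.card := by
    have h1 : ∀ v : V, (ρ * (if v ∈ C then e else 1) + (if v ∈ T then 0 else 1 - ρ)) =
        (if v ∈ T then ρ else 1) * (if v ∈ C then 1 + ρ * (e - 1) else 1) := by
      intro v
      by_cases hT : v ∈ T
      · have hC : v ∉ C := Finset.disjoint_left.1 hd hT
        simp [hT, hC]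
      · by_cases hC : v ∈ C
        · simp [hT, hC]; ring
        · simp [hT, hC]
    rw [prod_congr rfl (fun v _ => h1 v), prod_mul_distrib,
      Finset.prod_ite_mem univ T (fun _ => ρ), Finset.prod_ite_mem univ C (fun _ => 1 + ρ * (e - 1))]
    simp
  rw [hl] at h
  rw [h]
  refine sum_congr rfl fun R _ => ?_
  by_cases hTR : T ⊆ R
  · rw [if_pos hTR]
    have h2 : ∏ i ∈ R, (ρ * (if i ∈ C then e else 1)) = ρ ^ R.card * e ^ (R ∩ C).card := by
      rw [prod_mul_distrib, prod_const, Finset.prod_ite_mem R C (fun _ => e), prod_const]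
    have h3 : ∏ i ∈ univ \ R, (if i ∈ T then (0 : ℝ) else 1 - ρ) =
        (1 - ρ) ^ (Fintype.card V - R.card) := by
      rw [prod_congr rfl (g := fun _ => 1 - ρ), prod_const, card_univ_sdiff]
      intro i hi
      have : i ∉ T := fun h => (mem_sdiff.1 hi).2 (hTR h)
      simp [this]
    rw [h2, h3]
    ring
  · rw [if_neg hTR]
    obtain ⟨i, hi, hiR⟩ := Finset.not_subset.1 hTR
    have h3 : ∏ i ∈ univ \ R, (if i ∈ T then (0 : ℝ) else 1 - ρ) = 0 :=
      prod_eq_zero (i := i) (by simp [hiR]) (by simp [hi])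
    rw [h3, mul_zero]

/-- **Piece D.** -/
theorem pieceD : PieceD := by
  intro V _ f P ρ Z γ M hρ0 hρ1 hcov
  classical
  obtain ⟨ι, s, T, C, h1, h2, h3⟩ := hcov
  set N := Fintype.card V with hN
  set e := Real.exp 1 with he
  have hwt : ∀ R : Finset V, 0 ≤ ρ ^ R.card * (1 - ρ) ^ (N - R.card) := fun R =>
    mul_nonneg (pow_nonneg hρ0 _) (pow_nonneg (by linarith) _)
  have hb : ∀ I : Finset ℕ, I ⊆ univ.map f → (back f I).map f = I := by
    intro I hI
    ext x
    simp only [back, mem_map, mem_filter, mem_univ, true_and]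
    constructor
    · rintro ⟨v, hv, rfl⟩
      exact hv
    · intro hx
      obtain ⟨v, -, rfl⟩ := mem_map.1 (hI hx)
      exact ⟨v, hx, rfl⟩
  have hbc : ∀ I : Finset ℕ, I ⊆ univ.map f → (back f I).card = I.card := by
    intro I hI
    conv_rhs => rw [← hb I hI]
    rw [card_map]
  have hTu : ∀ i ∈ s, T i ⊆ univ.map f := fun i hi => by
    have := (h2 i hi).2.1
    simpa using this
  -- pointwise bound
  have hpt : ∀ R : Finset V,
      (if (∃ A ⊆ R, P (A.map f) ∧ M ≤ (A.card : ℝ)) then
        ρ ^ R.card * (1 - ρ) ^ (N - R.card) else 0) ≤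
      ∑ i ∈ s, Real.exp ((T i).card - M) * (if back f (T i) ⊆ R then
        ρ ^ R.card * (1 - ρ) ^ (N - R.card) * e ^ (R ∩ back f (C i)).card else 0) := by
    intro R
    have hnn : ∀ i ∈ s, 0 ≤ Real.exp ((T i).card - M) * (if back f (T i) ⊆ R then
        ρ ^ R.card * (1 - ρ) ^ (N - R.card) * e ^ (R ∩ back f (C i)).card else 0) := by
      intro i _
      refine mul_nonneg (Real.exp_pos _).le ?_
      split_ifs
      · exact mul_nonneg (hwt R) (pow_nonneg (Real.exp_pos _).le _)
      · exact le_rfl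
    split_ifs with hQ
    · obtain ⟨A, hAR, hPA, hMA⟩ := hQ
      obtain ⟨i, hi, hi1, hi2⟩ := h3 (A.map f) (empty_subset _) hPA
      refine le_trans ?_ (single_le_sum hnn hi)
      have hTA : back f (T i) ⊆ A := by
        intro v hv
        have hv' : f v ∈ T i := by simpa [back] using hv
        exact (mem_map' f).1 (hi1 hv')
      have hAT : A ⊆ back f (T i) ∪ (R ∩ back f (C i)) := by
        intro v hv
        have hv' : f v ∈ T i ∪ C i := hi2 ((mem_map' f).2 hv)
        rcases mem_union.1 hv' with h | h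
        · exact mem_union_left _ (by simpa [back] using h)
        · exact mem_union_right _ (mem_inter.2 ⟨hAR hv, by simpa [back] using h⟩)
      have hcard : (A.card : ℝ) ≤ (T i).card + (R ∩ back f (C i)).card := by
        have h4 := (card_le_card hAT).trans (card_union_le _ _)
        rw [hbc _ (hTu i hi)] at h4
        exact_mod_cast h4
      rw [if_pos (hTA.trans hAR)]
      have h5 : 1 ≤ Real.exp ((T i).card - M) * e ^ (R ∩ back f (C i)).card := by
        rw [he, Real.exp_one_pow, ← Real.exp_add]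
        exact Real.one_le_exp (by linarith)
      calc ρ ^ R.card * (1 - ρ) ^ (N - R.card) = 1 * (ρ ^ R.card * (1 - ρ) ^ (N - R.card)) := by
            ring
        _ ≤ (Real.exp ((T i).card - M) * e ^ (R ∩ back f (C i)).card) *
            (ρ ^ R.card * (1 - ρ) ^ (N - R.card)) := mul_le_mul_of_nonneg_right h5 (hwt R)
        _ = _ := by ring
    · exact sum_nonneg hnn
  have hprob : prob ρ (fun R : Finset V => ∃ A ⊆ R, P (A.map f) ∧ M ≤ (A.card : ℝ)) =
      ∑ R : Finset V, (if (∃ A ⊆ R, P (A.map f) ∧ M ≤ (A.card : ℝ)) then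
        ρ ^ R.card * (1 - ρ) ^ (N - R.card) else 0) := by
    unfold prob
    exact sum_congr rfl fun R _ => by congr
  rw [hprob]
  refine (sum_le_sum fun R _ => hpt R).trans ?_
  rw [sum_comm]
  have hi : ∀ i ∈ s, ∑ R : Finset V, Real.exp ((T i).card - M) * (if back f (T i) ⊆ R then
        ρ ^ R.card * (1 - ρ) ^ (N - R.card) * e ^ (R ∩ back f (C i)).card else 0) ≤
      Real.exp (2 * ρ * γ - M) * (ρ * e) ^ (T i \ ∅).card := by
    intro i hi
    have hdis : Disjoint (back f (T i)) (back f (C i)) := by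
      rw [Finset.disjoint_left]
      intro v hv hv'
      exact Finset.disjoint_left.1 (h2 i hi).2.2.2.1 (by simpa [back] using hv)
        (by simpa [back] using hv')
    rw [← mul_sum, pieceD_sum ρ e _ _ hdis, hbc _ (hTu i hi), hbc _ (h2 i hi).2.2.1, sdiff_empty]
    have he1 : e - 1 ≤ 2 := by
      have := Real.exp_one_lt_d9
      rw [he]
      linarith
    have he0 : 0 ≤ e - 1 := by
      have := Real.add_one_le_exp (1 : ℝ)
      rw [he]
      linarith
    have h6 : (1 + ρ * (e - 1)) ^ (C i).card ≤ Real.exp (2 * ρ * γ) := by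
      calc (1 + ρ * (e - 1)) ^ (C i).card ≤ (Real.exp (ρ * (e - 1))) ^ (C i).card :=
            pow_le_pow_left₀ (by positivity) (by linarith [Real.add_one_le_exp (ρ * (e - 1))]) _
        _ = Real.exp ((C i).card * (ρ * (e - 1))) := (Real.exp_nat_mul _ _).symm
        _ ≤ Real.exp (2 * ρ * γ) := by
            apply Real.exp_le_exp.2
            have h7 : ((C i).card : ℝ) * (ρ * (e - 1)) ≤ (C i).card * (ρ * 2) :=
              mul_le_mul_of_nonneg_left (mul_le_mul_of_nonneg_left he1 hρ0) (Nat.cast_nonneg _)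
            have h8 : ((C i).card : ℝ) * (ρ * 2) ≤ γ * (ρ * 2) :=
              mul_le_mul_of_nonneg_right (h2 i hi).2.2.2.2 (by positivity)
            linarith
    calc Real.exp ((T i).card - M) * (ρ ^ (T i).card * (1 + ρ * (e - 1)) ^ (C i).card)
        ≤ Real.exp ((T i).card - M) * (ρ ^ (T i).card * Real.exp (2 * ρ * γ)) :=
          mul_le_mul_of_nonneg_left (mul_le_mul_of_nonneg_left h6 (pow_nonneg hρ0 _))
            (Real.exp_pos _).le
      _ = Real.exp (2 * ρ * γ - M) * (ρ * e) ^ (T i).card := by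
          rw [mul_pow, he, Real.exp_one_pow, sub_eq_add_neg, sub_eq_add_neg, Real.exp_add,
            Real.exp_add]
          ring
  refine (sum_le_sum hi).trans ?_
  rw [← mul_sum]
  calc Real.exp (2 * ρ * γ - M) * ∑ i ∈ s, (ρ * e) ^ (T i \ ∅).card
      ≤ Real.exp (2 * ρ * γ - M) * Z := mul_le_mul_of_nonneg_left h1 (Real.exp_pos _).le
    _ = Z * Real.exp (2 * ρ * γ - M) := mul_comm _ _

end Pool.Agent.K6.H67.SR
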