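import Pool.Agent.K6.H67.SR.Defs

/-! Piece E: random subsets. -/

set_option autoImplicit false

open Finset

namespace Pool.Agent.K6.H67.SR

namespace PE

open Classical in
/-- The weight of a set. -/
noncomputable def wt {V : Type*} [Fintype V] (ρ : ℝ) (R : Finset V) : ℝ :=
  ρ ^ R.card * (1 - ρ) ^ (Fintype.card V - R.card)

variable {V : Type*} [Fintype V] {ρ : ℝ}

lemma wt_nonneg (h0 : 0 ≤ ρ) (h1 : ρ ≤ 1) (R : Finset V) : 0 ≤ wt ρ R :=
  mul_nonneg (pow_nonneg h0 _) (pow_nonneg (by linarith) _)

open Classical in
lemma prob_eq (ρ : ℝ) (Q : Finset V → Prop) : prob ρ Q = ∑ R : Finset V, if Q R then wt ρ R else 0 :=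
  rfl

/-- Domination of the probability by a weighted sum. -/
lemma prob_le (h0 : 0 ≤ ρ) (h1 : ρ ≤ 1) (Q : Finset V → Prop) (F : Finset V → ℝ)
    (hF : ∀ R, 0 ≤ F R) (hQ : ∀ R, Q R → 1 ≤ F R) : prob ρ Q ≤ ∑ R : Finset V, wt ρ R * F R := by
  classical
  rw [prob_eq]
  apply sum_le_sum
  intro R _
  have hw := wt_nonneg h0 h1 R
  split_ifs with h
  · exact le_mul_of_one_le_right hw (hQ R h)
  · exact mul_nonneg hw (hF R)

/-- The generating function. -/
lemma gen [DecidableEq V] (ρ c : ℝ) (T C : Finset V) (hTC : Disjoint T C) :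
    ∑ R : Finset V, wt ρ R * (if T ⊆ R then c ^ (R ∩ C).card else 0) =
      ρ ^ T.card * (1 + ρ * (c - 1)) ^ C.card := by
  have h1 : ∏ v : V, (ρ * (if v ∈ C then c else 1) + (if v ∈ T then 0 else 1 - ρ)) =
      ρ ^ T.card * (1 + ρ * (c - 1)) ^ C.card := by
    have e : ∀ v : V, ρ * (if v ∈ C then c else 1) + (if v ∈ T then 0 else 1 - ρ) =
        (if v ∈ T then ρ else 1) * (if v ∈ C then 1 + ρ * (c - 1) else 1) := by
      intro v
      by_cases hT : v ∈ T
      · have hC : v ∉ C := Finset.disjoint_left.mp hTC hT
        simp [hT, hC]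
      · by_cases hC : v ∈ C
        · simp only [hT, hC, if_true, if_false]; ring
        · simp [hT, hC]
    rw [Finset.prod_congr rfl fun v _ => e v, Finset.prod_mul_distrib]
    simp [Finset.prod_ite_mem]
  rw [← h1, Finset.prod_add]
  rw [Finset.powerset_univ]
  apply sum_congr rfl
  intro R _
  rw [Finset.prod_mul_distrib, Finset.prod_const]
  have e2 : ∏ v ∈ R, (if v ∈ C then c else 1) = c ^ (R ∩ C).card := by
    rw [Finset.prod_ite_mem, Finset.prod_const]
  rw [e2]
  by_cases hTR : T ⊆ R
  · have e3 : ∏ v ∈ univ \ R, (if v ∈ T then (0 : ℝ) else 1 - ρ) =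
        (1 - ρ) ^ (Fintype.card V - R.card) := by
      rw [Finset.prod_congr rfl (g := fun _ => 1 - ρ)]
      · rw [Finset.prod_const, Finset.card_univ_sdiff]
      · intro v hv
        have : v ∉ T := fun h => (Finset.mem_sdiff.mp hv).2 (hTR h)
        simp [this]
    rw [e3, if_pos hTR]
    unfold wt
    ring
  · rw [if_neg hTR]
    obtain ⟨v, hv, hv'⟩ := Finset.not_subset.mp hTR
    rw [Finset.prod_eq_zero (i := v) (Finset.mem_sdiff.mpr ⟨mem_univ _, hv'⟩) (by simp [hv])]
    ring

lemma gen_card (ρ c : ℝ) :
    ∑ R : Finset V, wt ρ R * c ^ R.card = (1 + ρ * (c - 1)) ^ Fintype.card V := by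
  classical
  have := gen ρ c (∅ : Finset V) univ (by simp)
  simpa using this

lemma gen_sub [DecidableEq V] (ρ : ℝ) (T : Finset V) :
    ∑ R : Finset V, wt ρ R * (if T ⊆ R then 1 else 0) = ρ ^ T.card := by
  have := gen ρ 1 T ∅ (by simp)
  simpa using this

end PE

open PE in
theorem pieceE : PieceE := by
  intro p k _ hk hkp V _ _ _ _ ρ h0 h1
  have hN : (0 : ℝ) ≤ Fintype.card V := Nat.cast_nonneg _
  refine ⟨?_, ?_, ?_, ?_, ?_, ?_⟩
  · have := gen_card (V := V) ρ 1
    rw [prob_eq]
    simpa using this
  · intro Q Q' hQ
    classical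
    rw [prob_eq, prob_eq]
    apply sum_le_sum
    intro R _
    have hw := wt_nonneg h0 h1 R
    by_cases h : Q R
    · rw [if_pos h, if_pos (hQ R h)]
    · rw [if_neg h]
      split_ifs
      · exact hw
      · exact le_rfl
  · intro Q Q'
    classical
    rw [prob_eq, prob_eq, prob_eq, ← sum_add_distrib]
    apply sum_le_sum
    intro R _
    have hw := wt_nonneg h0 h1 R
    by_cases h : Q R <;> by_cases h' : Q' R <;> simp [h, h', hw]
  · set x := ρ * Fintype.card V / 4 with hx
    refine (prob_le h0 h1 _ (fun R => Real.exp x * (1 / 2) ^ R.card) (fun R => by positivity)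
      ?_).trans ?_
    · intro R hR
      have e1 : (2 : ℝ) ^ R.card ≤ Real.exp x := by
        calc (2 : ℝ) ^ R.card ≤ (Real.exp 1) ^ R.card := by
              gcongr
              have := Real.add_one_le_exp (1 : ℝ)
              linarith
          _ = Real.exp R.card := by rw [← Real.exp_nat_mul, mul_one]
          _ ≤ Real.exp x := Real.exp_le_exp.mpr hR
      calc (1 : ℝ) = 2 ^ R.card * (1 / 2) ^ R.card := by rw [← mul_pow]; norm_num
        _ ≤ _ := by gcongr
    · have e1 : ∑ R : Finset V, wt ρ R * (Real.exp x * (1 / 2) ^ R.card) =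
          Real.exp x * (1 + ρ * (1 / 2 - 1)) ^ Fintype.card V := by
        rw [← gen_card, mul_sum]
        apply sum_congr rfl
        intro R _
        ring
      rw [e1]
      have e2 : (1 + ρ * (1 / 2 - 1)) ^ Fintype.card V ≤ Real.exp (-(2 * x)) := by
        calc (1 + ρ * (1 / 2 - 1)) ^ Fintype.card V ≤ (Real.exp (-(ρ / 2))) ^ Fintype.card V := by
              have := Real.add_one_le_exp (-(ρ / 2))
              gcongr
              · linarith
              · linarith
          _ = Real.exp (-(2 * x)) := by
              rw [← Real.exp_nat_mul]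
              congr 1
              rw [hx]; ring
      calc Real.exp x * (1 + ρ * (1 / 2 - 1)) ^ Fintype.card V
          ≤ Real.exp x * Real.exp (-(2 * x)) := by gcongr
        _ = Real.exp (-x) := by rw [← Real.exp_add]; congr 1; ring
  · intro M
    refine (prob_le h0 h1 _ (fun R => Real.exp (-M) * (Real.exp 1) ^ R.card)
      (fun R => by positivity) ?_).trans ?_
    · intro R hR
      rw [← Real.exp_nat_mul, mul_one, ← Real.exp_add]
      apply Real.one_le_exp
      linarith
    · have e1 : ∑ R : Finset V, wt ρ R * (Real.exp (-M) * (Real.exp 1) ^ R.card) =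
          Real.exp (-M) * (1 + ρ * (Real.exp 1 - 1)) ^ Fintype.card V := by
        rw [← gen_card, mul_sum]
        apply sum_congr rfl
        intro R _
        ring
      rw [e1]
      have he : Real.exp 1 ≤ 3 := by
        have := Real.exp_one_lt_d9
        linarith
      have he1 : 1 ≤ Real.exp 1 := Real.one_le_exp (by norm_num)
      have e2 : (1 + ρ * (Real.exp 1 - 1)) ^ Fintype.card V ≤
          Real.exp (2 * ρ * Fintype.card V) := by
        calc (1 + ρ * (Real.exp 1 - 1)) ^ Fintype.card V ≤
            (Real.exp (2 * ρ)) ^ Fintype.card V := by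
              have := Real.add_one_le_exp (2 * ρ)
              have h3 : 0 ≤ ρ * (Real.exp 1 - 1) := mul_nonneg h0 (by linarith)
              gcongr
              · nlinarith
          _ = Real.exp (2 * ρ * Fintype.card V) := by
              rw [← Real.exp_nat_mul]
              congr 1
              ring
      calc Real.exp (-M) * (1 + ρ * (Real.exp 1 - 1)) ^ Fintype.card V
          ≤ Real.exp (-M) * Real.exp (2 * ρ * Fintype.card V) := by gcongr
        _ = _ := by rw [← Real.exp_add]; congr 1; ring
  · intro X hX
    refine (prob_le h0 h1 _ (fun R => (aps k R).card / X) (fun R => by positivity) ?_).trans ?_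
    · intro R hR
      rw [le_div_iff₀ hX, one_mul]
      exact hR
    · have hpts : ∀ q : V × V, q.2 ≠ 0 →
          ((range k).image fun j => q.1 + j • q.2).card = k := by
        intro q hq
        rw [card_image_of_injOn, card_range]
        intro i hi j hj hij
        have hi' : i < k := by simpa using hi
        have hj' : j < k := by simpa using hj
        have h2 : i • q.2 = j • q.2 := add_left_cancel hij
        have h3 : ((i : ZMod p) - (j : ZMod p)) • q.2 = 0 := by
          rw [sub_smul, Nat.cast_smul_eq_nsmul, Nat.cast_smul_eq_nsmul, h2, sub_self]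
        rcases smul_eq_zero.mp h3 with h | h
        · have h4 : (i : ZMod p) = (j : ZMod p) := sub_eq_zero.mp h
          rw [ZMod.natCast_eq_natCast_iff'] at h4
          rwa [Nat.mod_eq_of_lt (by omega), Nat.mod_eq_of_lt (by omega)] at h4
        · exact absurd h hq
      have e1 : ∀ R : Finset V, ((aps k R).card : ℝ) =
          ∑ q : V × V, if q.2 ≠ 0 then
            (if ((range k).image fun j => q.1 + j • q.2) ⊆ R then (1 : ℝ) else 0) else 0 := by
        intro R
        unfold aps
        rw [card_filter]
        push_cast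
        apply sum_congr rfl
        intro q _
        by_cases h : q.2 ≠ 0
        · rw [if_pos h]
          have : (q.2 ≠ 0 ∧ ∀ j < k, q.1 + j • q.2 ∈ R) ↔
              ((range k).image fun j => q.1 + j • q.2) ⊆ R := by
            rw [image_subset_iff]
            simp [h]
          simp only [this]
        · simp [h]
      have e2 : ∑ R : Finset V, wt ρ R * (((aps k R).card : ℝ) / X) =
          (∑ q : V × V, if q.2 ≠ 0 then ρ ^ k else 0) / X := by
        rw [sum_div]
        have : ∀ q : V × V, (if q.2 ≠ 0 then ρ ^ k else 0) / X =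
            ∑ R : Finset V, wt ρ R * ((if q.2 ≠ 0 then
              (if ((range k).image fun j => q.1 + j • q.2) ⊆ R then (1 : ℝ) else 0) else 0) / X) := by
          intro q
          by_cases h : q.2 ≠ 0
          · simp only [if_pos h]
            have h5 := gen_sub ρ ((range k).image fun j => q.1 + j • q.2)
            rw [hpts q h] at h5
            rw [← h5, sum_div]
            apply sum_congr rfl
            intro R _
            ring
          · simp [h]
        rw [sum_congr rfl fun q _ => this q, sum_comm]
        apply sum_congr rfl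
        intro R _
        rw [e1 R, sum_div, mul_sum]
      rw [e2]
      apply div_le_div_of_nonneg_right _ hX.le
      calc ∑ q : V × V, (if q.2 ≠ 0 then ρ ^ k else 0) ≤ ∑ q : V × V, ρ ^ k := by
            apply sum_le_sum
            intro q _
            split_ifs
            · exact le_rfl
            · exact pow_nonneg h0 _
        _ = ρ ^ k * (Fintype.card V : ℝ) ^ 2 := by
            rw [sum_const, card_univ, Fintype.card_prod, nsmul_eq_mul]
            push_cast
            ring


end Pool.Agent.K6.H67.SR
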