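import Pool.Agent.K6.H67.SR.Upper
import Pool.Agent.K6.H67.SR.PieceB
import Pool.Agent.K6.H67.SR.PieceD
import Pool.Agent.K6.H67.SR.PieceE

/-!
# Progression-free subsets of sparse random subsets of `F_p^n`
-/

set_option autoImplicit false

open Finset Filter Topology

namespace Pool.Agent.K6.H67.SR

/-- The largest size of a subset of `R` without nontrivial `k`-term progression. -/
noncomputable def alpha {V : Type*} [AddCommGroup V] (k : ℕ) (R : Finset V) : ℕ :=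
  sSup {t | ∃ A : Finset V, A ⊆ R ∧ APFree k A ∧ A.card = t}

lemma card_le_alpha {V : Type*} [AddCommGroup V] {k : ℕ} {R A : Finset V} (hAR : A ⊆ R)
    (hA : APFree k A) : A.card ≤ alpha k R := by
  refine le_csSup ⟨R.card, ?_⟩ ⟨A, hAR, hA, rfl⟩
  rintro t ⟨B, hBR, _, rfl⟩
  exact card_le_card hBR

lemma exists_alpha {V : Type*} [AddCommGroup V] {k : ℕ} (hk : 1 ≤ k) (R : Finset V) :
    ∃ A : Finset V, A ⊆ R ∧ APFree k A ∧ A.card = alpha k R := by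
  have hne : {t | ∃ A : Finset V, A ⊆ R ∧ APFree k A ∧ A.card = t}.Nonempty := by
    refine ⟨0, ∅, empty_subset _, ?_, card_empty⟩
    intro x y _ h
    exact absurd (h 0 (by omega)) (notMem_empty _)
  have hb : BddAbove {t | ∃ A : Finset V, A ⊆ R ∧ APFree k A ∧ A.card = t} := by
    refine ⟨R.card, ?_⟩
    rintro t ⟨B, hBR, _, rfl⟩
    exact card_le_card hBR
  obtain ⟨A, h1, h2, h3⟩ := Nat.sSup_mem hne hb
  exact ⟨A, h1, h2, h3⟩

variable {p : ℕ} [hp : Fact p.Prime]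

theorem lower_prob (hE : PieceE) {k : ℕ} (hk : 3 ≤ k) (hkp : k ≤ p)
    {κ : ℝ} (hκ0 : 0 ≤ κ) (hκk : κ ≤ 1 / k)
    (hlow : ∀ ε : ℝ, 0 < ε → ∃ c : ℝ, 0 < c ∧ c ≤ 1 ∧
        ∀ j : ℕ, c * (p : ℝ) ^ ((1 - κ - ε) * j) ≤ r k p j) {ε : ℝ} (hε : 0 < ε)
    (hε1 : ε ≤ 1 / 2) :
    ∀ᶠ n : ℕ in atTop, ∀ s : ℝ, 0 ≤ s → s ≤ 1 - ε →
      prob ((p : ℝ) ^ (-(s * n))) (fun R : Finset (Fin n → ZMod p) =>
        ¬ ∃ A : Finset (Fin n → ZMod p), A ⊆ R ∧ APFree k A ∧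
          (p : ℝ) ^ ((g k κ s - ε) * n) ≤ A.card) ≤
        Real.exp (-((p : ℝ) ^ (ε * n) / 4)) + (p : ℝ) ^ (-(ε / 4 * n)) := by
  have hp1 : (1 : ℝ) < p := p1
  have hp0 : (0 : ℝ) < p := p0
  obtain ⟨c, hc, hc1, hlow'⟩ := hlow (ε / 4) (by linarith)
  filter_upwards [eventually_const_le (p := p) (half_pos hε) (8 * (p : ℝ) ^ (4 : ℝ) / c)]
    with n hn s hs0 hs1
  have hn0 : (0 : ℝ) ≤ n := Nat.cast_nonneg n
  set ρ : ℝ := (p : ℝ) ^ (-(s * n)) with hρ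
  have hρ0 : 0 < ρ := by positivity
  have hρ1 : ρ ≤ 1 := by
    apply Real.rpow_le_one_of_one_le_of_nonpos hp1.le
    have : 0 ≤ s * n := by positivity
    linarith
  obtain ⟨_, hmono, hunion, hsmall, _, haps⟩ := hE p k hk hkp (Fin n → ZMod p) ρ hρ0.le hρ1
  have hN : (Fintype.card (Fin n → ZMod p) : ℝ) = (p : ℝ) ^ n := by
    rw [Fintype.card_fun, Fintype.card_fin, ZMod.card]
    push_cast
    rfl
  rw [hN] at hsmall haps
  set X : ℝ := (p : ℝ) ^ (ε / 4 * n) * (ρ ^ k * ((p : ℝ) ^ n) ^ 2) with hX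
  have hX0 : 0 < X := by positivity
  have h1 : prob ρ (fun R : Finset (Fin n → ZMod p) =>
        ¬ ∃ A : Finset (Fin n → ZMod p), A ⊆ R ∧ APFree k A ∧
          (p : ℝ) ^ ((g k κ s - ε) * n) ≤ A.card) ≤
      prob ρ (fun R : Finset (Fin n → ZMod p) => (R.card : ℝ) ≤ ρ * (p : ℝ) ^ n / 4 ∨
        X ≤ ((aps k R).card : ℝ)) := by
    apply hmono
    intro R hR
    by_contra hcon
    push Not at hcon
    exact hR (lower_det hk hκ0 hκk hε hε1 hc hlow' hn hs0 R hcon.1.le hcon.2.le)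
  refine h1.trans ((hunion _ _).trans (add_le_add ?_ ?_))
  · refine hsmall.trans (Real.exp_le_exp.2 ?_)
    have h2 : (p : ℝ) ^ (ε * n) ≤ ρ * (p : ℝ) ^ n := by
      rw [hρ, ← Real.rpow_natCast (p : ℝ) n, ← Real.rpow_add hp0, Real.rpow_le_rpow_left_iff hp1]
      nlinarith
    linarith
  · refine (haps X hX0).trans ?_
    have h2 : (0 : ℝ) < ρ ^ k * ((p : ℝ) ^ n) ^ 2 := by positivity
    have h3 : ρ ^ k * ((p : ℝ) ^ n) ^ 2 / X = ((p : ℝ) ^ (ε / 4 * n))⁻¹ := by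
      rw [hX]
      field_simp
    rw [h3, ← Real.rpow_neg hp0.le]

theorem main_of {k : ℕ} (hk : 3 ≤ k) (hkp : k ≤ p) {κ : ℝ} (hκ0 : 0 ≤ κ) (hκk : κ ≤ 1 / k)
    (hup : ∀ n : ℕ, (r k p n : ℝ) ≤ (p : ℝ) ^ ((1 - κ) * n))
    (hlow : ∀ ε : ℝ, 0 < ε → ∃ c : ℝ, 0 < c ∧ c ≤ 1 ∧
        ∀ j : ℕ, c * (p : ℝ) ^ ((1 - κ - ε) * j) ≤ r k p j) :
    ∀ ε : ℝ, 0 < ε → ε ≤ 1 / 2 → ∃ n₀ : ℕ, ∀ n ≥ n₀, ∀ s : ℝ, 0 ≤ s → s ≤ 1 - ε →
        1 - (p : ℝ) ^ (-(ε / 8 * n)) ≤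
          prob ((p : ℝ) ^ (-(s * n))) (fun R : Finset (Fin n → ZMod p) =>
            (p : ℝ) ^ ((g k κ s - ε) * n) ≤ alpha k R ∧
              (alpha k R : ℝ) ≤ (p : ℝ) ^ ((g k κ s + ε) * n)) := by
  have hp1 : (1 : ℝ) < p := p1
  have hp0 : (0 : ℝ) < p := p0
  intro ε hε hε1
  have hU := upper_prob pieceB pieceD pieceE hk hkp hκ0 hκk hup hlow hε
  have hL := lower_prob pieceE hk hkp hκ0 hκk hlow hε hε1
  have h7 := eventually_const_le (p := p) (show 0 < ε / 8 by linarith) 7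
  obtain ⟨n₀, hn₀⟩ := eventually_atTop.1 ((hU.and hL).and h7)
  refine ⟨n₀, fun n hn s hs0 hs1 => ?_⟩
  obtain ⟨⟨hUn, hLn⟩, h7n⟩ := hn₀ n hn
  have hU' := hUn s hs0 (by linarith)
  have hL' := hLn s hs0 hs1
  have hn0 : (0 : ℝ) ≤ n := Nat.cast_nonneg n
  set ρ : ℝ := (p : ℝ) ^ (-(s * n)) with hρ
  have hρ0 : 0 < ρ := by positivity
  have hρ1 : ρ ≤ 1 := by
    apply Real.rpow_le_one_of_one_le_of_nonpos hp1.le
    have : 0 ≤ s * n := by positivity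
    linarith
  obtain ⟨htrue, hmono, hunion, _⟩ := pieceE p k hk hkp (Fin n → ZMod p) ρ hρ0.le hρ1
  have h1 : (1 : ℝ) ≤ prob ρ (fun R : Finset (Fin n → ZMod p) =>
      ((p : ℝ) ^ ((g k κ s - ε) * n) ≤ alpha k R ∧
              (alpha k R : ℝ) ≤ (p : ℝ) ^ ((g k κ s + ε) * n)) ∨
      ((¬ ∃ A : Finset (Fin n → ZMod p), A ⊆ R ∧ APFree k A ∧
          (p : ℝ) ^ ((g k κ s - ε) * n) ≤ A.card) ∨
        ∃ A : Finset (Fin n → ZMod p), A ⊆ R ∧ APFree k A ∧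
          (p : ℝ) ^ ((g k κ s + ε) * n) ≤ A.card)) := by
    rw [← htrue]
    apply hmono
    intro R _
    by_cases hup' : ∃ A : Finset (Fin n → ZMod p), A ⊆ R ∧ APFree k A ∧
          (p : ℝ) ^ ((g k κ s + ε) * n) ≤ A.card
    · exact Or.inr (Or.inr hup')
    by_cases hlo' : ∃ A : Finset (Fin n → ZMod p), A ⊆ R ∧ APFree k A ∧
          (p : ℝ) ^ ((g k κ s - ε) * n) ≤ A.card
    · left
      constructor
      · obtain ⟨A, hAR, hA, hAc⟩ := hlo'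
        exact hAc.trans (by exact_mod_cast card_le_alpha hAR hA)
      · obtain ⟨A, hAR, hA, hAc⟩ := exists_alpha (k := k) (by omega) R
        by_contra hcon
        push Not at hcon
        exact hup' ⟨A, hAR, hA, by rw [hAc]; exact hcon.le⟩
    · exact Or.inr (Or.inl hlo')
  have h2 := h1.trans ((hunion _ _).trans (add_le_add le_rfl (hunion _ _)))
  -- the errors
  set x : ℝ := (p : ℝ) ^ (ε * n) with hx
  have hx1 : 1 ≤ x := by
    apply Real.one_le_rpow hp1.le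
    positivity
  have hx0 : 0 < x := by linarith
  have hexp : ∀ y : ℝ, 0 < y → Real.exp (-y) ≤ 1 / y := by
    intro y hy
    rw [Real.exp_neg, ← one_div]
    apply one_div_le_one_div_of_le hy
    have := Real.add_one_le_exp y
    linarith
  have e1 : Real.exp (-(x / 4)) ≤ 4 / x := by
    have := hexp (x / 4) (by positivity)
    have e : 1 / (x / 4) = 4 / x := by field_simp
    rwa [e] at this
  have e2 : Real.exp (-(x / 2)) ≤ 2 / x := by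
    have := hexp (x / 2) (by positivity)
    have e : 1 / (x / 2) = 2 / x := by field_simp
    rwa [e] at this
  have e3 : 1 / x ≤ (p : ℝ) ^ (-(ε / 4 * n)) := by
    rw [one_div, hx, ← Real.rpow_neg hp0.le, Real.rpow_le_rpow_left_iff hp1]
    have : 0 ≤ ε * n := by positivity
    linarith
  have e4 : 7 * (p : ℝ) ^ (-(ε / 4 * n)) ≤ (p : ℝ) ^ (-(ε / 8 * n)) := by
    calc 7 * (p : ℝ) ^ (-(ε / 4 * n)) ≤ (p : ℝ) ^ (ε / 8 * n) * (p : ℝ) ^ (-(ε / 4 * n)) := by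
          gcongr
      _ = _ := by
          rw [← Real.rpow_add hp0]
          congr 1
          ring
  have e5 : 4 / x = 4 * (1 / x) := by ring
  have e6 : 2 / x = 2 * (1 / x) := by ring
  rw [e5] at e1
  rw [e6] at e2
  linarith

theorem main (k p : ℕ) [hp : Fact p.Prime] (hk : 3 ≤ k) (hkp : k ≤ p) :
    ∃ κ : ℝ, 0 ≤ κ ∧ κ ≤ 1 / k ∧
      Tendsto (fun n : ℕ => (r k p n : ℝ) ^ (1 / (n : ℝ))) atTop (𝓝 ((p : ℝ) ^ (1 - κ))) ∧
      ∀ ε : ℝ, 0 < ε → ε ≤ 1 / 2 → ∃ n₀ : ℕ, ∀ n ≥ n₀, ∀ s : ℝ, 0 ≤ s → s ≤ 1 - ε →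
        1 - (p : ℝ) ^ (-(ε / 8 * n)) ≤
          prob ((p : ℝ) ^ (-(s * n))) (fun R : Finset (Fin n → ZMod p) =>
            (p : ℝ) ^ ((g k κ s - ε) * n) ≤ alpha k R ∧
              (alpha k R : ℝ) ≤ (p : ℝ) ^ ((g k κ s + ε) * n)) := by
  obtain ⟨κ, hκ0, hκk, hlim, hup, hlow⟩ := exists_kappa k p hk hkp
  exact ⟨κ, hκ0, hκk, hlim, main_of hk hkp hκ0 hκk hup hlow⟩

end Pool.Agent.K6.H67.SR
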