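import Pool.Agent.K6.H67.SR.Cont
import Pool.Agent.K6.H67.SR.Main

/-!
# Counting progression-free subsets of `F_p^n`
-/

set_option autoImplicit false

open Finset Filter Topology

namespace Pool.Agent.K6.H67.SR

open Pool.Agent.Y940.CT

section part

variable {V : Type*} [Fintype V] [DecidableEq V]

lemma sum_between (ρ : ℝ) (T C : Finset V) (hd : Disjoint T C) :
    ∑ A ∈ univ.filter (fun A : Finset V => T ⊆ A ∧ A ⊆ T ∪ C), ρ ^ A.card =
      ρ ^ T.card * (1 + ρ) ^ C.card := by
  have h1 : (1 + ρ) ^ C.card = ∑ B ∈ C.powerset, ρ ^ B.card := by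
    have := Finset.sum_pow_mul_eq_add_pow ρ 1 C
    rw [add_comm 1 ρ, ← this]
    refine sum_congr rfl fun B _ => ?_
    rw [one_pow, mul_one]
  rw [h1, mul_sum]
  symm
  refine sum_nbij' (fun B => T ∪ B) (fun A => A \ T) ?_ ?_ ?_ ?_ ?_
  · intro B hB
    rw [mem_powerset] at hB
    rw [mem_filter]
    exact ⟨mem_univ _, subset_union_left, union_subset_union (Subset.refl _) hB⟩
  · intro A hA
    rw [mem_filter] at hA
    rw [mem_powerset]
    intro v hv
    rw [Finset.mem_sdiff] at hv
    rcases mem_union.1 (hA.2.2 hv.1) with h | h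
    · exact absurd h hv.2
    · exact h
  · intro B hB
    rw [mem_powerset] at hB
    rw [union_sdiff_cancel_left (disjoint_of_subset_right hB hd)]
  · intro A hA
    rw [mem_filter] at hA
    exact union_sdiff_of_subset hA.2.1
  · intro B hB
    rw [mem_powerset] at hB
    rw [card_union_of_disjoint (disjoint_of_subset_right hB hd), pow_add]

omit [Fintype V] in
lemma sum_biUnion_le' {ι : Type*} (s : Finset ι) (t : ι → Finset V) (f : V → ℝ)
    (hf : ∀ a, 0 ≤ f a) : ∑ a ∈ s.biUnion t, f a ≤ ∑ i ∈ s, ∑ a ∈ t i, f a := by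
  classical
  induction s using Finset.induction_on with
  | empty => simp
  | insert i s hi ih =>
    rw [biUnion_insert, sum_insert hi]
    have h1 := sum_union_inter (s₁ := t i) (s₂ := s.biUnion t) (f := f)
    have h2 : 0 ≤ ∑ a ∈ t i ∩ s.biUnion t, f a := sum_nonneg fun a _ => hf a
    linarith

open Classical in
/-- the weighted number of the sets with the property `Q` -/
noncomputable def part (ρ : ℝ) (Q : Finset V → Prop) : ℝ :=
  ∑ A ∈ univ.filter Q, ρ ^ A.card

end part

theorem part_le {V : Type} [Fintype V] [DecidableEq V] (f : V ↪ ℕ) (P : Finset ℕ → Prop)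
    (ρ ρ' Z γ : ℝ) (hρ0 : 0 ≤ ρ) (hρ' : ρ ≤ ρ') (hcov : RCov ρ' ∅ P (univ.map f) Z γ) :
    part ρ (fun A : Finset V => P (A.map f)) ≤ Z * Real.exp (ρ * γ) := by
  classical
  obtain ⟨ι, s, T, C, h1, h2, h3⟩ := hcov
  have hb : ∀ I : Finset ℕ, I ⊆ univ.map f → (back f I).map f = I := fun I hI => map_back f hI
  have hbc : ∀ I : Finset ℕ, I ⊆ univ.map f → (back f I).card = I.card := by
    intro I hI
    conv_rhs => rw [← hb I hI]
    rw [card_map]
  have hTu : ∀ i ∈ s, T i ⊆ univ.map f := fun i hi => by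
    have := (h2 i hi).2.1
    simpa using this
  have hCu : ∀ i ∈ s, C i ⊆ univ.map f := fun i hi => (h2 i hi).2.2.1
  have hsub : univ.filter (fun A : Finset V => P (A.map f)) ⊆
      s.biUnion (fun i => univ.filter (fun A : Finset V => back f (T i) ⊆ A ∧
        A ⊆ back f (T i) ∪ back f (C i))) := by
    intro A hA
    rw [mem_filter] at hA
    obtain ⟨i, hi, hi1, hi2⟩ := h3 (A.map f) (empty_subset _) hA.2
    rw [mem_biUnion]
    refine ⟨i, hi, ?_⟩
    rw [mem_filter]
    refine ⟨mem_univ _, ?_, ?_⟩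
    · intro v hv
      have hv' : f v ∈ T i := by simpa [back] using hv
      exact (mem_map' f).1 (hi1 hv')
    · intro v hv
      have hv' : f v ∈ T i ∪ C i := hi2 ((mem_map' f).2 hv)
      rcases mem_union.1 hv' with h | h
      · exact mem_union_left _ (by simpa [back] using h)
      · exact mem_union_right _ (by simpa [back] using h)
  unfold part
  calc ∑ A ∈ univ.filter (fun A : Finset V => P (A.map f)), ρ ^ A.card
      ≤ ∑ A ∈ s.biUnion (fun i => univ.filter (fun A : Finset V => back f (T i) ⊆ A ∧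
        A ⊆ back f (T i) ∪ back f (C i))), ρ ^ A.card :=
        sum_le_sum_of_subset_of_nonneg hsub (fun A _ _ => pow_nonneg hρ0 _)
    _ ≤ ∑ i ∈ s, ∑ A ∈ univ.filter (fun A : Finset V => back f (T i) ⊆ A ∧
        A ⊆ back f (T i) ∪ back f (C i)), ρ ^ A.card := by
        exact sum_biUnion_le' _ _ _ (fun A => pow_nonneg hρ0 _)
    _ ≤ ∑ i ∈ s, ρ' ^ (T i \ ∅).card * Real.exp (ρ * γ) := by
        refine sum_le_sum fun i hi => ?_
        have hd : Disjoint (back f (T i)) (back f (C i)) := by
          rw [disjoint_left]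
          intro v hv hv'
          have h4 : f v ∈ T i := by simpa [back] using hv
          have h5 : f v ∈ C i := by simpa [back] using hv'
          exact (disjoint_left.1 (h2 i hi).2.2.2.1) h4 h5
        rw [sum_between ρ _ _ hd, hbc _ (hTu i hi), hbc _ (hCu i hi), sdiff_empty]
        refine mul_le_mul (pow_le_pow_left₀ hρ0 hρ' _) ?_ (by positivity) (by
          have := hρ0.trans hρ'
          positivity)
        calc (1 + ρ) ^ (C i).card ≤ (Real.exp ρ) ^ (C i).card := by
              apply pow_le_pow_left₀ (by linarith)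
              have := Real.add_one_le_exp ρ
              linarith
          _ = Real.exp ((C i).card * ρ) := by rw [← Real.exp_nat_mul]
          _ ≤ _ := by
              apply Real.exp_le_exp.2
              rw [mul_comm]
              exact mul_le_mul_of_nonneg_left (h2 i hi).2.2.2.2 hρ0
    _ = (∑ i ∈ s, ρ' ^ (T i \ ∅).card) * Real.exp (ρ * γ) := by rw [sum_mul]
    _ ≤ Z * Real.exp (ρ * γ) := mul_le_mul_of_nonneg_right h1 (Real.exp_nonneg _)

end Pool.Agent.K6.H67.SR
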