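import Pool.Agent.K6.H67.SR.Count

/-!
# Counting progression-free subsets of `F_p^n`: the theorem
-/

set_option autoImplicit false

open Finset Filter Topology

namespace Pool.Agent.K6.H67.SR

open Pool.Agent.Y940.CT

variable {p : ℕ} [hp : Fact p.Prime]

/-- The number of subsets of `F_p^n` with exactly `t` elements and without nontrivial `k`-term
progression. -/
noncomputable def cnt (k p n t : ℕ) : ℕ :=
  Nat.card {A : Finset (Fin n → ZMod p) // APFree k A ∧ A.card = t}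

open Classical in
lemma cnt_eq (k n t : ℕ) : cnt k p n t =
    (univ.filter (fun A : Finset (Fin n → ZMod p) => APFree k A ∧ A.card = t)).card := by
  unfold cnt
  rw [Nat.card_eq_fintype_card, Fintype.card_subtype]

lemma cnt_le_part {k n t : ℕ} {ρ : ℝ} (hρ : 0 ≤ ρ) :
    (cnt k p n t : ℝ) * ρ ^ t ≤ part ρ (fun A : Finset (Fin n → ZMod p) => APFree k A) := by
  classical
  unfold part
  rw [cnt_eq]
  calc ((univ.filter (fun A : Finset (Fin n → ZMod p) => APFree k A ∧ A.card = t)).card : ℝ) * ρ ^ t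
      = ∑ A ∈ univ.filter (fun A : Finset (Fin n → ZMod p) => APFree k A ∧ A.card = t),
          ρ ^ A.card := by
        rw [← nsmul_eq_mul, ← sum_const]
        refine sum_congr rfl fun A hA => ?_
        rw [(mem_filter.1 hA).2.2]
    _ ≤ _ := by
        refine sum_le_sum_of_subset_of_nonneg ?_ (fun A _ _ => pow_nonneg hρ _)
        intro A hA
        rw [mem_filter] at hA ⊢
        exact ⟨hA.1, hA.2.1⟩

theorem part_bound {k : ℕ} (hk : 3 ≤ k) (hkp : k ≤ p)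
    {κ : ℝ} (hκ0 : 0 ≤ κ) (hκk : κ ≤ 1 / k)
    (hup : ∀ n : ℕ, (r k p n : ℝ) ≤ (p : ℝ) ^ ((1 - κ) * n))
    (hlow : ∀ ε : ℝ, 0 < ε → ∃ c : ℝ, 0 < c ∧ c ≤ 1 ∧
        ∀ j : ℕ, c * (p : ℝ) ^ ((1 - κ - ε) * j) ≤ r k p j) {ε : ℝ} (hε : 0 < ε) :
    ∀ᶠ n : ℕ in atTop, ∀ s : ℝ, 0 ≤ s → s ≤ 1 →
      part ((p : ℝ) ^ (-(s * n))) (fun A : Finset (Fin n → ZMod p) => APFree k A) ≤
        Real.exp ((p : ℝ) ^ ((g k κ s + ε) * n) / 2) := by
  classical
  have hp1 : (1 : ℝ) < p := p1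
  have hp0 : (0 : ℝ) < p := p0
  filter_upwards [cont_case pieceB hk hkp hκ0 hκk hup hlow hε,
    eventually_const_le (p := p) (half_pos hε) 4] with n hcont hn s hs0 hs1
  have hn0 : (0 : ℝ) ≤ n := Nat.cast_nonneg n
  set ρ : ℝ := (p : ℝ) ^ (-(s * n)) with hρ
  have hρ0 : 0 < ρ := by positivity
  by_cases hs : κ * max 0 (1 - ((k : ℝ) - 1) * s) ≤ ε / 2
  · set M : ℝ := (p : ℝ) ^ ((g k κ s + ε) * n) with hM
    have h3 : 4 * (ρ * (p : ℝ) ^ (n : ℝ)) ≤ M := by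
      calc 4 * (ρ * (p : ℝ) ^ (n : ℝ))
          ≤ (p : ℝ) ^ (ε / 2 * n) * (ρ * (p : ℝ) ^ (n : ℝ)) := by gcongr
        _ = (p : ℝ) ^ ((1 - s + ε / 2) * n) := by
            rw [hρ, ← Real.rpow_add hp0, ← Real.rpow_add hp0]
            congr 1
            ring
        _ ≤ M := by
            rw [hM, Real.rpow_le_rpow_left_iff hp1]
            apply mul_le_mul_of_nonneg_right _ hn0
            unfold g
            linarith
    have h4 : part ρ (fun A : Finset (Fin n → ZMod p) => APFree k A) ≤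
        Real.exp (ρ * (p : ℝ) ^ (n : ℝ)) := by
      unfold part
      calc ∑ A ∈ univ.filter (fun A : Finset (Fin n → ZMod p) => APFree k A), ρ ^ A.card
          ≤ ∑ A ∈ (univ : Finset (Fin n → ZMod p)).powerset, ρ ^ A.card := by
            refine sum_le_sum_of_subset_of_nonneg ?_ (fun A _ _ => pow_nonneg hρ0.le _)
            intro A _
            rw [mem_powerset]
            exact subset_univ _
        _ = (ρ + 1) ^ (univ : Finset (Fin n → ZMod p)).card := by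
            rw [← Finset.sum_pow_mul_eq_add_pow ρ 1]
            refine sum_congr rfl fun B _ => ?_
            rw [one_pow, mul_one]
        _ ≤ (Real.exp ρ) ^ (univ : Finset (Fin n → ZMod p)).card := by
            apply pow_le_pow_left₀ (by linarith)
            exact Real.add_one_le_exp ρ
        _ = Real.exp (ρ * (p : ℝ) ^ (n : ℝ)) := by
            rw [← Real.exp_nat_mul, card_univ, Fintype.card_fun, Fintype.card_fin, ZMod.card,
              Real.rpow_natCast]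
            congr 1
            push_cast
            ring
    refine h4.trans (Real.exp_le_exp.2 ?_)
    have h5 : 0 ≤ ρ * (p : ℝ) ^ (n : ℝ) := by positivity
    linarith
  · push Not at hs
    obtain ⟨f, Z, uu, huu, hcov, hZ⟩ := hcont s hs0 hs1 hs
    have hexp1 : (1 : ℝ) ≤ Real.exp 1 := Real.one_le_exp (by norm_num)
    have hρe : ρ ≤ ρ * Real.exp 1 := le_mul_of_one_le_right hρ0.le hexp1
    have h1 := part_le f (fun I => I ⊆ univ.map f ∧ APFree k (back f I)) ρ (ρ * Real.exp 1)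
      (Real.exp Z) uu hρ0.le hρe hcov
    have h2 : (fun A : Finset (Fin n → ZMod p) => A.map f ⊆ univ.map f ∧ APFree k (back f (A.map f)))
        = fun A => APFree k A := by
      funext A
      rw [back_map]
      simp only [eq_iff_iff, and_iff_right_iff_imp]
      intro _
      exact map_subset_map.2 (subset_univ _)
    rw [h2] at h1
    refine h1.trans ?_
    rw [← Real.exp_add]
    apply Real.exp_le_exp.2
    have h3 : 0 ≤ ρ * uu := by positivity
    linarith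

theorem count_upper {k n : ℕ} {κ ε s : ℝ}
    (h : part ((p : ℝ) ^ (-(s * n))) (fun A : Finset (Fin n → ZMod p) => APFree k A) ≤
        Real.exp ((p : ℝ) ^ ((g k κ s + ε) * n) / 2)) {t : ℕ}
    (ht : (p : ℝ) ^ ((g k κ s + ε) * n) ≤ t) :
    (cnt k p n t : ℝ) ≤ (2 * (p : ℝ) ^ (s * n)) ^ t := by
  have hp0 : (0 : ℝ) < p := p0
  set ρ : ℝ := (p : ℝ) ^ (-(s * n)) with hρ
  have hρ0 : 0 < ρ := by positivity
  have h1 := (cnt_le_part (p := p) (k := k) (n := n) (t := t) hρ0.le).trans h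
  have h2 : Real.exp ((p : ℝ) ^ ((g k κ s + ε) * n) / 2) ≤ 2 ^ t := by
    calc Real.exp ((p : ℝ) ^ ((g k κ s + ε) * n) / 2) ≤ Real.exp (t * (1 / 2)) := by
          apply Real.exp_le_exp.2
          linarith
      _ = (Real.exp (1 / 2)) ^ t := by rw [Real.exp_nat_mul]
      _ ≤ 2 ^ t := by
          apply pow_le_pow_left₀ (Real.exp_nonneg _)
          have h3 : Real.exp (1 / 2) ^ 2 = Real.exp 1 := by
            rw [← Real.exp_nat_mul]; norm_num
          have h4 : Real.exp 1 ≤ 3 := Real.exp_one_lt_three.le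
          nlinarith [Real.exp_pos (1 / 2)]
  have h3 : ρ * (p : ℝ) ^ (s * n) = 1 := by
    rw [hρ, ← Real.rpow_add hp0]
    simp
  calc (cnt k p n t : ℝ) = (cnt k p n t * ρ ^ t) * ((p : ℝ) ^ (s * n)) ^ t := by
        rw [mul_assoc, ← mul_pow, h3, one_pow, mul_one]
    _ ≤ 2 ^ t * ((p : ℝ) ^ (s * n)) ^ t :=
        mul_le_mul_of_nonneg_right (h1.trans h2) (by positivity)
    _ = _ := by rw [mul_pow]

theorem count_lower {k n : ℕ} (hk : 3 ≤ k) {κ ε s : ℝ} (hs0 : 0 ≤ s)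
    (h : 1 / 2 ≤ prob ((p : ℝ) ^ (-(s * n))) (fun R : Finset (Fin n → ZMod p) =>
            (p : ℝ) ^ ((g k κ s - ε) * n) ≤ alpha k R)) {t : ℕ}
    (ht : (t : ℝ) ≤ (p : ℝ) ^ ((g k κ s - ε) * n)) :
    ((p : ℝ) ^ (s * n)) ^ t ≤ 2 * cnt k p n t := by
  classical
  have hp1 : (1 : ℝ) < p := p1
  have hp0 : (0 : ℝ) < p := p0
  set ρ : ℝ := (p : ℝ) ^ (-(s * n)) with hρ
  have hρ0 : 0 < ρ := by positivity
  have hρ1 : ρ ≤ 1 := by
    apply Real.rpow_le_one_of_one_le_of_nonpos hp1.le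
    have : 0 ≤ s * n := by positivity
    linarith
  set F : Finset (Finset (Fin n → ZMod p)) :=
    univ.filter (fun A : Finset (Fin n → ZMod p) => APFree k A ∧ A.card = t) with hF
  have h1 : prob ρ (fun R : Finset (Fin n → ZMod p) =>
      (p : ℝ) ^ ((g k κ s - ε) * n) ≤ alpha k R) ≤
      ∑ R : Finset (Fin n → ZMod p), PE.wt ρ R * ∑ A ∈ F, (if A ⊆ R then 1 else 0) := by
    apply PE.prob_le hρ0.le hρ1
    · intro R
      exact sum_nonneg fun A _ => by split_ifs <;> norm_num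
    · intro R hR
      obtain ⟨A, hAR, hA, hAc⟩ := exists_alpha (k := k) (by omega) R
      have h2 : t ≤ A.card := by
        rw [hAc]
        exact_mod_cast ht.trans hR
      obtain ⟨B, hBA, hBc⟩ := exists_subset_card_eq h2
      have hBF : B ∈ F := by
        rw [hF, mem_filter]
        exact ⟨mem_univ _, hA.mono hBA, hBc⟩
      calc (1 : ℝ) = if B ⊆ R then 1 else 0 := by rw [if_pos (hBA.trans hAR)]
        _ ≤ _ := single_le_sum (f := fun A : Finset (Fin n → ZMod p) => if A ⊆ R then (1 : ℝ) else 0)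
              (fun A _ => by split_ifs <;> norm_num) hBF
  have h2 : ∑ R : Finset (Fin n → ZMod p), PE.wt ρ R * ∑ A ∈ F, (if A ⊆ R then 1 else 0) =
      cnt k p n t * ρ ^ t := by
    rw [cnt_eq]
    simp_rw [mul_sum]
    rw [sum_comm]
    rw [← nsmul_eq_mul, ← sum_const]
    refine sum_congr rfl fun A hA => ?_
    rw [PE.gen_sub, (mem_filter.1 hA).2.2]
  rw [h2] at h1
  have h3 : ρ * (p : ℝ) ^ (s * n) = 1 := by
    rw [hρ, ← Real.rpow_add hp0]
    simp
  have h4 : 1 / 2 ≤ (cnt k p n t : ℝ) * ρ ^ t := h.trans h1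
  calc ((p : ℝ) ^ (s * n)) ^ t = 2 * (1 / 2) * ((p : ℝ) ^ (s * n)) ^ t := by ring
    _ ≤ 2 * (cnt k p n t * ρ ^ t) * ((p : ℝ) ^ (s * n)) ^ t := by gcongr
    _ = 2 * cnt k p n t * (ρ ^ t * ((p : ℝ) ^ (s * n)) ^ t) := by ring
    _ = _ := by rw [← mul_pow, h3, one_pow, mul_one]

theorem main2 (k p : ℕ) [hp : Fact p.Prime] (hk : 3 ≤ k) (hkp : k ≤ p) :
    ∃ κ : ℝ, 0 ≤ κ ∧ κ ≤ 1 / k ∧
      Tendsto (fun n : ℕ => (r k p n : ℝ) ^ (1 / (n : ℝ))) atTop (𝓝 ((p : ℝ) ^ (1 - κ))) ∧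
      ∀ ε : ℝ, 0 < ε → ε ≤ 1 / 2 → ∃ n₀ : ℕ, ∀ n ≥ n₀, ∀ s : ℝ, 0 ≤ s → s ≤ 1 - ε →
        (1 - (p : ℝ) ^ (-(ε / 8 * n)) ≤
          prob ((p : ℝ) ^ (-(s * n))) (fun R : Finset (Fin n → ZMod p) =>
            (p : ℝ) ^ ((g k κ s - ε) * n) ≤ alpha k R ∧
              (alpha k R : ℝ) ≤ (p : ℝ) ^ ((g k κ s + ε) * n))) ∧
        (∀ t : ℕ, (t : ℝ) ≤ (p : ℝ) ^ ((g k κ s - ε) * n) →
          ((p : ℝ) ^ (s * n)) ^ t ≤ 2 * cnt k p n t) ∧
        (∀ t : ℕ, (p : ℝ) ^ ((g k κ s + ε) * n) ≤ t →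
          (cnt k p n t : ℝ) ≤ (2 * (p : ℝ) ^ (s * n)) ^ t) := by
  have hp1 : (1 : ℝ) < p := p1
  have hp0 : (0 : ℝ) < p := p0
  obtain ⟨κ, hκ0, hκk, hlim, hup, hlow⟩ := exists_kappa k p hk hkp
  refine ⟨κ, hκ0, hκk, hlim, ?_⟩
  intro ε hε hε1
  obtain ⟨n₁, hn₁⟩ := main_of hk hkp hκ0 hκk hup hlow ε hε hε1
  obtain ⟨n₂, hn₂⟩ := eventually_atTop.1 ((part_bound hk hkp hκ0 hκk hup hlow hε).and
    (eventually_const_le (p := p) (show 0 < ε / 8 by linarith) 2))
  refine ⟨max n₁ n₂, fun n hn s hs0 hs1 => ?_⟩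
  have h1 := hn₁ n ((le_max_left _ _).trans hn) s hs0 hs1
  obtain ⟨h2, h3⟩ := hn₂ n ((le_max_right _ _).trans hn)
  have h4 := h2 s hs0 (by linarith)
  refine ⟨h1, ?_, fun t ht => count_upper h4 ht⟩
  intro t ht
  refine count_lower hk (κ := κ) (ε := ε) hs0 ?_ ht
  have hρ0 : 0 ≤ (p : ℝ) ^ (-(s * n)) := by positivity
  have hρ1 : (p : ℝ) ^ (-(s * n)) ≤ 1 := by
    apply Real.rpow_le_one_of_one_le_of_nonpos hp1.le
    have : 0 ≤ s * n := by positivity
    linarith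
  obtain ⟨_, hmono, _⟩ := pieceE p k hk hkp (Fin n → ZMod p) ((p : ℝ) ^ (-(s * n))) hρ0 hρ1
  refine le_trans ?_ (h1.trans (hmono _ (fun R => (p : ℝ) ^ ((g k κ s - ε) * n) ≤ alpha k R)
    (fun R hR => hR.1)))
  have h5 : (p : ℝ) ^ (-(ε / 8 * n)) ≤ 1 / 2 := by
    rw [Real.rpow_neg hp0.le, ← one_div]
    exact one_div_le_one_div_of_le (by norm_num) h3
  linarith

end Pool.Agent.K6.H67.SR
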