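import Pool.Agent.Y940.CT.Fp

/-!
# Progression-free subsets of sparse random subsets of `F_p^n`: definitions
-/

set_option autoImplicit false

open Finset

namespace Pool.Agent.K6.H67.SR

/-- `A` contains no nontrivial `k`-term arithmetic progression. -/
def APFree {V : Type*} [AddCommGroup V] (k : ℕ) (A : Finset V) : Prop :=
  ∀ x y : V, y ≠ 0 → ¬ ∀ j < k, x + j • y ∈ A

/-- The largest size of a subset of `F_p^n` without nontrivial `k`-term progression. -/
noncomputable def r (k p n : ℕ) : ℕ :=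
  sSup {t | ∃ A : Finset (Fin n → ZMod p), APFree k A ∧ A.card = t}

/-- The probability that a random subset of `V`, to which each element belongs independently with
probability `ρ`, has the property `Q`. -/
noncomputable def prob {V : Type*} [Fintype V] (ρ : ℝ) (Q : Finset V → Prop) : ℝ := by
  classical
  exact ∑ R : Finset V, if Q R then ρ ^ R.card * (1 - ρ) ^ (Fintype.card V - R.card) else 0

/-- all pairs `(x, y)`, `y ≠ 0`, whose `k`-term progression lies in `S` -/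
def aps {V : Type*} [AddCommGroup V] [Fintype V] [DecidableEq V] (k : ℕ) (S : Finset V) :
    Finset (V × V) :=
  univ.filter (fun q : V × V => q.2 ≠ 0 ∧ ∀ j < k, q.1 + j • q.2 ∈ S)

/-- the subset of `V` coded by a set of natural numbers -/
def back {V : Type*} [Fintype V] (f : V ↪ ℕ) (I : Finset ℕ) : Finset V :=
  univ.filter (fun v => f v ∈ I)

/-! Statements of the pieces -/

/-- Piece B: balanced supersaturation. -/
def PieceB : Prop :=
  ∀ (p k : ℕ) [Fact p.Prime], 3 ≤ k → k ≤ p →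
  ∀ (V : Type) [AddCommGroup V] [Module (ZMod p) V] [Fintype V] [DecidableEq V] (f : V ↪ ℕ)
    (U : Finset V) (a τ : ℝ), U.Nonempty → 4 * (k : ℝ) ^ 2 ≤ a →
    (∀ U' ⊆ U, U.card ≤ 2 * U'.card → a * U'.card ≤ ((aps k U').card : ℝ)) →
    0 < τ → τ ≤ 1 → 4 * (k : ℝ) ^ 4 ≤ a * τ ^ (k - 1) →
    ∃ w : Finset ℕ → ℝ,
      Pool.Agent.Y940.CT.Spread (U.map f) k w (a / (4 * (k : ℝ) ^ 2)) (2 * k + 1) τ ∧
      ∀ I : Finset ℕ, APFree k (back f I) → Pool.Agent.Y940.CT.Ind w I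

/-- Piece D: containers and random subsets. -/
def PieceD : Prop :=
  ∀ (V : Type) [Fintype V] (f : V ↪ ℕ) (P : Finset ℕ → Prop) (ρ Z γ M : ℝ),
    0 ≤ ρ → ρ ≤ 1 →
    Pool.Agent.Y940.CT.RCov (ρ * Real.exp 1) ∅ P (univ.map f) Z γ →
    prob ρ (fun R : Finset V => ∃ A ⊆ R, P (A.map f) ∧ M ≤ (A.card : ℝ)) ≤
      Z * Real.exp (2 * ρ * γ - M)

/-- Piece E: random subsets are not too small, not too large, and have few progressions. -/
def PieceE : Prop :=
  ∀ (p k : ℕ) [Fact p.Prime], 3 ≤ k → k ≤ p →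
  ∀ (V : Type) [AddCommGroup V] [Module (ZMod p) V] [Fintype V] [DecidableEq V] (ρ : ℝ),
    0 ≤ ρ → ρ ≤ 1 →
    prob ρ (fun _ : Finset V => True) = 1 ∧
    (∀ Q Q' : Finset V → Prop, (∀ R, Q R → Q' R) → prob ρ Q ≤ prob ρ Q') ∧
    (∀ Q Q' : Finset V → Prop, prob ρ (fun R => Q R ∨ Q' R) ≤ prob ρ Q + prob ρ Q') ∧
    prob ρ (fun R : Finset V => (R.card : ℝ) ≤ ρ * Fintype.card V / 4) ≤
      Real.exp (- (ρ * Fintype.card V / 4)) ∧
    (∀ M : ℝ, prob ρ (fun R : Finset V => M ≤ (R.card : ℝ)) ≤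
      Real.exp (2 * ρ * Fintype.card V - M)) ∧
    (∀ X : ℝ, 0 < X → prob ρ (fun R : Finset V => X ≤ ((aps k R).card : ℝ)) ≤
      ρ ^ k * (Fintype.card V : ℝ) ^ 2 / X)

end Pool.Agent.K6.H67.SR
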