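import Pool.Agent.K6.H67.SR.Kappa

/-!
# The smallest number of progressions in a set of given size
-/

set_option autoImplicit false

open Finset Filter Topology

namespace Pool.Agent.K6.H67.SR

variable {p : ℕ} [hp : Fact p.Prime]

lemma eventually_lin {ε : ℝ} (hε : 0 < ε) (C : ℝ) : ∀ᶠ n : ℕ in atTop, C ≤ ε * n := by
  have h : Tendsto (fun n : ℕ => ε * (n : ℝ)) atTop atTop :=
    Tendsto.const_mul_atTop hε tendsto_natCast_atTop_atTop
  exact h.eventually_ge_atTop C

theorem super_lower {k : ℕ} (hk : 3 ≤ k) {κ : ℝ} (hκ : 0 < κ) 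
    (hup : ∀ n : ℕ, (r k p n : ℝ) ≤ (p : ℝ) ^ ((1 - κ) * n))
    (hlow : ∀ ε : ℝ, 0 < ε → ∃ c : ℝ, 0 < c ∧ c ≤ 1 ∧
        ∀ j : ℕ, c * (p : ℝ) ^ ((1 - κ - ε) * j) ≤ r k p j) {ε : ℝ} (hε : 0 < ε) :
    ∀ᶠ n : ℕ in atTop, ∀ a : ℝ, 0 ≤ a → a ≤ κ - ε → ∀ A : Finset (Fin n → ZMod p),
      (p : ℝ) ^ ((1 - a) * n) ≤ A.card →
        (p : ℝ) ^ ((2 - a - a / κ - ε) * n) ≤ ((aps k A).card : ℝ) := by
  have hp1 : (1 : ℝ) < p := p1
  have hp0 : (0 : ℝ) < p := p0
  have hp2 : (2 : ℝ) ≤ p := by exact_mod_cast hp.out.two_le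
  have hlogp : 0 < Real.log p := Real.log_pos hp1
  have hε1 : 0 < ε * κ / 2 := by positivity
  obtain ⟨c, hc, hc1, hl⟩ := hlow (ε * κ / 2) hε1
  set ε1 : ℝ := ε * κ / 2 with hε1'
  set β : ℝ := κ + ε1 with hβ
  have hβ0 : 0 < β := by positivity
  have h4c : (1 : ℝ) ≤ 4 / c := by
    rw [le_div_iff₀ hc]; linarith
  set C0 : ℝ := Real.log (4 / c) / Real.log p with hC0
  have hC0' : 0 ≤ C0 := div_nonneg (Real.log_nonneg h4c) hlogp.le
  have hpC0 : (p : ℝ) ^ C0 = 4 / c := by
    rw [Real.rpow_def_of_pos hp0, hC0, mul_div_cancel₀ _ hlogp.ne', Real.exp_log (by linarith)]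
  filter_upwards [eventually_lin hε C0, eventually_lin (half_pos hε) (C0 / β + 2)]
    with n hn1 hn2 a ha0 ha1 A hA
  have hn0 : (0 : ℝ) ≤ n := Nat.cast_nonneg n
  set z : ℝ := (κ - a) * n - C0 with hz
  have hz0 : 0 ≤ z := by
    have : ε * n ≤ (κ - a) * n := mul_le_mul_of_nonneg_right (by linarith) hn0
    linarith
  set m : ℕ := ⌊z / β⌋₊ with hm
  have hm1 : (m : ℝ) ≤ z / β := Nat.floor_le (by positivity)
  have hm2 : z / β < m + 1 := Nat.lt_floor_add_one _
  have hβm : β * m ≤ z := by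
    rw [le_div_iff₀ hβ0] at hm1
    linarith
  -- the supersaturation
  have hcond : 2 * r k p n * p ^ m < A.card * r k p m := by
    have h1 : 2 * (r k p n : ℝ) * (p : ℝ) ^ m < A.card * r k p m := by
      have e1 : c * (4 / c * (p : ℝ) ^ ((1 - κ) * n + (m : ℝ))) =
          4 * ((p : ℝ) ^ ((1 - κ) * n) * (p : ℝ) ^ m) := by
        rw [Real.rpow_add hp0, Real.rpow_natCast]
        field_simp
      have e2 : 4 / c * (p : ℝ) ^ ((1 - κ) * n + (m : ℝ)) ≤
          (p : ℝ) ^ ((1 - a) * n) * (p : ℝ) ^ ((1 - κ - ε1) * m) := by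
        rw [← hpC0, ← Real.rpow_add hp0, ← Real.rpow_add hp0, Real.rpow_le_rpow_left_iff hp1]
        have e3 : (1 - a) * (n : ℝ) + (1 - κ - ε1) * m = (1 - κ) * n + m + ((κ - a) * n - β * m) := by
          rw [hβ]; ring
        rw [e3]
        linarith
      calc 2 * (r k p n : ℝ) * (p : ℝ) ^ m ≤ 2 * ((p : ℝ) ^ ((1 - κ) * n) * (p : ℝ) ^ m) := by
            rw [mul_assoc]
            have := hup n
            gcongr
        _ < 4 * ((p : ℝ) ^ ((1 - κ) * n) * (p : ℝ) ^ m) := by
            have : 0 < (p : ℝ) ^ ((1 - κ) * n) * (p : ℝ) ^ m := by positivity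
            linarith
        _ = c * (4 / c * (p : ℝ) ^ ((1 - κ) * n + (m : ℝ))) := e1.symm
        _ ≤ c * ((p : ℝ) ^ ((1 - a) * n) * (p : ℝ) ^ ((1 - κ - ε1) * m)) :=
            mul_le_mul_of_nonneg_left e2 hc.le
        _ = (p : ℝ) ^ ((1 - a) * n) * (c * (p : ℝ) ^ ((1 - κ - ε1) * m)) := by ring
        _ ≤ A.card * r k p m := mul_le_mul hA (hl m) (by positivity) (Nat.cast_nonneg _)
    exact_mod_cast h1
  have h2 := supersat (p := p) (k := k) (by omega) m A hcond
  have h3 : (p : ℝ) ^ m * A.card < 2 * ((aps k A).card : ℝ) := by exact_mod_cast h2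
  -- exponents
  have h4 : (p : ℝ) ^ ((2 - a - a / κ - ε) * n) ≤ (p : ℝ) ^ ((1 - a) * n + (m : ℝ) - 1) := by
    rw [Real.rpow_le_rpow_left_iff hp1]
    have e1 : (2 - a - a / κ - ε) * (n : ℝ) = (1 - a) * n + (κ - a) * n / κ - ε * n := by
      field_simp
      ring
    have e2 : (κ - a) * n / κ ≤ z / β + C0 / β + ε / 2 * n := by
      have e3 : z / β + C0 / β = (κ - a) * n / β := by rw [hz]; ring
      rw [e3, div_le_iff₀ hκ]
      have e4 : ((κ - a) * n / β + ε / 2 * n) * κ = (κ - a) * n * (κ / β) + ε1 * n := by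
        rw [hε1']; ring
      rw [e4]
      have e5 : κ / β = 1 - ε1 / β := by
        rw [hβ]
        field_simp
        ring
      rw [e5]
      have e6 : (κ - a) * n * (ε1 / β) ≤ ε1 * n := by
        have e7 : (κ - a) * (ε1 / β) ≤ ε1 := by
          rw [← mul_div_assoc, div_le_iff₀ hβ0]
          have : (κ - a) * ε1 ≤ β * ε1 := mul_le_mul_of_nonneg_right (by rw [hβ]; linarith) hε1.le
          linarith
        calc (κ - a) * n * (ε1 / β) = ((κ - a) * (ε1 / β)) * n := by ring
          _ ≤ ε1 * n := mul_le_mul_of_nonneg_right e7 hn0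
      have e8 : (κ - a) * n * (1 - ε1 / β) = (κ - a) * n - (κ - a) * n * (ε1 / β) := by ring
      rw [e8]
      linarith
    rw [e1]
    linarith
  have h5 : (p : ℝ) ^ ((1 - a) * n + (m : ℝ) - 1) * 2 ≤ (p : ℝ) ^ m * A.card := by
    calc (p : ℝ) ^ ((1 - a) * n + (m : ℝ) - 1) * 2
        ≤ (p : ℝ) ^ ((1 - a) * n + (m : ℝ) - 1) * (p : ℝ) ^ (1 : ℝ) := by
          rw [Real.rpow_one]
          gcongr
      _ = (p : ℝ) ^ m * (p : ℝ) ^ ((1 - a) * n) := by
          rw [← Real.rpow_add hp0, ← Real.rpow_natCast (p : ℝ) m, ← Real.rpow_add hp0]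
          congr 1
          ring
      _ ≤ (p : ℝ) ^ m * A.card := by gcongr
  linarith

/-- The product of a progression free set and a space. -/
theorem exists_prod {k m l : ℕ} (hk : 2 ≤ k) (B : Finset (Fin m → ZMod p)) (hB : APFree k B) :
    ∃ A : Finset (Fin (m + l) → ZMod p), A.card = B.card * p ^ l ∧
      (aps k A).card ≤ B.card * p ^ l * p ^ l := by
  classical
  set e := Pool.Agent.Results.MP_b30443_co.NotAttained.appEquiv (p := p) m l with he
  set A : Finset (Fin (m + l) → ZMod p) := (B ×ˢ univ).map e.toEquiv.toEmbedding with hA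
  set Y : Finset (Fin (m + l) → ZMod p) :=
    (({0} : Finset (Fin m → ZMod p)) ×ˢ univ).map e.toEquiv.toEmbedding with hY
  have hcl : (univ : Finset (Fin l → ZMod p)).card = p ^ l := by
    rw [card_univ, Fintype.card_fun, Fintype.card_fin, ZMod.card]
  have hAc : A.card = B.card * p ^ l := by
    rw [hA, card_map, card_product, hcl]
  have hYc : Y.card = p ^ l := by
    rw [hY, card_map, card_product, hcl, card_singleton, one_mul]
  have hmem : ∀ v, v ∈ A ↔ (e.symm v).1 ∈ B := by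
    intro v
    rw [hA, mem_map_equiv, mem_product]
    simp
  have hmemY : ∀ v, v ∈ Y ↔ (e.symm v).1 = 0 := by
    intro v
    rw [hY, mem_map_equiv, mem_product]
    simp
  refine ⟨A, hAc, ?_⟩
  have hsub : aps k A ⊆ A ×ˢ Y := by
    intro q hq
    unfold aps at hq
    rw [mem_filter] at hq
    obtain ⟨_, hq2, hq3⟩ := hq
    rw [mem_product]
    refine ⟨?_, ?_⟩
    · have := hq3 0 (by omega)
      rwa [zero_smul, add_zero] at this
    · rw [hmemY]
      by_contra hne
      refine hB (e.symm q.1).1 (e.symm q.2).1 hne ?_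
      intro j hj
      have := (hmem _).1 (hq3 j hj)
      rwa [map_add, map_nsmul, Prod.fst_add, Prod.smul_fst] at this
  calc (aps k A).card ≤ (A ×ˢ Y).card := card_le_card hsub
    _ = B.card * p ^ l * p ^ l := by rw [card_product, hAc, hYc]

theorem super_upper {k : ℕ} (hk : 3 ≤ k) {κ : ℝ} (hκ : 0 < κ) (hκ1 : κ ≤ 1)
    (hup : ∀ n : ℕ, (r k p n : ℝ) ≤ (p : ℝ) ^ ((1 - κ) * n))
    (hlow : ∀ ε : ℝ, 0 < ε → ∃ c : ℝ, 0 < c ∧ c ≤ 1 ∧
        ∀ j : ℕ, c * (p : ℝ) ^ ((1 - κ - ε) * j) ≤ r k p j) {ε : ℝ} (hε : 0 < ε) :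
    ∀ᶠ n : ℕ in atTop, ∀ a : ℝ, 0 ≤ a → a ≤ κ → ∃ A : Finset (Fin n → ZMod p),
      (p : ℝ) ^ ((1 - a) * n) ≤ A.card ∧
        ((aps k A).card : ℝ) ≤ (p : ℝ) ^ ((2 - a - a / κ + ε) * n) := by
  have hp1 : (1 : ℝ) < p := p1
  have hp0 : (0 : ℝ) < p := p0
  have hlogp : 0 < Real.log p := Real.log_pos hp1
  have hε1 : 0 < ε * κ / 4 := by positivity
  obtain ⟨c, hc, hc1, hl⟩ := hlow (ε * κ / 4) hε1
  set ε1 : ℝ := ε * κ / 4 with hε1'
  set β : ℝ := κ + ε1 with hβ
  have hβ0 : 0 < β := by positivity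
  have h4c : (1 : ℝ) ≤ 1 / c := by
    rw [le_div_iff₀ hc]; linarith
  set C1 : ℝ := Real.log (1 / c) / Real.log p with hC1
  have hC1' : 0 ≤ C1 := div_nonneg (Real.log_nonneg h4c) hlogp.le
  have hpC1 : (p : ℝ) ^ (-C1) = c := by
    rw [Real.rpow_neg hp0.le, Real.rpow_def_of_pos hp0, hC1, mul_div_cancel₀ _ hlogp.ne',
      Real.exp_log (by linarith), one_div, inv_inv]
  filter_upwards [eventually_lin (half_pos hε) (2 * (C1 / β + 1))] with n hn2 a ha0 ha1
  have hn0 : (0 : ℝ) ≤ n := Nat.cast_nonneg n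
  set z : ℝ := a * n - C1 with hz
  set m : ℕ := ⌊z / β⌋₊ with hm
  have hm2 : z / β < m + 1 := Nat.lt_floor_add_one _
  have hmn : m ≤ n := by
    have h1 : (m : ℝ) ≤ n := by
      rcases le_or_gt 0 z with h0 | h0
      · have h2 : (m : ℝ) ≤ z / β := Nat.floor_le (by positivity)
        refine h2.trans ?_
        rw [div_le_iff₀ hβ0]
        have h3 : a * n ≤ κ * n := mul_le_mul_of_nonneg_right ha1 hn0
        have h4 : κ * n ≤ n * β := by
          rw [hβ]
          have : 0 ≤ n * ε1 := by positivity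
          linarith
        linarith
      · have h2 : m = 0 := by
          rw [hm, Nat.floor_eq_zero]
          have : z / β < 0 := div_neg_of_neg_of_pos h0 hβ0
          linarith
        rw [h2]
        simp
    exact_mod_cast h1
  obtain ⟨l, hl'⟩ := Nat.exists_eq_add_of_le hmn
  obtain ⟨B, hB, hBc⟩ := exists_r (p := p) (k := k) (by omega) m
  obtain ⟨A, hA1, hA2⟩ := exists_prod (p := p) (k := k) (l := l) (by omega) B hB
  have hlr : (l : ℝ) = n - m := by
    have : (n : ℝ) = m + l := by exact_mod_cast hl'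
    linarith
  rw [hBc] at hA1 hA2
  have hA1' : (A.card : ℝ) = r k p m * (p : ℝ) ^ l := by exact_mod_cast hA1
  have hA2' : ((aps k A).card : ℝ) ≤ r k p m * (p : ℝ) ^ l * (p : ℝ) ^ l := by exact_mod_cast hA2
  have hpl : (p : ℝ) ^ l = (p : ℝ) ^ ((n : ℝ) - m) := by rw [← hlr, Real.rpow_natCast]
  have hr1 : (1 : ℝ) ≤ r k p m := by exact_mod_cast one_le_r (p := p) (k := k) (by omega) m
  have key : ∀ N : ℕ, N = m + l → ∃ A : Finset (Fin N → ZMod p),
      (p : ℝ) ^ ((1 - a) * n) ≤ A.card ∧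
        ((aps k A).card : ℝ) ≤ (p : ℝ) ^ ((2 - a - a / κ + ε) * n) := by
    rintro N rfl
    refine ⟨A, ?_, ?_⟩
    · rw [hA1', hpl]
      rcases le_or_gt 0 z with h0 | h0
      · have h2 : (m : ℝ) ≤ z / β := Nat.floor_le (by positivity)
        have hβm : β * m ≤ z := by
          rw [le_div_iff₀ hβ0] at h2
          linarith
        calc (p : ℝ) ^ ((1 - a) * n) ≤ (p : ℝ) ^ (-C1 + (1 - κ - ε1) * m + ((n : ℝ) - m)) := by
              rw [Real.rpow_le_rpow_left_iff hp1]
              have e1 : -C1 + (1 - κ - ε1) * m + ((n : ℝ) - m) = n - C1 - β * m := by rw [hβ]; ring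
              rw [e1]
              linarith
          _ = c * (p : ℝ) ^ ((1 - κ - ε1) * m) * (p : ℝ) ^ ((n : ℝ) - m) := by
              rw [Real.rpow_add hp0, Real.rpow_add hp0, hpC1]
          _ ≤ r k p m * (p : ℝ) ^ ((n : ℝ) - m) :=
              mul_le_mul_of_nonneg_right (hl m) (by positivity)
      · have h2 : m = 0 := by
          rw [hm, Nat.floor_eq_zero]
          have : z / β < 0 := div_neg_of_neg_of_pos h0 hβ0
          linarith
        have h3 : (p : ℝ) ^ ((1 - a) * n) ≤ (p : ℝ) ^ ((n : ℝ) - m) := by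
          rw [Real.rpow_le_rpow_left_iff hp1, h2]
          have : 0 ≤ a * n := by positivity
          push_cast
          linarith
        calc (p : ℝ) ^ ((1 - a) * n) ≤ 1 * (p : ℝ) ^ ((n : ℝ) - m) := by rw [one_mul]; exact h3
          _ ≤ r k p m * (p : ℝ) ^ ((n : ℝ) - m) := mul_le_mul_of_nonneg_right hr1 (by positivity)
    · refine hA2'.trans ?_
      rw [hpl]
      calc (r k p m : ℝ) * (p : ℝ) ^ ((n : ℝ) - m) * (p : ℝ) ^ ((n : ℝ) - m)
          ≤ (p : ℝ) ^ ((1 - κ) * m) * (p : ℝ) ^ ((n : ℝ) - m) * (p : ℝ) ^ ((n : ℝ) - m) := by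
            have := hup m
            gcongr
        _ = (p : ℝ) ^ (2 * (n : ℝ) - (1 + κ) * m) := by
            rw [← Real.rpow_add hp0, ← Real.rpow_add hp0]
            congr 1
            ring
        _ ≤ _ := by
            rw [Real.rpow_le_rpow_left_iff hp1]
            have e1 : (2 - a - a / κ + ε) * (n : ℝ) = 2 * n - (1 + κ) * (a * n / κ) + ε * n := by
              field_simp
              ring
            rw [e1]
            have e2 : a * n / κ ≤ m + 1 + C1 / β + ε / 4 * n := by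
              have e3 : a * n / κ ≤ z / β + C1 / β + ε / 4 * n := by
                have e4 : z / β + C1 / β = a * n / β := by rw [hz]; ring
                rw [e4, div_le_iff₀ hκ]
                have e5 : (a * n / β + ε / 4 * n) * κ = a * n * (κ / β) + ε1 * n := by
                  rw [hε1']; ring
                have e6 : κ / β = 1 - ε1 / β := by
                  rw [hβ]
                  field_simp
                  ring
                rw [e5, e6]
                have e7 : a * n * (ε1 / β) ≤ ε1 * n := by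
                  have e8 : a * (ε1 / β) ≤ ε1 := by
                    rw [← mul_div_assoc, div_le_iff₀ hβ0]
                    have : a * ε1 ≤ β * ε1 :=
                      mul_le_mul_of_nonneg_right (by rw [hβ]; linarith) hε1.le
                    linarith
                  calc a * n * (ε1 / β) = (a * (ε1 / β)) * n := by ring
                    _ ≤ ε1 * n := mul_le_mul_of_nonneg_right e8 hn0
                have e9 : a * n * (1 - ε1 / β) = a * n - a * n * (ε1 / β) := by ring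
                rw [e9]
                linarith
              linarith
            have e10 : (1 + κ) * (a * n / κ) ≤ (1 + κ) * m + 2 * (1 + C1 / β + ε / 4 * n) := by
              have e11 : 0 ≤ 1 + C1 / β + ε / 4 * n := by positivity
              calc (1 + κ) * (a * n / κ) ≤ (1 + κ) * (m + (1 + C1 / β + ε / 4 * n)) :=
                    mul_le_mul_of_nonneg_left (by linarith) (by linarith)
                _ = (1 + κ) * m + (1 + κ) * (1 + C1 / β + ε / 4 * n) := by ring
                _ ≤ (1 + κ) * m + 2 * (1 + C1 / β + ε / 4 * n) := by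
                    have := mul_le_mul_of_nonneg_right (show 1 + κ ≤ 2 by linarith) e11
                    linarith
            linarith
  exact key n hl'

end Pool.Agent.K6.H67.SR
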