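import Pool.Agent.K6.H67.SR.CountB
import Pool.Agent.K6.H67.SR.Super

/-!
# The final theorem
-/

set_option autoImplicit false

open Finset Filter Topology

namespace Pool.Agent.K6.H67.SR

/-- The number of pairs `(x, y)`, `y ≠ 0`, such that `x, x + y, ..., x + (k - 1) y` are in `A`. -/
noncomputable def numAP {V : Type*} [AddCommGroup V] (k : ℕ) (A : Finset V) : ℕ :=
  Nat.card {q : V × V // q.2 ≠ 0 ∧ ∀ j < k, q.1 + j • q.2 ∈ A}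

lemma numAP_eq {V : Type*} [AddCommGroup V] [Fintype V] [DecidableEq V] (k : ℕ) (A : Finset V) :
    numAP k A = (aps k A).card := by
  classical
  unfold numAP aps
  rw [Nat.card_eq_fintype_card, Fintype.card_subtype]

theorem main3 (k p : ℕ) [hp : Fact p.Prime] (hk : 3 ≤ k) (hkp : k ≤ p) :
    ∃ κ : ℝ, 0 ≤ κ ∧ κ ≤ 1 / k ∧
      Tendsto (fun n : ℕ => (r k p n : ℝ) ^ (1 / (n : ℝ))) atTop (𝓝 ((p : ℝ) ^ (1 - κ))) ∧
      (0 < κ → ∀ ε : ℝ, 0 < ε → ∃ n₀ : ℕ, ∀ n ≥ n₀, ∀ a : ℝ, 0 ≤ a → a ≤ κ - ε →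
        (∀ A : Finset (Fin n → ZMod p), (p : ℝ) ^ ((1 - a) * n) ≤ A.card →
          (p : ℝ) ^ ((2 - a - a / κ - ε) * n) ≤ numAP k A) ∧
        ∃ A : Finset (Fin n → ZMod p), (p : ℝ) ^ ((1 - a) * n) ≤ A.card ∧
          (numAP k A : ℝ) ≤ (p : ℝ) ^ ((2 - a - a / κ + ε) * n)) ∧
      ∀ ε : ℝ, 0 < ε → ε ≤ 1 / 2 → ∃ n₀ : ℕ, ∀ n ≥ n₀, ∀ s : ℝ, 0 ≤ s → s ≤ 1 - ε →
        (1 - (p : ℝ) ^ (-(ε / 8 * n)) ≤
          prob ((p : ℝ) ^ (-(s * n))) (fun R : Finset (Fin n → ZMod p) =>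
            (p : ℝ) ^ ((g k κ s - ε) * n) ≤ alpha k R ∧
              (alpha k R : ℝ) ≤ (p : ℝ) ^ ((g k κ s + ε) * n))) ∧
        (∀ t : ℕ, (t : ℝ) ≤ (p : ℝ) ^ ((g k κ s - ε) * n) →
          ((p : ℝ) ^ (s * n)) ^ t ≤ 2 * cnt k p n t) ∧
        (∀ t : ℕ, (p : ℝ) ^ ((g k κ s + ε) * n) ≤ t →
          (cnt k p n t : ℝ) ≤ (2 * (p : ℝ) ^ (s * n)) ^ t) := by
  have hp1 : (1 : ℝ) < p := p1
  have hp0 : (0 : ℝ) < p := p0
  have hk0 : (0 : ℝ) < k := by exact_mod_cast (by omega : 0 < k)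
  obtain ⟨κ, hκ0, hκk, hlim, hup, hlow⟩ := exists_kappa k p hk hkp
  refine ⟨κ, hκ0, hκk, hlim, ?_, ?_⟩
  · intro hκ ε hε
    have hκ1 : κ ≤ 1 := hκk.trans (by
      rw [div_le_one hk0]
      exact_mod_cast (by omega : 1 ≤ k))
    obtain ⟨n₀, hn₀⟩ := eventually_atTop.1 ((super_lower hk hκ hup hlow hε).and
      (super_upper hk hκ hκ1 hup hlow hε))
    refine ⟨n₀, fun n hn a ha0 ha1 => ⟨?_, ?_⟩⟩
    · intro A hA
      rw [numAP_eq]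
      exact (hn₀ n hn).1 a ha0 ha1 A hA
    · obtain ⟨A, h1, h2⟩ := (hn₀ n hn).2 a ha0 (by linarith)
      refine ⟨A, h1, ?_⟩
      rw [numAP_eq]
      exact h2
  intro ε hε hε1
  obtain ⟨n₁, hn₁⟩ := main_of hk hkp hκ0 hκk hup hlow ε hε hε1
  obtain ⟨n₂, hn₂⟩ := eventually_atTop.1 ((part_bound hk hkp hκ0 hκk hup hlow hε).and
    (eventually_const_le (p := p) (show 0 < ε / 8 by linarith) 2))
  refine ⟨max n₁ n₂, fun n hn s hs0 hs1 => ?_⟩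
  have h1 := hn₁ n ((le_max_left _ _).trans hn) s hs0 hs1
  obtain ⟨h2, h3⟩ := hn₂ n ((le_max_right _ _).trans hn)
  have h4 := h2 s hs0 (by linarith)
  refine ⟨h1, ?_, fun t ht => count_upper h4 ht⟩
  intro t ht
  refine count_lower hk (κ := κ) (ε := ε) hs0 ?_ ht
  have hρ0 : 0 ≤ (p : ℝ) ^ (-(s * n)) := by positivity
  have hρ1 : (p : ℝ) ^ (-(s * n)) ≤ 1 := by
    apply Real.rpow_le_one_of_one_le_of_nonpos hp1.le
    have : 0 ≤ s * n := by positivity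
    linarith
  obtain ⟨_, hmono, _⟩ := pieceE p k hk hkp (Fin n → ZMod p) ((p : ℝ) ^ (-(s * n))) hρ0 hρ1
  refine le_trans ?_ (h1.trans (hmono _ (fun R => (p : ℝ) ^ ((g k κ s - ε) * n) ≤ alpha k R)
    (fun R hR => hR.1)))
  have h5 : (p : ℝ) ^ (-(ε / 8 * n)) ≤ 1 / 2 := by
    rw [Real.rpow_neg hp0.le, ← one_div]
    exact one_div_le_one_div_of_le (by norm_num) h3
  linarith

end Pool.Agent.K6.H67.SR
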