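import Pool.Agent.K6.H67.SR.Defs
import Pool.Agent.H523R2.AP.Hash

/-!
# Linear hashing inside a set, and supersaturation (the proof of `hash_sub` is that of the starting
module `H523R2.AP.Hash`, with the additional information that the new set is a subset)
-/

set_option autoImplicit false

open Finset

namespace Pool.Agent.K6.H67.SR

open Pool.Agent.H523R2.AP (phi phi_add_smul card_kernel card_shift)

variable {p : ℕ} [hp : Fact p.Prime]
variable {V : Type*} [AddCommGroup V] [Module (ZMod p) V] [Fintype V] [DecidableEq V]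

theorem hash_sub (k m : ℕ) (hk : 1 ≤ k) (S : Finset V) (B : Finset (Fin m → ZMod p))
    (hB : APFree k B) :
    ∃ A : Finset V, A ⊆ S ∧ APFree k A ∧
      B.card * (p ^ m * S.card) ≤ A.card * p ^ (2 * m) + B.card * (aps k S).card := by
  classical
  set Λ := (Fin m → Module.Dual (ZMod p) V) with hΛ
  let S' : Λ × (Fin m → ZMod p) → Finset V := fun q => S.filter (fun w => phi q.1 w + q.2 ∈ B)
  let bad : Λ × (Fin m → ZMod p) → Finset (V × V) := fun q => aps k (S' q)
  let A : Λ × (Fin m → ZMod p) → Finset V := fun q => S' q \ (bad q).image Prod.fst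
  have hAfree : ∀ q, APFree k (A q) := by
    intro q x y hy h
    have h1 : ∀ j < k, x + j • y ∈ S' q := fun j hj => (mem_sdiff.1 (h j hj)).1
    have h2 : (x, y) ∈ bad q := mem_filter.2 ⟨mem_univ _, hy, h1⟩
    have h3 := h 0 (by omega)
    rw [zero_smul, add_zero] at h3
    exact (mem_sdiff.1 h3).2 (mem_image.2 ⟨(x, y), h2, rfl⟩)
  have hAsub : ∀ q, A q ⊆ S := fun q => sdiff_subset.trans (filter_subset _ _)
  have hcard : ∀ q, (S' q).card ≤ (A q).card + (bad q).card := by
    intro q
    have h1 : (S' q).card ≤ (A q).card + ((bad q).image Prod.fst).card := by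
      have := card_le_card (show S' q ⊆ A q ∪ (bad q).image Prod.fst by
        intro w hw
        by_cases h : w ∈ (bad q).image Prod.fst
        · exact mem_union_right _ h
        · exact mem_union_left _ (mem_sdiff.2 ⟨hw, h⟩))
      exact this.trans (card_union_le _ _)
    exact h1.trans (Nat.add_le_add_left card_image_le _)
  by_contra hcon
  push Not at hcon
  have hlt : ∀ q, (A q).card * p ^ (2 * m) + B.card * (aps k S).card
      < B.card * (p ^ m * S.card) := fun q => hcon (A q) (hAsub q) (hAfree q)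
  -- sums
  have sumS : ∑ q, (S' q).card = S.card * (Fintype.card Λ * B.card) := by
    have : ∀ q, (S' q).card = ∑ w ∈ S, if phi q.1 w + q.2 ∈ B then 1 else 0 := by
      intro q; rw [card_filter]
    rw [sum_congr rfl (fun q _ => this q), sum_comm, ← smul_eq_mul, ← sum_const]
    apply sum_congr rfl
    intro w _
    rw [Fintype.sum_prod_type]
    have h2 : ∀ L : Λ, ∑ s : Fin m → ZMod p, (if phi L w + s ∈ B then 1 else 0) = B.card := by
      intro L
      rw [← card_filter, card_shift]
    rw [sum_congr rfl (fun L _ => h2 L), sum_const, card_univ, smul_eq_mul]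
  have sumBad : p ^ m * ∑ q, (bad q).card ≤ (aps k S).card * (Fintype.card Λ * B.card) := by
    have h1 : ∀ q, (bad q).card ≤ ∑ e ∈ aps k S,
        if (phi q.1 e.2 = 0 ∧ phi q.1 e.1 + q.2 ∈ B) then 1 else 0 := by
      intro q
      rw [← card_filter]
      apply card_le_card
      intro e he
      obtain ⟨_, hne, hS⟩ := mem_filter.1 he
      have hBm : ∀ j < k, phi q.1 e.1 + q.2 + j • phi q.1 e.2 ∈ B := by
        intro j hj
        have := (mem_filter.1 (hS j hj)).2
        rw [phi_add_smul] at this
        rwa [add_right_comm] at this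
      refine mem_filter.2 ⟨mem_filter.2 ⟨mem_univ _, hne, fun j hj =>
        (mem_filter.1 (hS j hj)).1⟩, ?_, ?_⟩
      · by_contra h
        exact hB _ _ h hBm
      · have := hBm 0 (by omega)
        rwa [zero_smul, add_zero] at this
    calc p ^ m * ∑ q, (bad q).card
        ≤ p ^ m * ∑ q : Λ × (Fin m → ZMod p), ∑ e ∈ aps k S,
          (if (phi q.1 e.2 = 0 ∧ phi q.1 e.1 + q.2 ∈ B) then 1 else 0) :=
          Nat.mul_le_mul_left _ (sum_le_sum fun q _ => h1 q)
      _ = ∑ e ∈ aps k S, p ^ m * ∑ q : Λ × (Fin m → ZMod p),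
          (if (phi q.1 e.2 = 0 ∧ phi q.1 e.1 + q.2 ∈ B) then 1 else 0) := by
          rw [sum_comm, mul_sum]
      _ = ∑ e ∈ aps k S, Fintype.card Λ * B.card := by
          apply sum_congr rfl
          intro e he
          have hne : e.2 ≠ 0 := (mem_filter.1 he).2.1
          rw [Fintype.sum_prod_type]
          have h2 : ∀ L : Λ, ∑ s : Fin m → ZMod p,
              (if (phi L e.2 = 0 ∧ phi L e.1 + s ∈ B) then 1 else 0)
              = if phi L e.2 = 0 then B.card else 0 := by
            intro L
            by_cases h : phi L e.2 = 0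
            · simp only [h, true_and, if_true]
              rw [← card_filter, card_shift]
            · simp [h]
          rw [sum_congr rfl (fun L _ => h2 L), ← sum_filter, sum_const, smul_eq_mul,
            ← mul_assoc, card_kernel m e.2 hne]
      _ = _ := by rw [sum_const, smul_eq_mul]
  have hne : (univ : Finset (Λ × (Fin m → ZMod p))).Nonempty := univ_nonempty
  have sumlt : ∑ q : Λ × (Fin m → ZMod p), ((A q).card * p ^ (2 * m) + B.card * (aps k S).card)
      < ∑ q : Λ × (Fin m → ZMod p), B.card * (p ^ m * S.card) :=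
    sum_lt_sum_of_nonempty hne fun q _ => hlt q
  rw [sum_add_distrib, sum_const, sum_const, card_univ, Fintype.card_prod, smul_eq_mul,
    smul_eq_mul, ← sum_mul, Fintype.card_fun (α := Fin m) (β := ZMod p), Fintype.card_fin,
    ZMod.card] at sumlt
  have hsum2 : ∑ q, (S' q).card ≤ ∑ q, (A q).card + ∑ q, (bad q).card := by
    rw [← sum_add_distrib]
    exact sum_le_sum fun q _ => hcard q
  rw [sumS] at hsum2
  have e2 : p ^ (2 * m) = p ^ m * p ^ m := by rw [two_mul, pow_add]
  rw [e2] at sumlt
  have h5 := Nat.mul_le_mul_left (p ^ m * p ^ m) hsum2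
  have h6 := Nat.mul_le_mul_left (p ^ m) sumBad
  set a := ∑ q, (A q).card
  set b := ∑ q, (bad q).card
  set P := p ^ m
  set c := Fintype.card Λ
  set T := (aps k S).card
  have h7 : P * P * (S.card * (c * B.card)) ≤ P * P * a + P * (T * (c * B.card)) := by
    calc _ ≤ P * P * (a + b) := h5
      _ = P * P * a + P * (P * b) := by ring
      _ ≤ _ := Nat.add_le_add_left h6 _
  have h8 : a * (P * P) + c * P * (B.card * T) < c * P * (B.card * (P * S.card)) := sumlt
  have h9 : P * P * (S.card * (c * B.card)) = c * P * (B.card * (P * S.card)) := by ring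
  have h10 : P * P * a + P * (T * (c * B.card)) = a * (P * P) + c * P * (B.card * T) := by ring
  rw [h9, h10] at h7
  exact absurd h8 (not_lt.2 h7)

/-! `r` -/

lemma bdd_r (k n : ℕ) : BddAbove {t | ∃ A : Finset (Fin n → ZMod p), APFree k A ∧ A.card = t} := by
  refine ⟨p ^ n, ?_⟩
  rintro t ⟨A, _, rfl⟩
  have := card_le_univ A
  rwa [Fintype.card_fun, Fintype.card_fin, ZMod.card] at this

lemma card_le_r {k n : ℕ} {A : Finset (Fin n → ZMod p)} (h : APFree k A) : A.card ≤ r k p n :=
  le_csSup (bdd_r k n) ⟨A, h, rfl⟩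

lemma exists_r {k : ℕ} (hk : 1 ≤ k) (n : ℕ) :
    ∃ A : Finset (Fin n → ZMod p), APFree k A ∧ A.card = r k p n :=
  Nat.sSup_mem (s := {t | ∃ A : Finset (Fin n → ZMod p), APFree k A ∧ A.card = t})
    ⟨0, ∅, fun x y _ h => by simpa using h 0 (by omega), rfl⟩ (bdd_r k n)

lemma one_le_r {k : ℕ} (hk : 2 ≤ k) (n : ℕ) : 1 ≤ r k p n := by
  have h : APFree k ({0} : Finset (Fin n → ZMod p)) := by
    intro x y hy h
    have h0 := h 0 (by omega)
    have h1 := h 1 (by omega)
    rw [mem_singleton] at h0 h1
    rw [zero_smul, add_zero] at h0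
    rw [h0, one_smul, zero_add] at h1
    exact hy h1
  simpa using card_le_r h

/-- Sharp supersaturation. -/
theorem supersat {k n : ℕ} (hk : 2 ≤ k) (m : ℕ) (U : Finset (Fin n → ZMod p))
    (h : 2 * r k p n * p ^ m < U.card * r k p m) : p ^ m * U.card < 2 * (aps k U).card := by
  obtain ⟨B, hB, hBc⟩ := exists_r (p := p) (k := k) (by omega) m
  obtain ⟨A, _, hA, hc⟩ := hash_sub (p := p) k m (by omega) U B hB
  have h1 := card_le_r hA
  rw [hBc] at hc
  have hr := one_le_r (p := p) hk m
  have hpm : 0 < p ^ m := Nat.pow_pos hp.out.pos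
  have e2 : p ^ (2 * m) = p ^ m * p ^ m := by rw [two_mul, pow_add]
  rw [e2] at hc
  set P := p ^ m
  set R := r k p m
  set T := (aps k U).card
  have h2 : A.card * (P * P) ≤ r k p n * (P * P) := Nat.mul_le_mul_right _ h1
  have h3 : 2 * r k p n * P * P < U.card * R * P := (Nat.mul_lt_mul_right hpm).2 h
  have h4 : R * (P * U.card) < 2 * (R * T) := by nlinarith
  have h5 : R * (P * U.card) < R * (2 * T) := by
    calc _ < 2 * (R * T) := h4
      _ = _ := by ring
  exact lt_of_mul_lt_mul_left h5 (Nat.zero_le _)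

end Pool.Agent.K6.H67.SR
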