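import Pool.Agent.K6.H67.SR.Hash

/-!
# Containers for progression-free sets
-/

set_option autoImplicit false

open Finset

namespace Pool.Agent.K6.H67.SR

open Pool.Agent.Y940.CT

variable {p : ℕ} [hp : Fact p.Prime]

/-- the threshold -/
noncomputable def u (p : ℕ) (κ ε c : ℝ) (n j : ℕ) : ℝ :=
  4 / c * (p : ℝ) ^ ((1 - κ) * n + (κ + ε) * j)

lemma back_map {V : Type*} [Fintype V] (f : V ↪ ℕ) (U : Finset V) : back f (U.map f) = U := by
  classical
  ext v
  unfold back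
  simp

lemma map_back {V : Type*} [Fintype V] (f : V ↪ ℕ) {W : Finset ℕ} (h : W ⊆ univ.map f) :
    (back f W).map f = W := by
  classical
  ext x
  unfold back
  simp only [mem_map, mem_filter, mem_univ, true_and]
  constructor
  · rintro ⟨v, h1, rfl⟩
    exact h1
  · intro hx
    obtain ⟨v, _, rfl⟩ := mem_map.1 (h hx)
    exact ⟨v, hx, rfl⟩

lemma back_mono {V : Type*} [Fintype V] (f : V ↪ ℕ) {I J : Finset ℕ} (h : I ⊆ J) :
    back f I ⊆ back f J := fun _ hv => mem_filter.2 ⟨mem_univ _, h (mem_filter.1 hv).2⟩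

lemma APFree.mono {V : Type*} [AddCommGroup V] {k : ℕ} {A B : Finset V} (h : APFree k B)
    (hAB : A ⊆ B) : APFree k A := fun x y hy hx => h x y hy fun j hj => hAB (hx j hj)

lemma p1 : (1 : ℝ) < p := by exact_mod_cast hp.out.one_lt
lemma p0 : (0 : ℝ) < p := by exact_mod_cast hp.out.pos

/-- One step. -/
theorem step (hB : PieceB) {k : ℕ} (hk : 3 ≤ k) (hkp : k ≤ p) {κ ε c : ℝ} (hκ : 0 < κ)
    (hκk : κ ≤ 1 / k) (hε : 0 < ε) (hβ : κ + ε < 1 / ((k : ℝ) - 1)) (hc : 0 < c) (hc1 : c ≤ 1)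
    (hup : ∀ n : ℕ, (r k p n : ℝ) ≤ (p : ℝ) ^ ((1 - κ) * n))
    (hlow : ∀ j : ℕ, c * (p : ℝ) ^ ((1 - κ - ε) * j) ≤ r k p j) :
    ∃ δ : ℝ, 0 < δ ∧ δ ≤ 1 ∧ ∀ n : ℕ, 1 ≤ n → ∀ (f : (Fin n → ZMod p) ↪ ℕ) (m : ℕ),
      8 * (k : ℝ) ^ 2 ≤ (p : ℝ) ^ m → ∀ ρ : ℝ,
      8 * (k : ℝ) ^ 4 * (p : ℝ) ^ (-(m : ℝ) / ((k : ℝ) - 1)) ≤ 1 →
      8 * (k : ℝ) ^ 4 * (p : ℝ) ^ (-(m : ℝ) / ((k : ℝ) - 1)) ≤ ρ → ρ ≤ 3 →
      ∀ (U : Finset (Fin n → ZMod p)) (j : ℕ), m ≤ j → u p κ ε c n j < U.card →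
        (U.card : ℝ) ≤ u p κ ε c n (j + 1) →
        RCov ρ ∅ (fun I => I ⊆ U.map f ∧ APFree k (back f I)) (U.map f)
          (Real.exp (((k : ℝ) - 1) * (5 + 2 * Real.log p) * p * n * ρ * u p κ ε c n m))
          ((1 - δ) * (U.map f).card) := by
  have hk3 : (3 : ℝ) ≤ k := by exact_mod_cast hk
  have hk1 : (0 : ℝ) < (k : ℝ) - 1 := by linarith
  have hp1 : (1 : ℝ) < p := p1
  have hp0 : (0 : ℝ) < p := p0
  have hlogp : 0 < Real.log p := Real.log_pos hp1
  obtain ⟨δ, hδ0, hδ1, hδ⟩ := rcontainers k (by omega) (2 * k + 1) (by linarith)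
  refine ⟨δ, hδ0, hδ1, ?_⟩
  intro n hn f m hm ρ hτm1 hτmρ hρ3 U j hmj hlo hhi
  have hn1 : (1 : ℝ) ≤ n := by exact_mod_cast hn
  have hmj' : (m : ℝ) ≤ j := by exact_mod_cast hmj
  have hj0 : (0 : ℝ) ≤ j := Nat.cast_nonneg j
  have hcardU : (U.card : ℝ) ≤ (p : ℝ) ^ (n : ℝ) := by
    have := card_le_univ U
    rw [Fintype.card_fun, Fintype.card_fin, ZMod.card] at this
    rw [Real.rpow_natCast]
    exact_mod_cast this
  have h4c : (1 : ℝ) ≤ 4 / c := by
    rw [le_div_iff₀ hc]; linarith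
  -- the lower bound for `u`
  have hu1 : (p : ℝ) ^ ((1 - κ) * n + (κ + ε) * j) ≤ u p κ ε c n j := by
    unfold u
    exact le_mul_of_one_le_left (by positivity) h4c
  -- `j ≤ n`
  have hjn : (j : ℝ) ≤ n := by
    have h1 : (p : ℝ) ^ ((1 - κ) * n + (κ + ε) * j) < (p : ℝ) ^ (n : ℝ) :=
      (hu1.trans_lt hlo).trans_le hcardU
    rw [Real.rpow_lt_rpow_left_iff hp1] at h1
    have h2 : κ * j < κ * n := by
      have e1 : (1 - κ) * (n : ℝ) = n - κ * n := by ring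
      have e2 : (κ + ε) * (j : ℝ) = κ * j + ε * j := by ring
      have e3 := mul_nonneg hε.le hj0
      rw [e1, e2] at h1
      linarith
    exact (lt_of_mul_lt_mul_left h2 hκ.le).le
  set τ : ℝ := 8 * (k : ℝ) ^ 4 * (p : ℝ) ^ (-(j : ℝ) / ((k : ℝ) - 1)) with hτdef
  have hk4 : (1 : ℝ) ≤ (k : ℝ) ^ 4 := one_le_pow₀ (by linarith)
  have hτ0 : 0 < τ := by positivity
  clear_value τ
  have hτm : τ ≤ 8 * (k : ℝ) ^ 4 * (p : ℝ) ^ (-(m : ℝ) / ((k : ℝ) - 1)) := by
    rw [hτdef]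
    refine mul_le_mul_of_nonneg_left ?_ (by positivity)
    rw [Real.rpow_le_rpow_left_iff hp1]
    exact div_le_div_of_nonneg_right (by linarith) hk1.le
  have hτ1 : τ ≤ 1 := hτm.trans hτm1
  have hτρ : τ ≤ ρ := hτm.trans hτmρ
  have hρ0 : 0 < ρ := hτ0.trans_le hτρ
  have hUpos : (0 : ℝ) < U.card := lt_of_lt_of_le (by positivity) (hu1.trans hlo.le)
  have hUne : U.Nonempty := card_pos.1 (by exact_mod_cast hUpos)
  -- the supersaturation
  have hss : ∀ U' ⊆ U, U.card ≤ 2 * U'.card →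
      ((p : ℝ) ^ j / 2) * U'.card ≤ ((aps k U').card : ℝ) := by
    intro U' _ hU'2
    have h1 : (U.card : ℝ) ≤ 2 * U'.card := by exact_mod_cast hU'2
    have h2 : 2 * r k p n * p ^ j < U'.card * r k p j := by
      have h3 : (2 : ℝ) * r k p n * (p : ℝ) ^ j < U'.card * r k p j := by
        have h4 : 2 / c * (p : ℝ) ^ ((1 - κ) * n + (κ + ε) * j) < U'.card := by
          have h5 : u p κ ε c n j = 2 * (2 / c * (p : ℝ) ^ ((1 - κ) * n + (κ + ε) * j)) := by
            unfold u; ring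
          rw [h5] at hlo
          linarith
        have h6 : (0 : ℝ) < r k p j := lt_of_lt_of_le (by positivity) (hlow j)
        calc (2 : ℝ) * r k p n * (p : ℝ) ^ j
            ≤ 2 * (p : ℝ) ^ ((1 - κ) * n) * (p : ℝ) ^ j := by
              have := hup n
              gcongr
          _ = 2 / c * (p : ℝ) ^ ((1 - κ) * n + (κ + ε) * j) *
              (c * (p : ℝ) ^ ((1 - κ - ε) * j)) := by
              rw [← Real.rpow_natCast (p : ℝ) j]
              have e1 : 2 / c * (p : ℝ) ^ ((1 - κ) * n + (κ + ε) * j) *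
                (c * (p : ℝ) ^ ((1 - κ - ε) * j)) = 2 * ((p : ℝ) ^ ((1 - κ) * n + (κ + ε) * j) *
                  (p : ℝ) ^ ((1 - κ - ε) * j)) := by
                field_simp
              rw [e1, ← Real.rpow_add hp0, mul_assoc, ← Real.rpow_add hp0]
              congr 2
              ring
          _ ≤ 2 / c * (p : ℝ) ^ ((1 - κ) * n + (κ + ε) * j) * r k p j :=
              mul_le_mul_of_nonneg_left (hlow j) (by positivity)
          _ < U'.card * r k p j := mul_lt_mul_of_pos_right h4 h6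
      exact_mod_cast h3
    have h7 := supersat (p := p) (by omega) j U' h2
    have h8 : (p : ℝ) ^ j * U'.card < 2 * ((aps k U').card : ℝ) := by exact_mod_cast h7
    linarith
  have ha : 4 * (k : ℝ) ^ 2 ≤ (p : ℝ) ^ j / 2 := by
    have : (p : ℝ) ^ m ≤ (p : ℝ) ^ j := pow_le_pow_right₀ hp1.le hmj
    linarith
  have hτk : 4 * (k : ℝ) ^ 4 ≤ (p : ℝ) ^ j / 2 * τ ^ (k - 1) := by
    have h1 : τ ^ (k - 1) = (8 * (k : ℝ) ^ 4) ^ (k - 1) * (p : ℝ) ^ (-(j : ℝ)) := by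
      rw [hτdef, mul_pow]
      congr 1
      rw [← Real.rpow_natCast ((p : ℝ) ^ (-(j : ℝ) / ((k : ℝ) - 1))) (k - 1), ← Real.rpow_mul hp0.le,
        Nat.cast_sub (by omega : 1 ≤ k), Nat.cast_one]
      congr 1
      field_simp
    have h2 : 8 * (k : ℝ) ^ 4 ≤ (8 * (k : ℝ) ^ 4) ^ (k - 1) := by
      have := pow_le_pow_right₀ (a := 8 * (k : ℝ) ^ 4) (by linarith) (by omega : 1 ≤ k - 1)
      rwa [pow_one] at this
    have h3 : (p : ℝ) ^ j * (p : ℝ) ^ (-(j : ℝ)) = 1 := by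
      rw [Real.rpow_neg hp0.le, Real.rpow_natCast]
      exact mul_inv_cancel₀ (by positivity)
    rw [h1]
    calc 4 * (k : ℝ) ^ 4 = (8 * (k : ℝ) ^ 4) / 2 * ((p : ℝ) ^ j * (p : ℝ) ^ (-(j : ℝ))) := by
          rw [h3]; ring
      _ ≤ (8 * (k : ℝ) ^ 4) ^ (k - 1) / 2 * ((p : ℝ) ^ j * (p : ℝ) ^ (-(j : ℝ))) := by
          have : 0 ≤ (p : ℝ) ^ j * (p : ℝ) ^ (-(j : ℝ)) := by positivity
          gcongr
      _ = _ := by ring
  obtain ⟨w, hw, hind⟩ := hB p k hk hkp (Fin n → ZMod p) f U ((p : ℝ) ^ j / 2) τ hUne ha hss hτ0 hτ1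
    hτk
  -- the number `q`
  have hcard : ((U.map f).card : ℝ) = U.card := by rw [card_map]
  set x : ℝ := (U.map f).card * τ with hx
  have hx1 : 1 ≤ x := by
    rw [hx, hcard]
    have h1 : (p : ℝ) ^ ((1 - κ) * n) ≤ U.card := by
      refine le_trans ?_ (hu1.trans hlo.le)
      rw [Real.rpow_le_rpow_left_iff hp1]
      have : 0 ≤ (κ + ε) * j := by positivity
      linarith
    have h2 : (p : ℝ) ^ (-(n : ℝ) / ((k : ℝ) - 1)) ≤ τ := by
      rw [hτdef]
      refine le_trans ?_ (le_mul_of_one_le_left (by positivity) (by linarith))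
      rw [Real.rpow_le_rpow_left_iff hp1]
      exact div_le_div_of_nonneg_right (by linarith) hk1.le
    have h3 : 1 ≤ (p : ℝ) ^ ((1 - κ) * n) * (p : ℝ) ^ (-(n : ℝ) / ((k : ℝ) - 1)) := by
      rw [← Real.rpow_add hp0]
      apply Real.one_le_rpow hp1.le
      have h4 : 0 ≤ 1 - 1 / (k : ℝ) - 1 / ((k : ℝ) - 1) := by
        have hk0 : (0 : ℝ) < k := by linarith
        have h5 : 1 / (k : ℝ) ≤ 1 / 3 := by
          apply one_div_le_one_div_of_le <;> linarith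
        have h6 : 1 / ((k : ℝ) - 1) ≤ 1 / 2 := by
          apply one_div_le_one_div_of_le <;> linarith
        linarith
      have h5 : (1 - κ) * n + -(n : ℝ) / ((k : ℝ) - 1) = (1 - κ - 1 / ((k : ℝ) - 1)) * n := by
        field_simp
        ring
      rw [h5]
      apply mul_nonneg _ (by linarith)
      linarith
    calc (1 : ℝ) ≤ _ := h3
      _ ≤ U.card * τ := mul_le_mul h1 h2 (by positivity) (by positivity)
  clear_value x
  obtain ⟨q, hq1, hxq⟩ : ∃ q : ℕ, x ≤ (q : ℝ) ∧ (q : ℝ) ≤ 2 * x :=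
    ⟨⌈x⌉₊, Nat.le_ceil x, by
      have := (Nat.ceil_lt_add_one (by linarith : (0 : ℝ) ≤ x)).le
      linarith⟩
  have hq2 : (q : ℝ) ≤ 2 * τ * (U.map f).card := by
    have e : 2 * τ * (U.map f).card = 2 * x := by rw [hx]; ring
    rw [e]; exact hxq
  have hD : (0 : ℝ) < (p : ℝ) ^ j / 2 / (4 * (k : ℝ) ^ 2) := by positivity
  have key := hδ (U.map f) w ((p : ℝ) ^ j / 2 / (4 * (k : ℝ) ^ 2)) τ ρ q hD hτ0 hτρ
    (by rw [← hx]; exact hq1) hq2 hw ∅ (empty_subset _)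
  refine key.mono (fun I _ hI => ⟨hI.1, hind I hI.2⟩) ?_ le_rfl
  -- the bound for the weight
  have hq0 : (0 : ℝ) ≤ q := Nat.cast_nonneg _
  have hρτ : Real.log (ρ / τ) ≤ (2 + Real.log p) * n := by
    have h1 : ρ / τ ≤ 3 * (p : ℝ) ^ (n : ℝ) := by
      rw [div_le_iff₀ hτ0]
      have h2 : (p : ℝ) ^ (-(n : ℝ)) ≤ τ := by
        rw [hτdef]
        refine le_trans ?_ (le_mul_of_one_le_left (by positivity) (by linarith))
        rw [Real.rpow_le_rpow_left_iff hp1, neg_div, neg_le_neg_iff]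
        refine (div_le_self hj0 (by linarith)).trans hjn
      calc ρ ≤ 3 := hρ3
        _ = 3 * ((p : ℝ) ^ (n : ℝ) * (p : ℝ) ^ (-(n : ℝ))) := by
            rw [← Real.rpow_add hp0]; simp
        _ ≤ 3 * ((p : ℝ) ^ (n : ℝ) * τ) := by gcongr
        _ = _ := by ring
    calc Real.log (ρ / τ) ≤ Real.log (3 * (p : ℝ) ^ (n : ℝ)) :=
          Real.log_le_log (by positivity) h1
      _ = Real.log 3 + n * Real.log p := by
          rw [Real.log_mul (by norm_num) (by positivity), Real.log_rpow hp0]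
      _ ≤ 2 + n * Real.log p := by
          have : Real.log 3 ≤ 3 - 1 := Real.log_le_sub_one_of_pos (by norm_num)
          linarith
      _ ≤ (2 + Real.log p) * n := by
          have e1 : (2 + Real.log p) * (n : ℝ) = 2 * n + n * Real.log p := by ring
          rw [e1]
          linarith
  have hρτ0 : 0 ≤ Real.log (ρ / τ) := Real.log_nonneg (by rwa [le_div_iff₀ hτ0, one_mul])
  have hw1 : (ρ / τ) ^ q * (1 + τ) ^ (U.map f).card ≤
      Real.exp ((5 + 2 * Real.log p) * n * x) := by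
    have h1 : (ρ / τ) ^ q = Real.exp (q * Real.log (ρ / τ)) := by
      rw [mul_comm, Real.exp_mul, Real.exp_log (by positivity), Real.rpow_natCast]
    have h2 : (1 + τ) ^ (U.map f).card ≤ Real.exp x := by
      calc (1 + τ) ^ (U.map f).card ≤ (Real.exp τ) ^ (U.map f).card := by
            apply pow_le_pow_left₀ (by linarith)
            have := Real.add_one_le_exp τ
            linarith
        _ = Real.exp x := by rw [← Real.exp_nat_mul, hx]
    rw [h1]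
    calc Real.exp (q * Real.log (ρ / τ)) * (1 + τ) ^ (U.map f).card
        ≤ Real.exp (q * Real.log (ρ / τ)) * Real.exp x := by gcongr
      _ = Real.exp (q * Real.log (ρ / τ) + x) := by rw [Real.exp_add]
      _ ≤ _ := by
          apply Real.exp_le_exp.2
          have h3 : (q : ℝ) * Real.log (ρ / τ) ≤ 2 * x * ((2 + Real.log p) * n) :=
            mul_le_mul hxq hρτ hρτ0 (by linarith)
          have h4 : x ≤ x * n := le_mul_of_one_le_right (by linarith) hn1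
          have h5 : (5 + 2 * Real.log p) * n * x = 2 * x * ((2 + Real.log p) * n) + x * n := by ring
          linarith
  have hxu : x ≤ p * ρ * u p κ ε c n m := by
    rw [hx, hcard]
    have h1 : u p κ ε c n (j + 1) * τ ≤
        p * (8 * (k : ℝ) ^ 4 * (p : ℝ) ^ (-(m : ℝ) / ((k : ℝ) - 1))) * u p κ ε c n m := by
      unfold u
      rw [hτdef]
      push_cast
      have e1 : 4 / c * (p : ℝ) ^ ((1 - κ) * n + (κ + ε) * ((j : ℝ) + 1)) *
          (8 * (k : ℝ) ^ 4 * (p : ℝ) ^ (-(j : ℝ) / ((k : ℝ) - 1))) =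
          4 / c * (8 * (k : ℝ) ^ 4) * (p : ℝ) ^ ((1 - κ) * n + (κ + ε) * ((j : ℝ) + 1) +
            -(j : ℝ) / ((k : ℝ) - 1)) := by
        rw [Real.rpow_add hp0 ((1 - κ) * n + (κ + ε) * ((j : ℝ) + 1))]; ring
      have e2 : (p : ℝ) * (8 * (k : ℝ) ^ 4 * (p : ℝ) ^ (-(m : ℝ) / ((k : ℝ) - 1))) *
          (4 / c * (p : ℝ) ^ ((1 - κ) * n + (κ + ε) * m)) =
          4 / c * (8 * (k : ℝ) ^ 4) * (p : ℝ) ^ (1 + -(m : ℝ) / ((k : ℝ) - 1) +
            ((1 - κ) * n + (κ + ε) * m)) := by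
        rw [Real.rpow_add hp0 (1 + -(m : ℝ) / ((k : ℝ) - 1)), Real.rpow_add hp0 1, Real.rpow_one]
        ring
      rw [e1, e2]
      refine mul_le_mul_of_nonneg_left ?_ (by positivity)
      rw [Real.rpow_le_rpow_left_iff hp1]
      have h3 : (κ + ε) * (j - m : ℝ) ≤ (j - m : ℝ) / ((k : ℝ) - 1) := by
        rw [div_eq_mul_one_div, mul_comm]
        exact mul_le_mul_of_nonneg_left hβ.le (by linarith)
      have h4 : κ + ε ≤ 1 := by
        have : 1 / ((k : ℝ) - 1) ≤ 1 := by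
          rw [div_le_one hk1]; linarith
        linarith
      have h5 : (j - m : ℝ) / ((k : ℝ) - 1) = (j : ℝ) / ((k : ℝ) - 1) - m / ((k : ℝ) - 1) := by ring
      have h6 : -(j : ℝ) / ((k : ℝ) - 1) = - ((j : ℝ) / ((k : ℝ) - 1)) := by ring
      have h7 : -(m : ℝ) / ((k : ℝ) - 1) = - ((m : ℝ) / ((k : ℝ) - 1)) := by ring
      rw [h6, h7]
      rw [h5] at h3
      have e3 : (κ + ε) * ((j : ℝ) + 1) = (κ + ε) * (j - m : ℝ) + (κ + ε) * m + (κ + ε) := by ring
      rw [e3]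
      linarith
    have hupos : 0 ≤ u p κ ε c n m := by unfold u; positivity
    calc (U.card : ℝ) * τ ≤ u p κ ε c n (j + 1) * τ := mul_le_mul_of_nonneg_right hhi hτ0.le
      _ ≤ _ := h1
      _ ≤ p * ρ * u p κ ε c n m := by gcongr
  have hkk : ((k - 1 : ℕ) : ℝ) = (k : ℝ) - 1 := by
    rw [Nat.cast_sub (by omega), Nat.cast_one]
  calc ((ρ / τ) ^ q * (1 + τ) ^ (U.map f).card) ^ (k - 1)
      ≤ (Real.exp ((5 + 2 * Real.log p) * n * x)) ^ (k - 1) :=
        pow_le_pow_left₀ (by positivity) hw1 _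
    _ = Real.exp (((k : ℝ) - 1) * ((5 + 2 * Real.log p) * n * x)) := by
        rw [← Real.exp_nat_mul, hkk]
    _ ≤ _ := by
        apply Real.exp_le_exp.2
        have h1 : (5 + 2 * Real.log p) * n * x ≤ (5 + 2 * Real.log p) * n *
            (p * ρ * u p κ ε c n m) := mul_le_mul_of_nonneg_left hxu (by positivity)
        calc ((k : ℝ) - 1) * ((5 + 2 * Real.log p) * n * x)
            ≤ ((k : ℝ) - 1) * ((5 + 2 * Real.log p) * n * (p * ρ * u p κ ε c n m)) :=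
              mul_le_mul_of_nonneg_left h1 hk1.le
          _ = _ := by ring

end Pool.Agent.K6.H67.SR
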