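import Pool.Agent.K6.H67.SR.Iter

/-!
# Containers for progression-free sets: the iteration
-/

set_option autoImplicit false

open Finset

namespace Pool.Agent.K6.H67.SR

open Pool.Agent.Y940.CT

variable {p : ℕ} [hp : Fact p.Prime]

lemma u_nonneg {κ ε c : ℝ} (hc : 0 < c) (n j : ℕ) : 0 ≤ u p κ ε c n j := by
  unfold u
  have := p0 (p := p)
  positivity

lemma one_le_u {κ ε c : ℝ} (hκ : 0 < κ) (hκ1 : κ ≤ 1) (hε : 0 < ε) (hc : 0 < c) (hc1 : c ≤ 1)
    (n j : ℕ) : 1 ≤ u p κ ε c n j := by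
  unfold u
  have h4c : (1 : ℝ) ≤ 4 / c := by
    rw [le_div_iff₀ hc]; linarith
  have h1 : 1 ≤ (p : ℝ) ^ ((1 - κ) * n + (κ + ε) * j) := by
    apply Real.one_le_rpow p1.le
    have : 0 ≤ 1 - κ := by linarith
    positivity
  calc (1 : ℝ) = 1 * 1 := by ring
    _ ≤ _ := mul_le_mul h4c h1 zero_le_one (by linarith)

/-- The containers. -/
theorem containers_aps (hB : PieceB) {k : ℕ} (hk : 3 ≤ k) (hkp : k ≤ p) {κ ε c : ℝ} (hκ : 0 < κ)
    (hκk : κ ≤ 1 / k) (hε : 0 < ε) (hβ : κ + ε < 1 / ((k : ℝ) - 1)) (hc : 0 < c) (hc1 : c ≤ 1)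
    (hup : ∀ n : ℕ, (r k p n : ℝ) ≤ (p : ℝ) ^ ((1 - κ) * n))
    (hlow : ∀ j : ℕ, c * (p : ℝ) ^ ((1 - κ - ε) * j) ≤ r k p j) :
    ∃ C : ℝ, 0 < C ∧ ∀ n : ℕ, 1 ≤ n → ∀ (f : (Fin n → ZMod p) ↪ ℕ) (m : ℕ),
      8 * (k : ℝ) ^ 2 ≤ (p : ℝ) ^ m → ∀ ρ : ℝ,
      8 * (k : ℝ) ^ 4 * (p : ℝ) ^ (-(m : ℝ) / ((k : ℝ) - 1)) ≤ 1 →
      8 * (k : ℝ) ^ 4 * (p : ℝ) ^ (-(m : ℝ) / ((k : ℝ) - 1)) ≤ ρ → ρ ≤ 3 →
      RCov ρ ∅ (fun I => I ⊆ univ.map f ∧ APFree k (back f I)) (univ.map f)
        (Real.exp (C * n ^ 2 * ρ * u p κ ε c n m)) (u p κ ε c n m) := by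
  have hk3 : (3 : ℝ) ≤ k := by exact_mod_cast hk
  have hk1 : (0 : ℝ) < (k : ℝ) - 1 := by linarith
  have hp1 : (1 : ℝ) < p := p1
  have hp0 : (0 : ℝ) < p := p0
  have hlogp : 0 < Real.log p := Real.log_pos hp1
  have hκ1 : κ ≤ 1 := hκk.trans (by rw [div_le_one (by linarith)]; linarith)
  obtain ⟨δ, hδ0, hδ1, hstep⟩ := step hB hk hkp hκ hκk hε hβ hc hc1 hup hlow
  set C1 : ℝ := ((k : ℝ) - 1) * (5 + 2 * Real.log p) * p with hC1
  have hC1pos : 0 < C1 := by positivity
  refine ⟨(Real.log p / δ + 1) * C1, by positivity, ?_⟩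
  intro n hn f m hm ρ h1 h2 h3
  have hn1 : (1 : ℝ) ≤ n := by exact_mod_cast hn
  have hρ0 : 0 < ρ := lt_of_lt_of_le (by positivity) h2
  have hu0 := u_nonneg (p := p) (κ := κ) (ε := ε) hc n m
  have hu1 := one_le_u (p := p) hκ hκ1 hε hc hc1 n m
  set A : ℝ := C1 * n * ρ * u p κ ε c n m with hA
  have hA0 : 0 ≤ A := by positivity
  have hstep' : ∀ (U : Finset (Fin n → ZMod p)) (j : ℕ), m ≤ j → u p κ ε c n j < U.card →
        (U.card : ℝ) ≤ u p κ ε c n (j + 1) →
        RCov ρ ∅ (fun I => I ⊆ U.map f ∧ APFree k (back f I)) (U.map f) (Real.exp A)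
          ((1 - δ) * (U.map f).card) := hstep n hn f m hm ρ h1 h2 h3
  -- the iteration
  have iter : ∀ t : ℕ, ∀ W : Finset ℕ, W ⊆ univ.map f → (W.card : ℝ) * (1 - δ) ^ t ≤ u p κ ε c n m →
      RCov ρ ∅ (fun I => I ⊆ W ∧ APFree k (back f I)) W (Real.exp (t * A)) (u p κ ε c n m) := by
    intro t
    have small : ∀ (t : ℕ) (W : Finset ℕ), (W.card : ℝ) ≤ u p κ ε c n m →
        RCov ρ ∅ (fun I => I ⊆ W ∧ APFree k (back f I)) W (Real.exp (t * A)) (u p κ ε c n m) := by
      intro t W hW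
      refine (RCov.one (ρ := ρ) (F := ∅) (P := fun I => I ⊆ W ∧ APFree k (back f I)) (C := W)
        (Subset.refl W) (disjoint_empty_left W) hW ?_).mono (fun I _ hI => hI) ?_ le_rfl
      · intro I _ hI
        rw [empty_union]
        exact hI.1
      · rw [Real.one_le_exp_iff]
        positivity
    induction t with
    | zero =>
      intro W _ hW
      rw [pow_zero, mul_one] at hW
      exact small 0 W hW
    | succ t ih =>
      intro W hWf hW
      by_cases hWu : (W.card : ℝ) ≤ u p κ ε c n m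
      · exact small (t + 1) W hWu
      · push Not at hWu
        -- choose `j`
        have hWcard : (W.card : ℝ) ≤ (p : ℝ) ^ (n : ℝ) := by
          have h5 : W.card ≤ p ^ n := by
            calc W.card ≤ (univ.map f : Finset ℕ).card := card_le_card hWf
              _ = p ^ n := by rw [card_map, card_univ, Fintype.card_fun, Fintype.card_fin, ZMod.card]
          rw [Real.rpow_natCast]
          exact_mod_cast h5
        have hex : ∃ i : ℕ, (W.card : ℝ) ≤ u p κ ε c n (m + i + 1) := by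
          refine ⟨n, hWcard.trans ?_⟩
          unfold u
          have h4c : (1 : ℝ) ≤ 4 / c := by
            rw [le_div_iff₀ hc]; linarith
          refine le_trans ?_ (le_mul_of_one_le_left (by positivity) h4c)
          rw [Real.rpow_le_rpow_left_iff hp1]
          push_cast
          have e1 : (1 - κ) * (n : ℝ) + (κ + ε) * ((m : ℝ) + n + 1) = n + ((κ + ε) * (m + 1) + ε * n) := by
            ring
          rw [e1]
          have : 0 ≤ (κ + ε) * ((m : ℝ) + 1) + ε * n := by positivity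
          linarith
        classical
        obtain ⟨i, hi1, hi2⟩ : ∃ i : ℕ, u p κ ε c n (m + i) < W.card ∧
            (W.card : ℝ) ≤ u p κ ε c n (m + i + 1) := by
          refine ⟨Nat.find hex, ?_, Nat.find_spec hex⟩
          rcases Nat.eq_zero_or_pos (Nat.find hex) with h0 | h0
          · rw [h0, Nat.add_zero]; exact hWu
          · have h5 := Nat.find_min hex (m := Nat.find hex - 1) (by omega)
            push Not at h5
            have e1 : m + (Nat.find hex - 1) + 1 = m + Nat.find hex := by omega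
            rwa [e1] at h5
        have hWb : (back f W).map f = W := map_back f hWf
        have hWc : ((back f W).card : ℝ) = W.card := by
          conv_rhs => rw [← hWb, card_map]
        have h6 := hstep' (back f W) (m + i) (by omega) (by rw [hWc]; exact hi1)
          (by rw [hWc]; exact hi2)
        rw [hWb] at h6
        have h7 : RCov ρ ∅ (fun I => I ⊆ W ∧ APFree k (back f I)) W (Real.exp A * Real.exp (t * A))
            (u p κ ε c n m) := by
          refine RCov.comp hρ0.le ?_ h6 (Real.exp_nonneg _) ?_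
          · intro I J hJI hI
            exact ⟨hJI.trans hI.1, hI.2.mono (back_mono f hJI)⟩
          · intro C hCW hCc
            refine (ih C (hCW.trans hWf) ?_).mono (fun I _ hI => ⟨hI.1, hI.2.2⟩) le_rfl le_rfl
            have hd : 0 ≤ 1 - δ := by linarith
            calc (C.card : ℝ) * (1 - δ) ^ t ≤ ((1 - δ) * W.card) * (1 - δ) ^ t := by gcongr
              _ = W.card * (1 - δ) ^ (t + 1) := by ring
              _ ≤ _ := hW
        refine h7.mono (fun I _ hI => hI) ?_ le_rfl
        rw [← Real.exp_add]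
        apply Real.exp_le_exp.2
        push_cast
        linarith
  set t : ℕ := ⌈Real.log p / δ * n⌉₊ with ht
  have ht1 : Real.log p / δ * n ≤ t := Nat.le_ceil _
  have ht2 : (t : ℝ) ≤ (Real.log p / δ + 1) * n := by
    have := (Nat.ceil_lt_add_one (by positivity : 0 ≤ Real.log p / δ * n)).le
    have e1 : (Real.log p / δ + 1) * (n : ℝ) = Real.log p / δ * n + n := by ring
    rw [e1]
    linarith
  have hfin := iter t (univ.map f) (Subset.refl _) (by
    refine le_trans ?_ hu1
    have hc1 : ((univ.map f : Finset ℕ).card : ℝ) = (p : ℝ) ^ n := by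
      rw [card_map, card_univ, Fintype.card_fun, Fintype.card_fin, ZMod.card]
      push_cast
      rfl
    rw [hc1]
    have hd : 0 ≤ 1 - δ := by linarith
    have h5 : (1 - δ) ^ t ≤ Real.exp (-(δ * t)) := by
      calc (1 - δ) ^ t ≤ (Real.exp (-δ)) ^ t := by
            apply pow_le_pow_left₀ hd
            have := Real.add_one_le_exp (-δ)
            linarith
        _ = _ := by rw [← Real.exp_nat_mul]; congr 1; ring
    have h6 : Real.exp (-(δ * t)) ≤ Real.exp (-(n * Real.log p)) := by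
      apply Real.exp_le_exp.2
      have h7 := mul_le_mul_of_nonneg_left ht1 hδ0.le
      have e1 : δ * (Real.log p / δ * n) = n * Real.log p := by field_simp
      rw [e1] at h7
      linarith
    have h8 : (p : ℝ) ^ n = Real.exp (n * Real.log p) := by
      rw [mul_comm, Real.exp_mul, Real.exp_log hp0, Real.rpow_natCast]
    calc (p : ℝ) ^ n * (1 - δ) ^ t ≤ Real.exp (n * Real.log p) * Real.exp (-(n * Real.log p)) := by
          rw [← h8]
          exact mul_le_mul_of_nonneg_left (h5.trans h6) (by positivity)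
      _ = 1 := by rw [← Real.exp_add]; simp)
  refine hfin.mono (fun I _ hI => hI) ?_ le_rfl
  apply Real.exp_le_exp.2
  calc (t : ℝ) * A ≤ ((Real.log p / δ + 1) * n) * A := mul_le_mul_of_nonneg_right ht2 hA0
    _ = _ := by rw [hA]; ring

end Pool.Agent.K6.H67.SR
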