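import Pool.Agent.K6.H67.SR.IterB
import Pool.Agent.Results.MP_b30443_co.NotAttained

/-!
# The exponent `κ`, `λ_{k,p} = p ^ (1 - κ)`
-/

set_option autoImplicit false

open Finset Filter Topology

namespace Pool.Agent.K6.H67.SR

lemma r_eq (k p n : ℕ) : Pool.Agent.Results.MP_b30443_co.NotAttained.r k p n = r k p n := rfl

theorem exists_kappa (k p : ℕ) [hp : Fact p.Prime] (hk : 3 ≤ k) (hkp : k ≤ p) :
    ∃ κ : ℝ, 0 ≤ κ ∧ κ ≤ 1 / k ∧
      Tendsto (fun n : ℕ => (r k p n : ℝ) ^ (1 / (n : ℝ))) atTop (𝓝 ((p : ℝ) ^ (1 - κ))) ∧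
      (∀ n : ℕ, (r k p n : ℝ) ≤ (p : ℝ) ^ ((1 - κ) * n)) ∧
      ∀ ε : ℝ, 0 < ε → ∃ c : ℝ, 0 < c ∧ c ≤ 1 ∧
        ∀ j : ℕ, c * (p : ℝ) ^ ((1 - κ - ε) * j) ≤ r k p j := by
  have hp1 : (1 : ℝ) < p := p1
  have hp0 : (0 : ℝ) < p := p0
  have hlogp : 0 < Real.log p := Real.log_pos hp1
  have hk0 : (0 : ℝ) < k := by exact_mod_cast (by omega : 0 < k)
  obtain ⟨_, L, hL, hlt⟩ := Pool.Agent.Results.MP_b30443_co.NotAttained.result k p hk hkp
  have hL' : Tendsto (fun n : ℕ => (r k p n : ℝ) ^ (1 / (n : ℝ))) atTop (𝓝 L) := hL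
  have hlt' : ∀ n : ℕ, 1 ≤ n → (r k p n : ℝ) < L ^ n := hlt
  have hr1 : ∀ n : ℕ, (1 : ℝ) ≤ r k p n := fun n => by exact_mod_cast one_le_r (p := p) (by omega) n
  have hrp : ∀ n : ℕ, (r k p n : ℝ) ≤ (p : ℝ) ^ n := by
    intro n
    obtain ⟨A, _, hA⟩ := exists_r (p := p) (k := k) (by omega) n
    have h1 := card_le_univ A
    rw [Fintype.card_fun, Fintype.card_fin, ZMod.card, hA] at h1
    exact_mod_cast h1
  have hL1 : 1 < L := by
    have h1 := hlt' 1 le_rfl
    rw [pow_one] at h1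
    exact (hr1 1).trans_lt h1
  have hL0 : 0 < L := by linarith
  have hLp : L ≤ p := by
    refine le_of_tendsto hL' ?_
    filter_upwards [eventually_ge_atTop 1] with n hn
    calc (r k p n : ℝ) ^ (1 / (n : ℝ)) ≤ ((p : ℝ) ^ n) ^ (1 / (n : ℝ)) :=
          Real.rpow_le_rpow (by linarith [hr1 n]) (hrp n) (by positivity)
      _ = p := by rw [one_div, Real.pow_rpow_inv_natCast hp0.le (by omega)]
  set κ : ℝ := 1 - Real.log L / Real.log p with hκ
  have hpκ : (p : ℝ) ^ (1 - κ) = L := by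
    have e1 : 1 - κ = Real.log L / Real.log p := by rw [hκ]; ring
    rw [e1, Real.rpow_def_of_pos hp0, mul_div_cancel₀ _ hlogp.ne', Real.exp_log hL0]
  have hpow : ∀ n : ℕ, L ^ n = (p : ℝ) ^ ((1 - κ) * n) := by
    intro n
    rw [Real.rpow_mul hp0.le, hpκ, Real.rpow_natCast]
  refine ⟨κ, ?_, ?_, by rw [hpκ]; exact hL', ?_, ?_⟩
  · rw [hκ, sub_nonneg, div_le_one hlogp]
    exact Real.log_le_log hL0 hLp
  · have h1 : (p : ℝ) ^ (k - 1) ≤ L ^ k := by
      obtain ⟨A, hA, hAc⟩ := Pool.Agent.H523R2.AP.norm_set (p := p) hk hkp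
      have h2 : A.card ≤ r k p k := card_le_r (p := p) (k := k) hA
      rw [hAc] at h2
      have h3 : (p : ℝ) ^ (k - 1) ≤ r k p k := by exact_mod_cast h2
      exact h3.trans (hlt' k (by omega)).le
    have h2 := Real.log_le_log (by positivity) h1
    rw [Real.log_pow, Real.log_pow, Nat.cast_sub (by omega : 1 ≤ k), Nat.cast_one] at h2
    have h3 : ((k : ℝ) - 1) / k ≤ Real.log L / Real.log p := by
      rw [div_le_div_iff₀ hk0 hlogp]
      linarith
    have h4 : ((k : ℝ) - 1) / k = 1 - 1 / k := by field_simp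
    rw [h4] at h3
    rw [hκ]
    linarith
  · intro n
    rcases Nat.eq_zero_or_pos n with rfl | hn
    · have h1 := hrp 0
      simpa using h1
    · rw [← hpow n]
      exact (hlt' n hn).le
  · intro ε hε
    have h1 : (p : ℝ) ^ (1 - κ - ε) < L := by
      rw [← hpκ, Real.rpow_lt_rpow_left_iff hp1]
      linarith
    have h2 := (hL'.eventually (lt_mem_nhds h1)).and (eventually_ge_atTop 1)
    obtain ⟨j0, hj0⟩ := eventually_atTop.1 h2
    refine ⟨(p : ℝ) ^ (-(j0 : ℝ)), by positivity, ?_, ?_⟩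
    · apply Real.rpow_le_one_of_one_le_of_nonpos hp1.le
      simp
    · intro j
      by_cases hj : j0 ≤ j
      · obtain ⟨h3, h4⟩ := hj0 j hj
        have h5 : (p : ℝ) ^ ((1 - κ - ε) * j) ≤ r k p j := by
          rw [Real.rpow_mul hp0.le, Real.rpow_natCast]
          have h6 := pow_le_pow_left₀ (by positivity) h3.le j
          rwa [one_div, Real.rpow_inv_natCast_pow (by linarith [hr1 j]) (by omega)] at h6
        refine le_trans ?_ h5
        have h6 : (p : ℝ) ^ (-(j0 : ℝ)) ≤ 1 := by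
          apply Real.rpow_le_one_of_one_le_of_nonpos hp1.le
          simp
        exact mul_le_of_le_one_left (by positivity) h6
      · push Not at hj
        refine le_trans ?_ (hr1 j)
        rw [← Real.rpow_add hp0]
        apply Real.rpow_le_one_of_one_le_of_nonpos hp1.le
        have h6 : (j : ℝ) ≤ j0 := by exact_mod_cast hj.le
        have h7 : 0 ≤ κ := by
          rw [hκ, sub_nonneg, div_le_one hlogp]
          exact Real.log_le_log hL0 hLp
        have h8 : 0 ≤ (κ + ε) * (j : ℝ) := by positivity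
        have h9 : (1 - κ - ε) * (j : ℝ) = j - (κ + ε) * j := by ring
        rw [h9]
        linarith

end Pool.Agent.K6.H67.SR
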