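import Pool.Agent.K6.H67.SR.Kappa

/-!
# The lower bound for random subsets
-/

set_option autoImplicit false

open Finset Filter Topology

namespace Pool.Agent.K6.H67.SR

/-- the growth exponent -/
noncomputable def g (k : ℕ) (κ s : ℝ) : ℝ := 1 - s - κ * max 0 (1 - ((k : ℝ) - 1) * s)

lemma g_nonneg {k : ℕ} (hk : 3 ≤ k) {κ s : ℝ} (hκk : κ ≤ 1 / k) (hs1 : s ≤ 1) :
    0 ≤ g k κ s := by
  have hk3 : (3 : ℝ) ≤ k := by exact_mod_cast hk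
  have hk1 : (0 : ℝ) < (k : ℝ) - 1 := by linarith
  unfold g
  rcases le_total (1 - ((k : ℝ) - 1) * s) 0 with h | h
  · rw [max_eq_left h]; linarith
  · rw [max_eq_right h]
    have h1 : κ ≤ 1 / ((k : ℝ) - 1) :=
      hκk.trans (one_div_le_one_div_of_le hk1 (by linarith))
    have h2 : κ * (1 - ((k : ℝ) - 1) * s) ≤ 1 / ((k : ℝ) - 1) * (1 - ((k : ℝ) - 1) * s) :=
      mul_le_mul_of_nonneg_right h1 h
    have h3 : 1 / ((k : ℝ) - 1) * (1 - ((k : ℝ) - 1) * s) = 1 / ((k : ℝ) - 1) - s := by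
      field_simp
    have h4 : 1 / ((k : ℝ) - 1) ≤ 1 := by
      rw [div_le_one hk1]; linarith
    linarith

variable {p : ℕ} [hp : Fact p.Prime]

/-- The deterministic part. -/
theorem lower_det {k : ℕ} (hk : 3 ≤ k) {κ c ε : ℝ} (hκ0 : 0 ≤ κ) (hκk : κ ≤ 1 / k)
    (hε : 0 < ε) (hε1 : ε ≤ 1 / 2) (hc : 0 < c) 
    (hlow : ∀ j : ℕ, c * (p : ℝ) ^ ((1 - κ - ε / 4) * j) ≤ r k p j) {n : ℕ}
    (hn : 8 * (p : ℝ) ^ (4 : ℝ) / c ≤ (p : ℝ) ^ (ε / 2 * n)) {s : ℝ} (hs0 : 0 ≤ s)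
    (R : Finset (Fin n → ZMod p))
    (h1 : (p : ℝ) ^ (-(s * n)) * (p : ℝ) ^ n / 4 ≤ R.card)
    (h2 : ((aps k R).card : ℝ) ≤ (p : ℝ) ^ (ε / 4 * n) * (((p : ℝ) ^ (-(s * n))) ^ k *
      ((p : ℝ) ^ n) ^ 2)) :
    ∃ A : Finset (Fin n → ZMod p), A ⊆ R ∧ APFree k A ∧
      (p : ℝ) ^ ((g k κ s - ε) * n) ≤ A.card := by
  have hp1 : (1 : ℝ) < p := p1
  have hp0 : (0 : ℝ) < p := p0
  have hp2 : (2 : ℝ) ≤ p := by exact_mod_cast hp.out.two_le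
  have hk3 : (3 : ℝ) ≤ k := by exact_mod_cast hk
  have hn0 : (0 : ℝ) ≤ n := Nat.cast_nonneg n
  set μ : ℝ := max 0 (1 - ((k : ℝ) - 1) * s) with hμ
  have hμ0 : 0 ≤ μ := le_max_left _ _
  have hμ1 : μ ≤ 1 := by
    apply max_le zero_le_one
    have : 0 ≤ ((k : ℝ) - 1) * s := mul_nonneg (by linarith) hs0
    linarith
  have hμ2 : 1 - ((k : ℝ) - 1) * s ≤ μ := le_max_right _ _
  have hκ3 : κ ≤ 1 / 3 := hκk.trans (one_div_le_one_div_of_le (by norm_num) hk3)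
  -- the exponent `y`
  set y : ℝ := 3 + (ε / 4 + (1 - ((k : ℝ) - 1) * s)) * n with hy
  have hymax : max 0 y ≤ 3 + (ε / 4 + μ) * n := by
    apply max_le
    · positivity
    · rw [hy]
      have : (ε / 4 + (1 - ((k : ℝ) - 1) * s)) * n ≤ (ε / 4 + μ) * n :=
        mul_le_mul_of_nonneg_right (by linarith) hn0
      linarith
  obtain ⟨m, hm1, hm2⟩ : ∃ m : ℕ, y ≤ m ∧ (m : ℝ) ≤ 4 + (ε / 4 + μ) * n := by
    refine ⟨⌈max 0 y⌉₊, (le_max_right 0 y).trans (Nat.le_ceil _), ?_⟩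
    have := (Nat.ceil_lt_add_one (le_max_left 0 y)).le
    linarith
  -- few progressions
  have hT : 2 * ((aps k R).card : ℝ) ≤ (p : ℝ) ^ m * R.card := by
    have e1 : 2 * ((p : ℝ) ^ (ε / 4 * n) * (((p : ℝ) ^ (-(s * n))) ^ k * ((p : ℝ) ^ n) ^ 2)) =
        8 * (p : ℝ) ^ ((ε / 4 + (1 - ((k : ℝ) - 1) * s)) * n) *
          ((p : ℝ) ^ (-(s * n)) * (p : ℝ) ^ n / 4) := by
      rw [← Real.rpow_natCast ((p : ℝ) ^ (-(s * n))) k, ← Real.rpow_mul hp0.le,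
        ← Real.rpow_natCast (p : ℝ) n, ← Real.rpow_natCast ((p : ℝ) ^ (n : ℝ)) 2,
        ← Real.rpow_mul hp0.le, ← Real.rpow_add hp0, ← Real.rpow_add hp0, ← Real.rpow_add hp0]
      have e2 : 8 * (p : ℝ) ^ ((ε / 4 + (1 - ((k : ℝ) - 1) * s)) * n) *
          ((p : ℝ) ^ (-(s * n) + (n : ℝ)) / 4) = 2 * ((p : ℝ) ^ ((ε / 4 +
            (1 - ((k : ℝ) - 1) * s)) * n) * (p : ℝ) ^ (-(s * n) + (n : ℝ))) := by ring
      rw [e2, ← Real.rpow_add hp0]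
      congr 2
      push_cast
      ring
    have e3 : 8 * (p : ℝ) ^ ((ε / 4 + (1 - ((k : ℝ) - 1) * s)) * n) ≤ (p : ℝ) ^ m := by
      have e4 : (8 : ℝ) ≤ (p : ℝ) ^ (3 : ℝ) := by
        have e5 : (p : ℝ) ^ (3 : ℝ) = (p : ℝ) ^ (3 : ℕ) := by
          rw [← Real.rpow_natCast]; norm_num
        rw [e5]
        calc (8 : ℝ) = 2 ^ 3 := by norm_num
          _ ≤ _ := pow_le_pow_left₀ (by norm_num) hp2 3
      calc 8 * (p : ℝ) ^ ((ε / 4 + (1 - ((k : ℝ) - 1) * s)) * n)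
          ≤ (p : ℝ) ^ (3 : ℝ) * (p : ℝ) ^ ((ε / 4 + (1 - ((k : ℝ) - 1) * s)) * n) := by gcongr
        _ = (p : ℝ) ^ y := by rw [← Real.rpow_add hp0]
        _ ≤ (p : ℝ) ^ (m : ℝ) := by rwa [Real.rpow_le_rpow_left_iff hp1]
        _ = _ := Real.rpow_natCast _ _
    calc 2 * ((aps k R).card : ℝ) ≤ 2 * ((p : ℝ) ^ (ε / 4 * n) * (((p : ℝ) ^ (-(s * n))) ^ k *
          ((p : ℝ) ^ n) ^ 2)) := by linarith
      _ = _ := e1
      _ ≤ (p : ℝ) ^ m * R.card := mul_le_mul e3 h1 (by positivity) (by positivity)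
  obtain ⟨B, hB, hBc⟩ := exists_r (p := p) (k := k) (by omega) m
  obtain ⟨A, hAR, hA, hc2⟩ := hash_sub (p := p) k m (by omega) R B hB
  refine ⟨A, hAR, hA, ?_⟩
  rw [hBc] at hc2
  have hc3 : (r k p m : ℝ) * ((p : ℝ) ^ m * R.card) ≤ A.card * (p : ℝ) ^ (2 * m) +
      r k p m * (aps k R).card := by exact_mod_cast hc2
  have hpm : (0 : ℝ) < (p : ℝ) ^ m := by positivity
  have hr0 : (0 : ℝ) ≤ r k p m := Nat.cast_nonneg _
  -- `|A| ≥ r(m) |R| / (2 p^m)`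
  have hA1 : (r k p m : ℝ) * R.card ≤ 2 * A.card * (p : ℝ) ^ m := by
    have e1 : (r k p m : ℝ) * (2 * ((aps k R).card : ℝ)) ≤ r k p m * ((p : ℝ) ^ m * R.card) :=
      mul_le_mul_of_nonneg_left hT hr0
    have e2 : (p : ℝ) ^ (2 * m) = (p : ℝ) ^ m * (p : ℝ) ^ m := by rw [two_mul, pow_add]
    rw [e2] at hc3
    have e3 : (r k p m : ℝ) * R.card * (p : ℝ) ^ m ≤ 2 * A.card * (p : ℝ) ^ m * (p : ℝ) ^ m := by
      nlinarith
    exact le_of_mul_le_mul_right e3 hpm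
  have hrm := hlow m
  -- combine
  have h5 : c * (p : ℝ) ^ ((1 - κ - ε / 4) * m) * ((p : ℝ) ^ (-(s * n)) * (p : ℝ) ^ n / 4) ≤
      2 * A.card * (p : ℝ) ^ m :=
    (mul_le_mul hrm h1 (by positivity) hr0).trans hA1
  have h6 : c / 8 * (p : ℝ) ^ ((1 - s) * n - (κ + ε / 4) * m) ≤ A.card := by
    have e1 : c * (p : ℝ) ^ ((1 - κ - ε / 4) * m) * ((p : ℝ) ^ (-(s * n)) * (p : ℝ) ^ n / 4) =
        2 * (c / 8 * (p : ℝ) ^ ((1 - s) * n - (κ + ε / 4) * m)) * (p : ℝ) ^ m := by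
      rw [← Real.rpow_natCast (p : ℝ) n, ← Real.rpow_natCast (p : ℝ) m, ← Real.rpow_add hp0]
      have e2 : c * (p : ℝ) ^ ((1 - κ - ε / 4) * m) * ((p : ℝ) ^ (-(s * n) + (n : ℝ)) / 4) =
        c / 4 * ((p : ℝ) ^ ((1 - κ - ε / 4) * m) * (p : ℝ) ^ (-(s * n) + (n : ℝ))) := by ring
      have e3 : 2 * (c / 8 * (p : ℝ) ^ ((1 - s) * n - (κ + ε / 4) * m)) * (p : ℝ) ^ (m : ℝ) =
        c / 4 * ((p : ℝ) ^ ((1 - s) * n - (κ + ε / 4) * m) * (p : ℝ) ^ (m : ℝ)) := by ring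
      rw [e2, e3, ← Real.rpow_add hp0, ← Real.rpow_add hp0]
      congr 2
      ring
    rw [e1] at h5
    have h7 := le_of_mul_le_mul_right h5 hpm
    linarith
  refine le_trans ?_ h6
  -- exponents
  have hκε : κ + ε / 4 ≤ 1 := by linarith
  have hκε0 : 0 ≤ κ + ε / 4 := by linarith
  have h8 : (κ + ε / 4) * m ≤ 4 + (κ * μ + ε / 2) * n := by
    have e1 : (κ + ε / 4) * m ≤ (κ + ε / 4) * (4 + (ε / 4 + μ) * n) :=
      mul_le_mul_of_nonneg_left hm2 hκε0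
    have e2 : (κ + ε / 4) * 4 ≤ 4 := by linarith
    have e3 : (κ + ε / 4) * (ε / 4 + μ) ≤ κ * μ + ε / 2 := by
      have e4 : (κ + ε / 4) * (ε / 4) ≤ 1 * (ε / 4) :=
        mul_le_mul_of_nonneg_right hκε (by linarith)
      have e5 : ε / 4 * μ ≤ ε / 4 * 1 := mul_le_mul_of_nonneg_left hμ1 (by linarith)
      have e6 : (κ + ε / 4) * (ε / 4 + μ) = (κ + ε / 4) * (ε / 4) + κ * μ + ε / 4 * μ := by ring
      rw [e6]
      linarith
    have e7 : (κ + ε / 4) * (ε / 4 + μ) * n ≤ (κ * μ + ε / 2) * n :=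
      mul_le_mul_of_nonneg_right e3 hn0
    have e8 : (κ + ε / 4) * (4 + (ε / 4 + μ) * n) = (κ + ε / 4) * 4 +
      (κ + ε / 4) * (ε / 4 + μ) * n := by ring
    rw [e8] at e1
    linarith
  have h9 : (g k κ s - ε) * n ≤ (1 - s) * n - (κ + ε / 4) * m + 4 - ε / 2 * n := by
    have e1 : (g k κ s - ε) * n = (1 - s) * n - (κ * μ + ε / 2) * n - ε / 2 * n := by
      unfold g; rw [← hμ]; ring
    rw [e1]
    linarith
  calc (p : ℝ) ^ ((g k κ s - ε) * n)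
      ≤ (p : ℝ) ^ ((1 - s) * n - (κ + ε / 4) * m + 4 - ε / 2 * n) := by
        rwa [Real.rpow_le_rpow_left_iff hp1]
    _ = (p : ℝ) ^ ((1 - s) * n - (κ + ε / 4) * m) * ((p : ℝ) ^ (4 : ℝ) / (p : ℝ) ^ (ε / 2 * n)) := by
        rw [← Real.rpow_sub hp0, ← Real.rpow_add hp0]
        congr 1
        ring
    _ ≤ (p : ℝ) ^ ((1 - s) * n - (κ + ε / 4) * m) * (c / 8) := by
        refine mul_le_mul_of_nonneg_left ?_ (by positivity)
        rw [div_le_iff₀ (by positivity)]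
        rw [div_le_iff₀ hc] at hn
        linarith
    _ = _ := by ring

end Pool.Agent.K6.H67.SR
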