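import Pool.Agent.K6.H67.SR.Lower

/-!
# The upper bound for random subsets
-/

set_option autoImplicit false

open Finset Filter Topology

namespace Pool.Agent.K6.H67.SR

open Pool.Agent.Y940.CT

variable {p : ℕ} [hp : Fact p.Prime]

lemma tendsto_rpow_nat {ε : ℝ} (hε : 0 < ε) :
    Tendsto (fun n : ℕ => (p : ℝ) ^ (ε * n)) atTop atTop := by
  have h1 : (1 : ℝ) < (p : ℝ) ^ ε := Real.one_lt_rpow p1 hε
  have h2 := tendsto_pow_atTop_atTop_of_one_lt h1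
  refine h2.congr fun n => ?_
  rw [Real.rpow_mul p0.le, Real.rpow_natCast]

lemma eventually_const_le {ε : ℝ} (hε : 0 < ε) (a : ℝ) :
    ∀ᶠ n : ℕ in atTop, a ≤ (p : ℝ) ^ (ε * n) :=
  (tendsto_rpow_nat hε).eventually_ge_atTop a

lemma eventually_sq_le {ε : ℝ} (hε : 0 < ε) (a : ℝ) :
    ∀ᶠ n : ℕ in atTop, a * n ^ 2 ≤ (p : ℝ) ^ (ε * n) := by
  have h1 : (1 : ℝ) < (p : ℝ) ^ ε := Real.one_lt_rpow p1 hε
  have h2 := tendsto_pow_const_div_const_pow_of_one_lt 2 h1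
  rcases le_or_gt a 0 with ha | ha
  · filter_upwards with n
    have h3 : 0 ≤ (p : ℝ) ^ (ε * n) := by have := p0 (p := p); positivity
    nlinarith [mul_nonneg (neg_nonneg.2 ha) (sq_nonneg (n : ℝ))]
  · have h4 : (0 : ℝ) < 1 / a := by positivity
    filter_upwards [h2.eventually (gt_mem_nhds h4)] with n hn
    have h5 : (0 : ℝ) < ((p : ℝ) ^ ε) ^ n := by have := p0 (p := p); positivity
    rw [div_lt_div_iff₀ h5 ha] at hn
    rw [Real.rpow_mul p0.le, Real.rpow_natCast]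
    linarith

/-- enough room: case of few constraints -/
theorem upper_triv (hE : PieceE) {k : ℕ} (hk : 3 ≤ k) (hkp : k ≤ p) {κ : ℝ} (hκk : κ ≤ 1 / k)
    {ε : ℝ} {n : ℕ} (hn : (4 : ℝ) ≤ (p : ℝ) ^ (ε / 2 * n)) {s : ℝ} (hs0 : 0 ≤ s)
    (hs1 : s ≤ 1) (hs : κ * max 0 (1 - ((k : ℝ) - 1) * s) ≤ ε / 2) :
    prob ((p : ℝ) ^ (-(s * n))) (fun R : Finset (Fin n → ZMod p) =>
      ∃ A : Finset (Fin n → ZMod p), A ⊆ R ∧ APFree k A ∧ (p : ℝ) ^ ((g k κ s + ε) * n) ≤ A.card) ≤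
      Real.exp (-((p : ℝ) ^ (ε * n) / 2)) := by
  have hp1 : (1 : ℝ) < p := p1
  have hp0 : (0 : ℝ) < p := p0
  have hn0 : (0 : ℝ) ≤ n := Nat.cast_nonneg n
  have hρ0 : (0 : ℝ) ≤ (p : ℝ) ^ (-(s * n)) := by positivity
  have hρ1 : (p : ℝ) ^ (-(s * n)) ≤ 1 := by
    apply Real.rpow_le_one_of_one_le_of_nonpos hp1.le
    have : 0 ≤ s * n := by positivity
    linarith
  obtain ⟨_, hmono, _, _, hcard, _⟩ := hE p k hk hkp (Fin n → ZMod p) ((p : ℝ) ^ (-(s * n))) hρ0 hρ1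
  have hN : (Fintype.card (Fin n → ZMod p) : ℝ) = (p : ℝ) ^ (n : ℝ) := by
    rw [Fintype.card_fun, Fintype.card_fin, ZMod.card, Real.rpow_natCast]
    push_cast
    rfl
  set M : ℝ := (p : ℝ) ^ ((g k κ s + ε) * n) with hM
  have h1 : prob ((p : ℝ) ^ (-(s * n))) (fun R : Finset (Fin n → ZMod p) =>
      ∃ A : Finset (Fin n → ZMod p), A ⊆ R ∧ APFree k A ∧ M ≤ A.card) ≤
      prob ((p : ℝ) ^ (-(s * n))) (fun R : Finset (Fin n → ZMod p) => M ≤ (R.card : ℝ)) := by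
    apply hmono
    rintro R ⟨A, hAR, _, hA⟩
    exact hA.trans (by exact_mod_cast card_le_card hAR)
  refine h1.trans ((hcard M).trans ?_)
  apply Real.exp_le_exp.2
  rw [hN]
  have hg := g_nonneg (κ := κ) hk hκk hs1
  have h2 : (p : ℝ) ^ (ε * n) ≤ M := by
    rw [hM, Real.rpow_le_rpow_left_iff hp1]
    exact mul_le_mul_of_nonneg_right (by linarith) hn0
  have h3 : 4 * ((p : ℝ) ^ (-(s * n)) * (p : ℝ) ^ (n : ℝ)) ≤ M := by
    calc 4 * ((p : ℝ) ^ (-(s * n)) * (p : ℝ) ^ (n : ℝ))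
        ≤ (p : ℝ) ^ (ε / 2 * n) * ((p : ℝ) ^ (-(s * n)) * (p : ℝ) ^ (n : ℝ)) := by gcongr
      _ = (p : ℝ) ^ ((1 - s + ε / 2) * n) := by
          rw [← Real.rpow_add hp0, ← Real.rpow_add hp0]
          congr 1
          ring
      _ ≤ M := by
          rw [hM, Real.rpow_le_rpow_left_iff hp1]
          apply mul_le_mul_of_nonneg_right _ hn0
          unfold g
          linarith
  nlinarith

theorem upper_prob (hB : PieceB) (hD : PieceD) (hE : PieceE) {k : ℕ} (hk : 3 ≤ k) (hkp : k ≤ p)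
    {κ : ℝ} (hκ0 : 0 ≤ κ) (hκk : κ ≤ 1 / k)
    (hup : ∀ n : ℕ, (r k p n : ℝ) ≤ (p : ℝ) ^ ((1 - κ) * n))
    (hlow : ∀ ε : ℝ, 0 < ε → ∃ c : ℝ, 0 < c ∧ c ≤ 1 ∧
        ∀ j : ℕ, c * (p : ℝ) ^ ((1 - κ - ε) * j) ≤ r k p j) {ε : ℝ} (hε : 0 < ε) :
    ∀ᶠ n : ℕ in atTop, ∀ s : ℝ, 0 ≤ s → s ≤ 1 →
      prob ((p : ℝ) ^ (-(s * n))) (fun R : Finset (Fin n → ZMod p) =>
        ∃ A : Finset (Fin n → ZMod p), A ⊆ R ∧ APFree k A ∧
          (p : ℝ) ^ ((g k κ s + ε) * n) ≤ A.card) ≤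
        Real.exp (-((p : ℝ) ^ (ε * n) / 2)) := by
  have hp1 : (1 : ℝ) < p := p1
  have hp0 : (0 : ℝ) < p := p0
  have hp2 : (2 : ℝ) ≤ p := by exact_mod_cast hp.out.two_le
  have hk3 : (3 : ℝ) ≤ k := by exact_mod_cast hk
  have hk1 : (0 : ℝ) < (k : ℝ) - 1 := by linarith
  have hlogp : 0 < Real.log p := Real.log_pos hp1
  rcases hκ0.eq_or_lt with hκz | hκ
  · filter_upwards [eventually_const_le (p := p) (half_pos hε) 4] with n hn s hs0 hs1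
    refine upper_triv hE hk hkp hκk hn hs0 hs1 ?_
    rw [← hκz, zero_mul]
    linarith
  -- parameters
  obtain ⟨ε', hε'0, hε'1, hε'2⟩ : ∃ ε' : ℝ, 0 < ε' ∧ ε' * ((k : ℝ) - 1) ≤ ε / 2 ∧
      κ + ε' < 1 / ((k : ℝ) - 1) := by
    have h1 : 1 / (k : ℝ) < 1 / ((k : ℝ) - 1) := one_div_lt_one_div_of_lt hk1 (by linarith)
    refine ⟨min (ε / (2 * ((k : ℝ) - 1))) ((1 / ((k : ℝ) - 1) - 1 / k) / 2), ?_, ?_, ?_⟩
    · apply lt_min (by positivity)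
      linarith
    · calc min (ε / (2 * ((k : ℝ) - 1))) ((1 / ((k : ℝ) - 1) - 1 / k) / 2) * ((k : ℝ) - 1)
          ≤ ε / (2 * ((k : ℝ) - 1)) * ((k : ℝ) - 1) :=
            mul_le_mul_of_nonneg_right (min_le_left _ _) hk1.le
        _ = ε / 2 := by field_simp
    · have h2 := min_le_right (ε / (2 * ((k : ℝ) - 1))) ((1 / ((k : ℝ) - 1) - 1 / k) / 2)
      linarith
  obtain ⟨c, hc, hc1, hlow'⟩ := hlow ε' hε'0
  obtain ⟨C, hC, hcont⟩ := containers_aps hB hk hkp hκ hκk hε'0 hε'2 hc hc1 hup hlow'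
  set c0 : ℝ := Real.log (8 * (k : ℝ) ^ 4) / Real.log p with hc0
  have h8k : (1 : ℝ) ≤ 8 * (k : ℝ) ^ 4 := by
    have h1 : (1 : ℝ) ≤ (k : ℝ) ^ 4 := one_le_pow₀ (by linarith)
    linarith
  have hc0' : 0 ≤ c0 := div_nonneg (Real.log_nonneg h8k) hlogp.le
  have hpc0 : (p : ℝ) ^ c0 = 8 * (k : ℝ) ^ 4 := by
    rw [Real.rpow_def_of_pos hp0, hc0, mul_div_cancel₀ _ hlogp.ne', Real.exp_log (by linarith)]
  set C2 : ℝ := 4 / c * (p : ℝ) ^ ((κ + ε') * (((k : ℝ) - 1) * c0 + 1)) with hC2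
  have hC2pos : 0 < C2 := by positivity
  set C3 : ℝ := 2 * (C * Real.exp 1 + 2) * C2 with hC3
  filter_upwards [eventually_const_le (p := p) (half_pos hε) 4,
    eventually_sq_le (p := p) (half_pos hε) C3, eventually_ge_atTop 1] with n hn4 hn2 hn1 s hs0 hs1
  by_cases hs : κ * max 0 (1 - ((k : ℝ) - 1) * s) ≤ ε / 2
  · exact upper_triv hE hk hkp hκk hn4 hs0 hs1 hs
  push Not at hs
  have hn0 : (0 : ℝ) ≤ n := Nat.cast_nonneg n
  have hn1' : (1 : ℝ) ≤ n := by exact_mod_cast hn1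
  have hmax : max 0 (1 - ((k : ℝ) - 1) * s) = 1 - ((k : ℝ) - 1) * s := by
    apply max_eq_right
    by_contra hcon
    push Not at hcon
    rw [max_eq_left hcon.le, mul_zero] at hs
    linarith
  set ρ : ℝ := (p : ℝ) ^ (-(s * n)) with hρ
  have hρ0 : 0 < ρ := by positivity
  have hρ1 : ρ ≤ 1 := by
    apply Real.rpow_le_one_of_one_le_of_nonpos hp1.le
    have : 0 ≤ s * n := by positivity
    linarith
  set y : ℝ := ((k : ℝ) - 1) * (s * n + c0) with hy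
  have hy0 : 0 ≤ y := by positivity
  set m : ℕ := ⌈y⌉₊ with hm
  have hm1 : y ≤ m := Nat.le_ceil _
  have hm2 : (m : ℝ) ≤ y + 1 := (Nat.ceil_lt_add_one hy0).le
  -- conditions for the containers
  have hcond1 : 8 * (k : ℝ) ^ 2 ≤ (p : ℝ) ^ m := by
    calc 8 * (k : ℝ) ^ 2 ≤ 8 * (k : ℝ) ^ 4 := by
          have : (k : ℝ) ^ 2 ≤ (k : ℝ) ^ 4 := pow_le_pow_right₀ (by linarith) (by norm_num)
          linarith
      _ = (p : ℝ) ^ c0 := hpc0.symm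
      _ ≤ (p : ℝ) ^ (m : ℝ) := by
          rw [Real.rpow_le_rpow_left_iff hp1]
          refine le_trans ?_ hm1
          rw [hy]
          have h1 : 0 ≤ s * n := by positivity
          nlinarith
      _ = _ := Real.rpow_natCast _ _
  have hcond2 : 8 * (k : ℝ) ^ 4 * (p : ℝ) ^ (-(m : ℝ) / ((k : ℝ) - 1)) ≤ ρ := by
    rw [← hpc0, ← Real.rpow_add hp0, hρ, Real.rpow_le_rpow_left_iff hp1]
    have h1 : s * n + c0 ≤ m / ((k : ℝ) - 1) := by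
      rw [le_div_iff₀ hk1]
      rw [hy] at hm1
      linarith
    have h2 : -(m : ℝ) / ((k : ℝ) - 1) = -(m / ((k : ℝ) - 1)) := by ring
    rw [h2]
    linarith
  have hexp1 : (1 : ℝ) ≤ Real.exp 1 := Real.one_le_exp (by norm_num)
  have hexp3 : Real.exp 1 ≤ 3 := Real.exp_one_lt_three.le
  have hρe : ρ ≤ ρ * Real.exp 1 := le_mul_of_one_le_right hρ0.le hexp1
  have hρe3 : ρ * Real.exp 1 ≤ 3 := by
    calc ρ * Real.exp 1 ≤ 1 * Real.exp 1 := mul_le_mul_of_nonneg_right hρ1 (by linarith)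
      _ ≤ 3 := by linarith
  obtain ⟨f⟩ : Nonempty ((Fin n → ZMod p) ↪ ℕ) :=
    ⟨(Fintype.equivFin (Fin n → ZMod p)).toEmbedding.trans Fin.valEmbedding⟩
  have hR := hcont n hn1 f m hcond1 (ρ * Real.exp 1) (hcond2.trans hρ1) (hcond2.trans hρe) hρe3
  set uu : ℝ := u p κ ε' c n m with huu
  have hu0 : 0 ≤ uu := u_nonneg (p := p) (κ := κ) (ε := ε') hc n m
  have hDD := hD (Fin n → ZMod p) f (fun I => I ⊆ univ.map f ∧ APFree k (back f I)) ρ _ _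
    ((p : ℝ) ^ ((g k κ s + ε) * n)) hρ0.le hρ1 hR
  set M : ℝ := (p : ℝ) ^ ((g k κ s + ε) * n) with hM
  obtain ⟨_, hmono, _⟩ := hE p k hk hkp (Fin n → ZMod p) ρ hρ0.le hρ1
  have h1 : prob ρ (fun R : Finset (Fin n → ZMod p) =>
      ∃ A : Finset (Fin n → ZMod p), A ⊆ R ∧ APFree k A ∧ M ≤ A.card) ≤
      prob ρ (fun R : Finset (Fin n → ZMod p) => ∃ A ⊆ R,
        (A.map f ⊆ univ.map f ∧ APFree k (back f (A.map f))) ∧ M ≤ (A.card : ℝ)) := by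
    apply hmono
    rintro R ⟨A, hAR, hA, hAc⟩
    refine ⟨A, hAR, ⟨map_subset_map.2 (subset_univ _), ?_⟩, hAc⟩
    rw [back_map]
    exact hA
  refine h1.trans (hDD.trans ?_)
  rw [← Real.exp_add]
  apply Real.exp_le_exp.2
  -- `ρ u ≤ C2 p ^ ((g + ε / 2) n)`
  have hρu : ρ * uu ≤ C2 * (p : ℝ) ^ ((g k κ s + ε / 2) * n) := by
    have e1 : ρ * uu = 4 / c * (p : ℝ) ^ (-(s * n) + ((1 - κ) * n + (κ + ε') * m)) := by
      rw [huu, hρ]
      unfold u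
      rw [Real.rpow_add hp0 (-(s * n)) ((1 - κ) * n + (κ + ε') * m)]
      ring
    have e2 : C2 * (p : ℝ) ^ ((g k κ s + ε / 2) * n) =
        4 / c * (p : ℝ) ^ ((κ + ε') * (((k : ℝ) - 1) * c0 + 1) + (g k κ s + ε / 2) * n) := by
      rw [hC2, Real.rpow_add hp0 ((κ + ε') * (((k : ℝ) - 1) * c0 + 1)) ((g k κ s + ε / 2) * n)]
      ring
    rw [e1, e2]
    apply mul_le_mul_of_nonneg_left _ (by positivity)
    rw [Real.rpow_le_rpow_left_iff hp1]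
    have hκε : 0 ≤ κ + ε' := by linarith
    have e3 : (κ + ε') * m ≤ (κ + ε') * (((k : ℝ) - 1) * (s * n + c0) + 1) :=
      mul_le_mul_of_nonneg_left hm2 hκε
    have e4 : (κ + ε') * (((k : ℝ) - 1) * (s * n + c0) + 1) =
        (κ + ε') * (((k : ℝ) - 1) * c0 + 1) + κ * (((k : ℝ) - 1) * s) * n +
          ε' * ((k : ℝ) - 1) * (s * n) := by ring
    have e5 : ε' * ((k : ℝ) - 1) * (s * n) ≤ ε / 2 * n := by
      have e6 : s * n ≤ n := mul_le_of_le_one_left hn0 hs1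
      exact mul_le_mul hε'1 e6 (by positivity) (by positivity)
    have e7 : (g k κ s + ε / 2) * n = (1 - s - κ * (1 - ((k : ℝ) - 1) * s)) * n + ε / 2 * n := by
      unfold g
      rw [hmax]
      ring
    rw [e7]
    rw [e4] at e3
    have e8 : (1 - s - κ * (1 - ((k : ℝ) - 1) * s)) * (n : ℝ) =
        -(s * n) + (1 - κ) * n + κ * (((k : ℝ) - 1) * s) * n := by ring
    rw [e8]
    linarith
  have hM2 : M = (p : ℝ) ^ (ε / 2 * n) * (p : ℝ) ^ ((g k κ s + ε / 2) * n) := by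
    rw [hM, ← Real.rpow_add hp0]
    congr 1
    ring
  have hg := g_nonneg (κ := κ) hk hκk hs1
  have h2 : (p : ℝ) ^ (ε * n) ≤ M := by
    rw [hM, Real.rpow_le_rpow_left_iff hp1]
    exact mul_le_mul_of_nonneg_right (by linarith) hn0
  -- main estimate
  have h3 : C * n ^ 2 * (ρ * Real.exp 1) * uu + 2 * ρ * uu ≤ M / 2 := by
    have e1 : C * n ^ 2 * (ρ * Real.exp 1) * uu + 2 * ρ * uu =
        (C * Real.exp 1 * n ^ 2 + 2) * (ρ * uu) := by ring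
    have e2 : C * Real.exp 1 * (n : ℝ) ^ 2 + 2 ≤ (C * Real.exp 1 + 2) * n ^ 2 := by
      have : (1 : ℝ) ≤ (n : ℝ) ^ 2 := one_le_pow₀ hn1'
      nlinarith
    rw [e1, hM2]
    calc (C * Real.exp 1 * (n : ℝ) ^ 2 + 2) * (ρ * uu)
        ≤ ((C * Real.exp 1 + 2) * n ^ 2) * (C2 * (p : ℝ) ^ ((g k κ s + ε / 2) * n)) := by
          apply mul_le_mul e2 hρu (by positivity) (by positivity)
      _ = (C3 * n ^ 2) * (p : ℝ) ^ ((g k κ s + ε / 2) * n) / 2 := by rw [hC3]; ring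
      _ ≤ (p : ℝ) ^ (ε / 2 * n) * (p : ℝ) ^ ((g k κ s + ε / 2) * n) / 2 := by
          have : (0 : ℝ) ≤ (p : ℝ) ^ ((g k κ s + ε / 2) * n) := by positivity
          gcongr
  linarith

end Pool.Agent.K6.H67.SR
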